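import Pool.Agent.Hp21.UA.Wei

/-!
# Central characters in characteristic `p` of the characters of `E ⋊ A`
-/

set_option autoImplicit false
set_option linter.unusedSectionVars false
set_option linter.style.haveILetI false

open scoped BigOperators Classical

noncomputable section

namespace Pool.Agent.Hp21.UA

open Pool.Agent.Y63.NV (IsClassFun centralValue redC IsWt numWtBlock IsBlock cut)
open Pool.Agent.Y63.AWC (IsIrreducibleCharacter pSubgroupSetoid ConjugateSubgroups)
open Pool.Agent.Y930.NV
open Pool.Agent.Hp21.UN Pool.Agent.Hp21.AW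
open Pool.Agent.H254R3.IN (IsIrr omega Om IsCl rep)

section gen

variable {F : Type} [Field F] (red : integralClosure ℤ ℂ →+* F) {G : Type} [Group G] [Fintype G]

theorem Om_cls {χ : G → ℂ} (hχ : IsIrr χ) {f : G → ℂ} (hf : IsCl f) :
    Om f χ = ∑ K : ConjClasses G, f (rep K) * omega χ (rep K) := by
  unfold Om
  rw [Pool.Agent.H254R3.IN.sum_classes, Finset.sum_div]
  refine Finset.sum_congr rfl fun K _ => ?_
  have h2 : ∀ g ∈ Finset.univ.filter (fun g => IsConj (rep K) g),
      f g * χ g = f (rep K) * χ (rep K) := by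
    intro g hg
    have hc := (Finset.mem_filter.mp hg).2
    rw [hf.isConj hc, hχ.isConj hc]
  rw [Finset.sum_congr rfl h2, Finset.sum_const, nsmul_eq_mul]
  have h3 : (Finset.univ.filter (fun g => IsConj (rep K) g)).card =
      Nat.card {y : G // IsConj (rep K) y} := by
    rw [Nat.card_eq_fintype_card, Fintype.card_subtype]
  rw [h3]
  unfold omega
  ring

theorem cv_sum {χ : G → ℂ} (hχ : IsIrreducibleCharacter χ) {κ : Type} (S : Finset κ) (c : κ → F)
    (f : κ → G → F) : centralValue red χ (fun g => ∑ i ∈ S, c i * f i g) =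
      ∑ i ∈ S, c i * centralValue red χ (f i) := by
  simp only [centralValue_eq red hχ, Finset.mul_sum, Finset.sum_mul]
  rw [Finset.sum_comm]
  exact Finset.sum_congr rfl fun i _ => Finset.sum_congr rfl fun C _ => by ring

theorem redC_Om {χ : G → ℂ} (hχ : IsIrr χ) {f : G → ℂ} (hf : IsCl f)
    (hi : ∀ g, IsIntegral ℤ (f g)) :
    redC red (Om f χ) = centralValue red χ (fun g => redC red (f g)) := by
  have hχ' : IsIrreducibleCharacter χ := hχ
  rw [Om_cls hχ hf, redC_sum red _ _ fun K _ => (hi _).mul (omega_val red hχ' _).1]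
  have h1 := cval_expand red (fun g : G => g) hχ' (f := fun g => redC red (f g))
    (fun g x => congrArg (redC red) (hf x g))
  have h2 : (fun k : G => (fun g => redC red (f g)) ((fun g : G => g) k)) =
      fun g => redC red (f g) := rfl
  rw [h2] at h1
  rw [h1]
  refine Finset.sum_congr rfl fun K _ => ?_
  rw [redC_mul red (hi _) (omega_val red hχ' _).1, (omega_val red hχ' _).2]
  rfl

end gen

section phi

variable {F : Type} [Field F] (red : integralClosure ℤ ℂ →+* F)
  {E A G : Type} [CommGroup E] [Group A] [Group G] [Fintype E] [Fintype A] [Fintype G]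
  {φ : A →* MulAut E} {ι : G →* A} {θ : E →* ℂ}

theorem th_int (θ : E →* ℂ) (e : E) : IsIntegral ℤ (θ e) := by
  refine ⟨Polynomial.X ^ Nat.card E - Polynomial.C 1, Polynomial.monic_X_pow_sub_C _
    Nat.card_pos.ne', ?_⟩
  have h1 : θ e ^ Nat.card E = 1 := by
    rw [← map_pow, pow_card_eq_one', map_one]
  rw [Polynomial.eval₂_sub, Polynomial.eval₂_X_pow, Polynomial.eval₂_C, map_one, h1, sub_self]

/-- the reduction of `θ` -/
def thF (θ : E →* ℂ) : E →* F where
  toFun e := redC red (θ e)
  map_one' := by rw [map_one, redC_one]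
  map_mul' a b := by rw [map_mul, redC_mul red (th_int θ a) (th_int θ b)]

theorem thF_apply (θ : E →* ℂ) (e : E) : thF red θ e = redC red (θ e) := rfl

/-- the map from the centre of `F[E ⋊ A]` to the centre of `F[G]` -/
def Phi (φ : A →* MulAut E) (ι : G →* A) (θ : E →* ℂ) (f : E ⋊[φ] A → F) (g : G) : F :=
  ∑ m : E, f ⟨m, ι g⟩ * thF red θ m

theorem cf_int (x : E ⋊[φ] A) (g : G) : IsIntegral ℤ (cf φ ι θ x g) := by
  unfold cf
  refine IsIntegral.sum _ fun m _ => ?_
  split_ifs
  · exact th_int θ m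
  · exact isIntegral_zero

theorem redC_cf (x : E ⋊[φ] A) (g : G) :
    redC red (cf φ ι θ x g) = ∑ m : E, ix F x ⟨m, ι g⟩ * thF red θ m := by
  unfold cf
  rw [redC_sum]
  · refine Finset.sum_congr rfl fun m _ => ?_
    unfold ix
    split_ifs
    · rw [one_mul, thF_apply]
    · rw [zero_mul, redC_zero]
  · intro m _
    split_ifs
    · exact th_int θ m
    · exact isIntegral_zero

/-- the central character of an induced character -/
theorem cv_hat (h : St φ ι θ) {χ : G → ℂ} (hχ : IsIrr χ) {f : E ⋊[φ] A → F}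
    (hf : IsClassFun f) :
    centralValue red (hat φ ι θ χ) f = centralValue red χ (Phi red φ ι θ f) := by
  have hχ' : IsIrreducibleCharacter χ := hχ
  have hh : IsIrreducibleCharacter (hat φ ι θ χ) := hat_irr h hχ
  have h1 := cval_expand red (fun g : E ⋊[φ] A => g) hh hf
  rw [show (fun k : E ⋊[φ] A => f ((fun g : E ⋊[φ] A => g) k)) = f from rfl] at h1
  rw [h1]
  have h2 : Phi red φ ι θ f = fun g => ∑ C : ConjClasses (E ⋊[φ] A), f C.out *
      (fun g => redC red (cf φ ι θ C.out g)) g := by
    funext g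
    unfold Phi
    simp only [redC_cf, Finset.mul_sum]
    rw [Finset.sum_comm]
    refine Finset.sum_congr rfl fun m _ => ?_
    rw [class_expand hf ⟨m, ι g⟩, Finset.sum_mul]
    exact Finset.sum_congr rfl fun C _ => by ring
  rw [h2, cv_sum red hχ']
  refine Finset.sum_congr rfl fun C _ => ?_
  congr 1
  rw [← redC_Om red hχ (cf_cl h C.out) fun g => cf_int C.out g, ← omega_hat h hχ]
  exact ((omega_val red hh C.out).2).symm

theorem Phi_class (h : St φ ι θ) {f : E ⋊[φ] A → F} (hf : IsClassFun f) :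
    IsClassFun (Phi red φ ι θ f) := by
  intro g x
  unfold Phi
  refine (Fintype.sum_equiv (φ (ι g)).toEquiv _ _ fun m => ?_).symm
  change _ = f ⟨φ (ι g) m, ι (g * x * g⁻¹)⟩ * thF red θ (φ (ι g) m)
  have h1 : thF red θ (φ (ι g) m) = thF red θ m := by
    rw [thF_apply, thF_apply, h.fix]
  have h2 : f ⟨φ (ι g) m, ι (g * x * g⁻¹)⟩ = f ⟨m, ι x⟩ := by
    rw [← hf (SemidirectProduct.inr (ι g)) ⟨m, ι x⟩]
    congr 1
    ext
    · simp
    · simp
  rw [h1, h2]

end phi

end Pool.Agent.Hp21.UA
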