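import Pool.Agent.Q90.WR.Cfn

/-!
# Alternating sums over chains of `p`-subgroups of direct products
-/

set_option autoImplicit false
set_option linter.unusedSectionVars false

open scoped BigOperators Classical

noncomputable section

namespace Pool.Agent.Hp21.UA

open Pool.Agent.Y63.KR
open Pool.Agent.Q90.WR (inv mem_inv W_of_weight exists_weight W_sum exists_moebius Ch conjSub_bot)

section

variable {G H : Type} [Group G] [Group H] {p : ℕ}

/-- the projections of a subgroup -/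
abbrev q1 (K : Subgroup (G × H)) : Subgroup G := K.map (MonoidHom.fst G H)

abbrev q2 (K : Subgroup (G × H)) : Subgroup H := K.map (MonoidHom.snd G H)

theorem mem_q1 {K : Subgroup (G × H)} {g : G} : g ∈ q1 K ↔ ∃ h, (g, h) ∈ K := by
  constructor
  · rintro ⟨⟨a, b⟩, h1, rfl⟩
    exact ⟨b, h1⟩
  · rintro ⟨h, h1⟩
    exact ⟨(g, h), h1, rfl⟩

theorem mem_q2 {K : Subgroup (G × H)} {h : H} : h ∈ q2 K ↔ ∃ g, (g, h) ∈ K := by
  constructor
  · rintro ⟨⟨a, b⟩, h1, rfl⟩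
    exact ⟨a, h1⟩
  · rintro ⟨g, h1⟩
    exact ⟨(g, h), h1, rfl⟩

theorem q1_prod (R₁ : Subgroup G) (R₂ : Subgroup H) : q1 (R₁.prod R₂) = R₁ := by
  ext g
  rw [mem_q1]
  constructor
  · rintro ⟨h, h1⟩
    exact (Subgroup.mem_prod.mp h1).1
  · intro h
    exact ⟨1, Subgroup.mem_prod.mpr ⟨h, R₂.one_mem⟩⟩

theorem q2_prod (R₁ : Subgroup G) (R₂ : Subgroup H) : q2 (R₁.prod R₂) = R₂ := by
  ext g
  rw [mem_q2]
  constructor
  · rintro ⟨h, h1⟩
    exact (Subgroup.mem_prod.mp h1).2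
  · intro h
    exact ⟨1, Subgroup.mem_prod.mpr ⟨R₁.one_mem, h⟩⟩

theorem le_prod' {K : Subgroup (G × H)} {R₁ : Subgroup G} {R₂ : Subgroup H} :
    K ≤ R₁.prod R₂ ↔ q1 K ≤ R₁ ∧ q2 K ≤ R₂ := by
  constructor
  · intro h
    refine ⟨?_, ?_⟩
    · intro g hg
      obtain ⟨y, hy⟩ := mem_q1.mp hg
      exact (Subgroup.mem_prod.mp (h hy)).1
    · intro g hg
      obtain ⟨y, hy⟩ := mem_q2.mp hg
      exact (Subgroup.mem_prod.mp (h hy)).2
  · rintro ⟨h1, h2⟩ ⟨a, b⟩ hx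
    exact Subgroup.mem_prod.mpr ⟨h1 (mem_q1.mpr ⟨b, hx⟩), h2 (mem_q2.mpr ⟨a, hx⟩)⟩

theorem mem_conjSub' {J : Type} [Group J] {x y : J} {P : Subgroup J} :
    y ∈ conjSub x P ↔ x⁻¹ * y * x ∈ P := by
  unfold conjSub
  rw [Subgroup.mem_map]
  constructor
  · rintro ⟨z, hz, rfl⟩
    have : x⁻¹ * (MulAut.conj x).toMonoidHom z * x = z := by
      change x⁻¹ * (x * z * x⁻¹) * x = z
      group
    rwa [this]
  · intro h
    refine ⟨_, h, ?_⟩
    change x * (x⁻¹ * y * x) * x⁻¹ = y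
    group

theorem conj_prod (x : G × H) (R₁ : Subgroup G) (R₂ : Subgroup H) :
    conjSub x (R₁.prod R₂) = (conjSub x.1 R₁).prod (conjSub x.2 R₂) := by
  ext ⟨a, b⟩
  rw [mem_conjSub', Subgroup.mem_prod, Subgroup.mem_prod, mem_conjSub', mem_conjSub']
  rfl

theorem q1_conj (x : G × H) (K : Subgroup (G × H)) : q1 (conjSub x K) = conjSub x.1 (q1 K) := by
  ext g
  rw [mem_q1, mem_conjSub', mem_q1]
  constructor
  · rintro ⟨h, h1⟩
    rw [mem_conjSub'] at h1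
    exact ⟨_, h1⟩
  · rintro ⟨h, h1⟩
    refine ⟨x.2 * h * x.2⁻¹, ?_⟩
    rw [mem_conjSub']
    have : x⁻¹ * (g, x.2 * h * x.2⁻¹) * x = (x.1⁻¹ * g * x.1, h) := by
      refine Prod.ext rfl ?_
      change x.2⁻¹ * (x.2 * h * x.2⁻¹) * x.2 = h
      group
    rwa [this]

theorem q2_conj (x : G × H) (K : Subgroup (G × H)) : q2 (conjSub x K) = conjSub x.2 (q2 K) := by
  ext g
  rw [mem_q2, mem_conjSub', mem_q2]
  constructor
  · rintro ⟨h, h1⟩
    rw [mem_conjSub'] at h1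
    exact ⟨_, h1⟩
  · rintro ⟨h, h1⟩
    refine ⟨x.1 * h * x.1⁻¹, ?_⟩
    rw [mem_conjSub']
    have : x⁻¹ * (x.1 * h * x.1⁻¹, g) * x = (h, x.2⁻¹ * g * x.2) := by
      refine Prod.ext ?_ rfl
      change x.1⁻¹ * (x.1 * h * x.1⁻¹) * x.1 = h
      group
    rwa [this]

theorem pg_prod {R₁ : Subgroup G} {R₂ : Subgroup H} (h1 : IsPGroup p R₁) (h2 : IsPGroup p R₂) :
    IsPGroup p (R₁.prod R₂) := by
  rintro ⟨⟨a, b⟩, h3⟩
  obtain ⟨m, hm⟩ := h1 ⟨a, (Subgroup.mem_prod.mp h3).1⟩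
  obtain ⟨n, hn⟩ := h2 ⟨b, (Subgroup.mem_prod.mp h3).2⟩
  refine ⟨m + n, Subtype.ext ?_⟩
  have ha : a ^ p ^ m = 1 := congrArg Subtype.val hm
  have hb : b ^ p ^ n = 1 := congrArg Subtype.val hn
  change (a, b) ^ p ^ (m + n) = 1
  refine Prod.ext ?_ ?_
  · rw [Prod.pow_fst]
    change a ^ p ^ (m + n) = 1
    rw [pow_add, pow_mul, ha, one_pow]
  · rw [Prod.pow_snd]
    change b ^ p ^ (m + n) = 1
    rw [pow_add, mul_comm, pow_mul, hb, one_pow]

end

section W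

variable {G H : Type} [Group G] [Group H] [Finite G] [Finite H] {p : ℕ}

theorem W_prod (K : Subgroup (G × H)) :
    W p (K : Set (G × H)) = W p (q1 K : Set G) * W p (q2 K : Set H) := by
  obtain ⟨f₁, h1, hf₁⟩ := exists_weight p (q1 K : Set G)
  obtain ⟨f₂, h2, hf₂⟩ := exists_weight p (q2 K : Set H)
  rw [W_of_weight (f := fun P => if P = (q1 P).prod (q2 P) then f₁ (q1 P) * f₂ (q2 P) else 0)]
  · have e1 : q1 (⊥ : Subgroup (G × H)) = ⊥ := Subgroup.map_bot _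
    have e2 : q2 (⊥ : Subgroup (G × H)) = ⊥ := Subgroup.map_bot _
    rw [e1, e2, if_pos (by rw [Subgroup.bot_prod_bot]), h1, h2]
  · intro P hP
    have hPi : ∀ Q : Subgroup (G × H), Q ∈ inv p (K : Set (G × H)) →
        q1 Q ∈ inv p (q1 K : Set G) ∧ q2 Q ∈ inv p (q2 K : Set H) := by
      intro Q hQ
      rw [mem_inv] at hQ
      rw [mem_inv, mem_inv]
      refine ⟨⟨hQ.1.map _, ?_⟩, hQ.1.map _, ?_⟩
      · intro z hz
        obtain ⟨w, hw⟩ := mem_q1.mp hz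
        rw [← q1_conj (z, w) Q, hQ.2 _ hw]
      · intro z hz
        obtain ⟨w, hw⟩ := mem_q2.mp hz
        rw [← q2_conj (w, z) Q, hQ.2 _ hw]
    rw [← Finset.sum_filter]
    have e : ∑ Q ∈ ((inv p (K : Set (G × H))).filter
        (P ≤ ·)).filter (fun Q => Q = (q1 Q).prod (q2 Q)), f₁ (q1 Q) * f₂ (q2 Q) =
        ∑ R ∈ ((inv p (q1 K : Set G)).filter (q1 P ≤ ·)) ×ˢ
          ((inv p (q2 K : Set H)).filter (q2 P ≤ ·)), f₁ R.1 * f₂ R.2 := by
      refine Finset.sum_bij' (fun Q _ => (q1 Q, q2 Q)) (fun R _ => R.1.prod R.2) ?_ ?_ ?_ ?_ ?_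
      · intro Q hQ
        rw [Finset.mem_filter, Finset.mem_filter] at hQ
        obtain ⟨⟨a1, a2⟩, a3⟩ := hQ
        rw [a3] at a2
        have a4 := le_prod'.mp a2
        rw [Finset.mem_product, Finset.mem_filter, Finset.mem_filter]
        exact ⟨⟨(hPi Q a1).1, a4.1⟩, (hPi Q a1).2, a4.2⟩
      · rintro ⟨R₁, R₂⟩ hR
        rw [Finset.mem_product, Finset.mem_filter, Finset.mem_filter] at hR
        obtain ⟨⟨a1, a2⟩, a3, a4⟩ := hR
        simp only at a1 a2 a3 a4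
        rw [mem_inv] at a1 a3
        rw [Finset.mem_filter, Finset.mem_filter, mem_inv, q1_prod, q2_prod, le_prod']
        refine ⟨⟨⟨pg_prod a1.1 a3.1, ?_⟩, a2, a4⟩, rfl⟩
        rintro ⟨c, d⟩ hx
        rw [conj_prod, a1.2 c (mem_q1.mpr ⟨d, hx⟩), a3.2 d (mem_q2.mpr ⟨c, hx⟩)]
      · intro Q hQ
        rw [Finset.mem_filter] at hQ
        exact hQ.2.symm
      · rintro ⟨R₁, R₂⟩ _
        exact Prod.ext (q1_prod _ _) (q2_prod _ _)
      · intro Q _
        rfl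
    rw [e, Finset.sum_product]
    simp only
    rw [← Finset.sum_mul_sum, hf₁ _ (hPi P hP).1, hf₂ _ (hPi P hP).2, one_mul]

/-- **the functional identity for direct products** -/
theorem functional_prod (φ : Subgroup (G × H) → ℤ) :
    ∑ υ : Ch p (G × H), (-1 : ℤ) ^ υ.1.ncard * φ (chainStabilizer υ.1) =
      ∑ σ : Ch p G, ∑ τ : Ch p H, (-1 : ℤ) ^ σ.1.ncard * ((-1 : ℤ) ^ τ.1.ncard *
        φ ((chainStabilizer σ.1).prod (chainStabilizer τ.1))) := by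
  have : Fintype (Subgroup (G × H)) := Fintype.ofFinite _
  obtain ⟨c, hc⟩ := exists_moebius φ
  have key : ∀ K : Subgroup (G × H), ∀ r : ℤ,
      ∑ υ : Ch p (G × H), (-1 : ℤ) ^ υ.1.ncard * (if K ≤ chainStabilizer υ.1 then r else 0) =
      ∑ σ : Ch p G, ∑ τ : Ch p H, (-1 : ℤ) ^ σ.1.ncard * ((-1 : ℤ) ^ τ.1.ncard *
        (if K ≤ (chainStabilizer σ.1).prod (chainStabilizer τ.1) then r else 0)) := by
    intro K r
    rw [W_sum, W_prod]
    have e1 : ∑ σ : Ch p G, ∑ τ : Ch p H, (-1 : ℤ) ^ σ.1.ncard * ((-1 : ℤ) ^ τ.1.ncard *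
        (if K ≤ (chainStabilizer σ.1).prod (chainStabilizer τ.1) then r else 0)) =
        (∑ σ : Ch p G, (-1 : ℤ) ^ σ.1.ncard *
          (if q1 K ≤ chainStabilizer σ.1 then (1 : ℤ) else 0)) *
        ∑ τ : Ch p H, (-1 : ℤ) ^ τ.1.ncard *
          (if q2 K ≤ chainStabilizer τ.1 then r else 0) := by
      rw [Finset.sum_mul_sum]
      refine Finset.sum_congr rfl fun σ _ => Finset.sum_congr rfl fun τ _ => ?_
      have h := le_prod' (K := K) (R₁ := chainStabilizer σ.1) (R₂ := chainStabilizer τ.1)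
      by_cases c1 : q1 K ≤ chainStabilizer σ.1
      · by_cases c2 : q2 K ≤ chainStabilizer τ.1
        · rw [if_pos (h.mpr ⟨c1, c2⟩), if_pos c1, if_pos c2]
          ring
        · rw [if_neg (fun h' => c2 (h.mp h').2), if_neg c2]
          simp
      · rw [if_neg (fun h' => c1 (h.mp h').1), if_neg c1]
        simp
    rw [e1, W_sum, W_sum]
    push_cast
    ring
  have e1 : ∑ υ : Ch p (G × H), (-1 : ℤ) ^ υ.1.ncard * φ (chainStabilizer υ.1) =
      ∑ K : Subgroup (G × H), ∑ υ : Ch p (G × H), (-1 : ℤ) ^ υ.1.ncard *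
        (if K ≤ chainStabilizer υ.1 then c K else 0) := by
    rw [Finset.sum_comm]
    refine Finset.sum_congr rfl fun υ _ => ?_
    rw [hc, Finset.mul_sum]
  rw [e1, Finset.sum_congr rfl fun K _ => key K (c K), Finset.sum_comm]
  refine Finset.sum_congr rfl fun σ _ => ?_
  rw [Finset.sum_comm]
  refine Finset.sum_congr rfl fun τ _ => ?_
  rw [hc, Finset.mul_sum, Finset.mul_sum]

end W

end Pool.Agent.Hp21.UA
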