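import Pool.Agent.Hp21.UA.Cen

/-!
# Induced functions over a field of characteristic `p`
-/

set_option autoImplicit false
set_option linter.unusedSectionVars false
set_option linter.style.haveILetI false

open scoped BigOperators Classical

noncomputable section

namespace Pool.Agent.Hp21.UA

open Pool.Agent.Y63.NV (IsClassFun)
open Pool.Agent.Hp21.UN

section defs

variable {F : Type} [Field F] {E A G : Type} [CommGroup E] [Group A] [Group G]

/-- `t` is a linear character of `E` over `F`, and `G` its stabiliser. -/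
structure StF (φ : A →* MulAut E) (ι : G →* A) (t : E →* F) : Prop where
  inj : Function.Injective ι
  stab : ∀ a, (∀ e, t (φ a e) = t e) ↔ ∃ g, ι g = a

/-- the inverse character -/
def ti (t : E →* F) : E →* F := t.comp invMonoidHom

theorem ti_apply (t : E →* F) (e : E) : ti t e = t e⁻¹ := rfl

theorem ti_ti (t : E →* F) : ti (ti t) = t := by
  ext e
  rw [ti_apply, ti_apply, inv_inv]

theorem t_mul_inv (t : E →* F) (e : E) : t e * t e⁻¹ = 1 := by
  rw [← map_mul, mul_inv_cancel, map_one]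

theorem t_ne (t : E →* F) (e : E) : t e ≠ 0 := left_ne_zero_of_mul_eq_one (t_mul_inv t e)

variable {φ : A →* MulAut E} {ι : G →* A} {t : E →* F}

theorem StF.fix (h : StF φ ι t) (g : G) (e : E) : t (φ (ι g) e) = t e :=
  (h.stab _).mpr ⟨g, rfl⟩ e

theorem StF.inv (h : StF φ ι t) : StF φ ι (ti t) := by
  refine ⟨h.inj, fun a => ?_⟩
  rw [← h.stab a]
  constructor
  · intro h1 e
    have := h1 e⁻¹
    rw [ti_apply, ti_apply, ← map_inv (φ a), inv_inv] at this
    exact this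
  · intro h1 e
    rw [ti_apply, ti_apply, ← map_inv, h1]

theorem sum_t [Fintype E] (t' : E →* F) :
    ∑ e, t' e = if (∀ e, t' e = 1) then (Nat.card E : F) else 0 := by
  split_ifs with h
  · rw [Finset.sum_congr rfl fun e _ => h e, Finset.sum_const, nsmul_eq_mul, mul_one,
      Finset.card_univ, Nat.card_eq_fintype_card]
  · push Not at h
    obtain ⟨e0, he⟩ := h
    have h1 : t' e0 * ∑ e, t' e = ∑ e, t' e := by
      rw [Finset.mul_sum]
      refine Fintype.sum_equiv (Equiv.mulLeft e0) _ _ fun e => ?_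
      rw [Equiv.coe_mulLeft, map_mul]
    have h2 : (t' e0 - 1) * ∑ e, t' e = 0 := by
      rw [sub_mul, one_mul, h1, sub_self]
    rcases mul_eq_zero.mp h2 with h3 | h3
    · exact absurd (sub_eq_zero.mp h3) he
    · exact h3

variable [Fintype E] [Fintype A] [Fintype G]

/-- `U(x)`: the function `t ⊗ u` on `E ⋊ G`, extended by zero -/
def UU (φ : A →* MulAut E) (ι : G →* A) (t : E →* F) (u : G → F) (x : E ⋊[φ] A) : F :=
  ∑ g : G, if ι g = x.right then t x.left * u g else 0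

theorem UU_in (h : StF φ ι t) (u : G → F) (e : E) (g : G) :
    UU φ ι t u (⟨e, ι g⟩ : E ⋊[φ] A) = t e * u g := by
  unfold UU
  rw [Finset.sum_eq_single g, if_pos rfl]
  · intro k _ hk
    rw [if_neg fun h' => hk (h.inj h')]
  · intro h'
    exact absurd (Finset.mem_univ _) h'

theorem UU_out (u : G → F) {x : E ⋊[φ] A} (hx : ∀ g, ι g ≠ x.right) : UU φ ι t u x = 0 := by
  unfold UU
  exact Finset.sum_eq_zero fun g _ => if_neg (hx g)

/-- invariance of `U` under conjugation by `E ⋊ G` -/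
theorem UU_conj (h : StF φ ι t) {u : G → F} (hu : IsClassFun u) (x : E ⋊[φ] A) (e : E) (k : G) :
    UU φ ι t u ((⟨e, ι k⟩ : E ⋊[φ] A) * x * (⟨e, ι k⟩ : E ⋊[φ] A)⁻¹) = UU φ ι t u x := by
  by_cases hx : ∃ g, ι g = x.right
  · obtain ⟨g, hg⟩ := hx
    obtain ⟨e', a'⟩ := x
    change ι g = a' at hg
    subst hg
    have h1 : (⟨e, ι k⟩ : E ⋊[φ] A) * ⟨e', ι g⟩ * (⟨e, ι k⟩ : E ⋊[φ] A)⁻¹ =
        ⟨e * φ (ι k) e' * φ (ι (k * g * k⁻¹)) e⁻¹, ι (k * g * k⁻¹)⟩ := by
      ext
      · rw [SemidirectProduct.mul_left, SemidirectProduct.mul_left, SemidirectProduct.mul_right,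
          SemidirectProduct.inv_left, phi_mul]
        change e * φ (ι k) e' * φ (ι k * ι g * (ι k)⁻¹) e⁻¹ = _
        rw [← map_mul ι, ← map_inv ι, ← map_mul ι]
      · change ι k * ι g * (ι k)⁻¹ = ι (k * g * k⁻¹)
        rw [map_mul ι, map_mul ι, map_inv ι]
    rw [h1, UU_in h, UU_in h, map_mul, map_mul, h.fix, h.fix, hu]
    have := t_mul_inv t e
    linear_combination t e' * u g * this
  · push Not at hx
    rw [UU_out u hx, UU_out]
    intro g hg
    apply hx (k⁻¹ * g * k)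
    rw [map_mul, map_mul, map_inv, hg]
    simp only [SemidirectProduct.mul_right, SemidirectProduct.inv_right]
    group

/-- one term of the induced function -/
def tm (φ : A →* MulAut E) (ι : G →* A) (t : E →* F) (u : G → F) (x : E ⋊[φ] A) (s : A) : F :=
  UU φ ι t u ((SemidirectProduct.inr s : E ⋊[φ] A)⁻¹ * x * SemidirectProduct.inr s)

/-- the function induced from `t ⊗ u` on `E ⋊ G` -/
def hF (φ : A →* MulAut E) (ι : G →* A) (t : E →* F) (u : G → F) (x : E ⋊[φ] A) : F :=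
  ∑ q : A ⧸ ι.range, tm φ ι t u x q.out

theorem tm_eq (u : G → F) (x y : E ⋊[φ] A) (s : A)
    (h : StF φ ι t) (hu : IsClassFun u) (hy : y.right = s) :
    tm φ ι t u x s = UU φ ι t u (y⁻¹ * x * y) := by
  unfold tm
  have h1 : (SemidirectProduct.inr s : E ⋊[φ] A) = y * ⟨φ s⁻¹ y.left⁻¹, ι 1⟩ := by
    ext
    · rw [SemidirectProduct.mul_left, hy, phi_inv]
      simp
    · rw [SemidirectProduct.mul_right, hy]
      simp
  have h2 : (SemidirectProduct.inr s : E ⋊[φ] A)⁻¹ * x * SemidirectProduct.inr s =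
      (⟨φ s⁻¹ y.left⁻¹, ι 1⟩ : E ⋊[φ] A)⁻¹ * (y⁻¹ * x * y) * ⟨φ s⁻¹ y.left⁻¹, ι 1⟩ := by
    rw [h1]
    group
  have h3 := UU_conj (ι := ι) h hu ((⟨φ s⁻¹ y.left⁻¹, ι 1⟩ : E ⋊[φ] A)⁻¹ * (y⁻¹ * x * y) *
    ⟨φ s⁻¹ y.left⁻¹, ι 1⟩) (φ s⁻¹ y.left⁻¹) 1
  rw [h2, ← h3]
  congr 1
  group

theorem tm_mul (h : StF φ ι t) {u : G → F} (hu : IsClassFun u) (x : E ⋊[φ] A) (s : A) (k : G) :
    tm φ ι t u x (s * ι k) = tm φ ι t u x s := by
  rw [tm_eq u x ((SemidirectProduct.inr s : E ⋊[φ] A) * SemidirectProduct.inr (ι k)) _ h hu (by simp)]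
  unfold tm
  have h3 := UU_conj (ι := ι) h hu ((SemidirectProduct.inr s * SemidirectProduct.inr (ι k) :
    E ⋊[φ] A)⁻¹ * x * (SemidirectProduct.inr s * SemidirectProduct.inr (ι k))) 1 k
  rw [← h3]
  congr 1
  have : (⟨1, ι k⟩ : E ⋊[φ] A) = SemidirectProduct.inr (ι k) := rfl
  rw [this]
  group

theorem tm_conj (h : StF φ ι t) {u : G → F} (hu : IsClassFun u) (x y : E ⋊[φ] A) (s : A) :
    tm φ ι t u (y * x * y⁻¹) (y.right * s) = tm φ ι t u x s := by
  rw [tm_eq u _ (y * SemidirectProduct.inr s) _ h hu (by simp)]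
  unfold tm
  congr 1
  group

theorem tm_out (h : StF φ ι t) {u : G → F} (hu : IsClassFun u) (x : E ⋊[φ] A)
    {q : A ⧸ ι.range} {s : A} (hs : (QuotientGroup.mk s : A ⧸ ι.range) = q) :
    tm φ ι t u x q.out = tm φ ι t u x s := by
  have h1 : (q.out)⁻¹ * s ∈ ι.range := by
    rw [← QuotientGroup.eq, QuotientGroup.out_eq']
    exact hs.symm
  obtain ⟨k, hk⟩ := h1
  have h2 : s = q.out * ι k := by
    rw [hk]
    group
  rw [h2, tm_mul h hu]

theorem hF_class (h : StF φ ι t) {u : G → F} (hu : IsClassFun u) :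
    IsClassFun (hF φ ι t u) := by
  intro y x
  unfold hF
  refine (Fintype.sum_equiv (MulAction.toPerm y.right : Equiv.Perm (A ⧸ ι.range)) _ _
    fun q => ?_).symm
  have h1 : (QuotientGroup.mk (y.right * q.out) : A ⧸ ι.range) =
      (MulAction.toPerm y.right : Equiv.Perm (A ⧸ ι.range)) q := by
    change _ = y.right • q
    conv_rhs => rw [← QuotientGroup.out_eq' q]
    rfl
  rw [tm_out h hu _ h1, tm_conj h hu]

/-- the component above `t⁻¹` -/
def Ps (φ : A →* MulAut E) (ι : G →* A) (t : E →* F) (f : E ⋊[φ] A → F) (g : G) : F :=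
  ∑ m : E, f ⟨m, ι g⟩ * t m

theorem Ps_class (h : StF φ ι t) {f : E ⋊[φ] A → F} (hf : IsClassFun f) :
    IsClassFun (Ps φ ι t f) := by
  intro g x
  unfold Ps
  refine (Fintype.sum_equiv (φ (ι g)).toEquiv _ _ fun m => ?_).symm
  change _ = f ⟨φ (ι g) m, ι (g * x * g⁻¹)⟩ * t (φ (ι g) m)
  have h2 : f ⟨φ (ι g) m, ι (g * x * g⁻¹)⟩ = f ⟨m, ι x⟩ := by
    rw [← hf (SemidirectProduct.inr (ι g)) ⟨m, ι x⟩]
    congr 1
    ext
    · simp
    · simp
  rw [h.fix, h2]

/-- the sum of a class function times `t` over a coset vanishes outside `E ⋊ G` -/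
theorem sum_van (h : StF φ ι t) {f : E ⋊[φ] A → F} (hf : IsClassFun f) {a : A}
    (ha : ∀ g, ι g ≠ a) : ∑ m : E, f ⟨m, a⟩ * t m = 0 := by
  have h1 : ¬ ∀ e, t (φ a e) = t e := fun h' => by
    obtain ⟨g, hg⟩ := (h.stab a).mp h'
    exact ha g hg
  push Not at h1
  obtain ⟨e, he⟩ := h1
  have h2 : ∑ m : E, f ⟨m, a⟩ * t m = t (e⁻¹ * φ a e) * ∑ m : E, f ⟨m, a⟩ * t m := by
    rw [Finset.mul_sum]
    refine Fintype.sum_equiv (Equiv.mulRight (e * φ a e⁻¹)) _ _ fun m => ?_
    simp only [Equiv.coe_mulRight]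
    have h3 : f ⟨m * (e * φ a e⁻¹), a⟩ = f ⟨m, a⟩ := by
      rw [← hf (SemidirectProduct.inl e) ⟨m, a⟩]
      congr 1
      ext
      · rw [SemidirectProduct.mul_left, SemidirectProduct.mul_left, SemidirectProduct.mul_right,
          SemidirectProduct.inv_left]
        simp only [SemidirectProduct.left_inl, SemidirectProduct.right_inl, map_one, inv_one,
          MulAut.one_apply, one_mul]
        rw [← mul_assoc, mul_comm m e]
      · simp
    rw [h3, map_mul t m, map_mul t e, map_mul t e⁻¹]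
    have e1 := t_mul_inv t e
    have e2 := t_mul_inv t (φ a e)
    rw [← map_inv (φ a)] at e2
    linear_combination (-(f ⟨m, a⟩ * t m) * (t (φ a e) * t (φ a e⁻¹))) * e1 -
      f ⟨m, a⟩ * t m * e2
  have h3 : (1 - t (e⁻¹ * φ a e)) * ∑ m : E, f ⟨m, a⟩ * t m = 0 := by
    rw [sub_mul, one_mul, ← h2, sub_self]
  rcases mul_eq_zero.mp h3 with h4 | h4
  · exfalso
    apply he
    rw [sub_eq_zero, map_mul] at h4
    have h5 : t e * 1 = t e * (t e⁻¹ * t (φ a e)) := by rw [← h4]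
    rw [mul_one, ← mul_assoc, t_mul_inv, one_mul] at h5
    exact h5.symm
  · exact h4

end defs

end Pool.Agent.Hp21.UA
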