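import Pool.Agent.Hp21.UA.Hf

/-!
# Induced functions over a field of characteristic `p`: inversion and multiplication
-/

set_option autoImplicit false
set_option linter.unusedSectionVars false
set_option linter.style.haveILetI false

open scoped BigOperators Classical

noncomputable section

namespace Pool.Agent.Hp21.UA

open Pool.Agent.Y63.NV (IsClassFun)
open Pool.Agent.Hp21.UN

section defs

variable {F : Type} [Field F] {E A G : Type} [CommGroup E] [Group A] [Group G]
  {φ : A →* MulAut E} {ι : G →* A} {t : E →* F} [Fintype E] [Fintype A] [Fintype G]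

theorem conj_inr (s : A) (x : E ⋊[φ] A) :
    (SemidirectProduct.inr s : E ⋊[φ] A)⁻¹ * x * SemidirectProduct.inr s =
      ⟨φ s⁻¹ x.left, s⁻¹ * x.right * s⟩ := by
  ext
  · simp
  · simp

theorem tm_sum (u : G → F) (m : E) (a s : A) :
    tm φ ι t u (⟨m, a⟩ : E ⋊[φ] A) s =
      ∑ k : G, if ι k = s⁻¹ * a * s then t (φ s⁻¹ m) * u k else 0 := by
  unfold tm
  rw [conj_inr]
  rfl

/-- inversion -/
theorem Ps_hF (h : StF φ ι t) {u : G → F} (hu : IsClassFun u) (g : G) :
    Ps φ ι (ti t) (hF φ ι t u) g = (Nat.card E : F) * u g := by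
  unfold Ps hF
  simp only [Finset.sum_mul]
  rw [Finset.sum_comm, Finset.sum_eq_single (QuotientGroup.mk 1 : A ⧸ ι.range)]
  · have h1 : ∀ m : E, tm φ ι t u (⟨m, ι g⟩ : E ⋊[φ] A)
        (QuotientGroup.mk 1 : A ⧸ ι.range).out * ti t m = u g := by
      intro m
      rw [tm_out h hu _ (s := 1) rfl, tm_eq u _ (1 : E ⋊[φ] A) 1 h hu rfl]
      simp only [inv_one, one_mul, mul_one]
      rw [UU_in h, ti_apply]
      linear_combination u g * t_mul_inv t m
    rw [Finset.sum_congr rfl fun m _ => h1 m, Finset.sum_const, nsmul_eq_mul, Finset.card_univ,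
      Nat.card_eq_fintype_card]
  · intro q _ hq
    set s := q.out with hs
    have h1 : ¬ ∀ e, t (φ s e) = t e := by
      intro h'
      obtain ⟨k, hk⟩ := (h.stab s).mp h'
      apply hq
      rw [← QuotientGroup.out_eq' q, ← hs, QuotientGroup.eq, mul_one, ← hk]
      exact inv_mem ⟨k, rfl⟩
    have h2 : ∑ m : E, t (φ s⁻¹ m) * ti t m = 0 := by
      have h3 := sum_t ((t.comp (φ s⁻¹).toMonoidHom) * ti t)
      rw [if_neg] at h3
      · exact h3
      · intro h'
        apply h1
        intro e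
        have h4 := h' (φ s e)
        change t (φ s⁻¹ (φ s e)) * ti t (φ s e) = 1 at h4
        rw [phi_inv', ti_apply] at h4
        have h5 := t_mul_inv t (φ s e)
        exact mul_right_cancel₀ (t_ne t (φ s e)⁻¹) (h5.trans h4.symm)
    have h3 : ∀ m : E, tm φ ι t u (⟨m, ι g⟩ : E ⋊[φ] A) s * ti t m =
        (t (φ s⁻¹ m) * ti t m) * ∑ k : G, if ι k = s⁻¹ * ι g * s then u k else 0 := by
      intro m
      rw [tm_sum, Finset.sum_mul, Finset.mul_sum]
      refine Finset.sum_congr rfl fun k _ => ?_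
      split_ifs
      · ring
      · ring
    rw [Finset.sum_congr rfl fun m _ => h3 m, ← Finset.sum_mul, h2, zero_mul]
  · intro h'
    exact absurd (Finset.mem_univ _) h'

/-- sums over the semidirect product -/
theorem sum_sdF (f : E ⋊[φ] A → F) : ∑ y, f y = ∑ b : A, ∑ n : E, f ⟨n, b⟩ := by
  rw [← Fintype.sum_prod_type']
  exact Fintype.sum_equiv (SemidirectProduct.equivProd.trans (Equiv.prodComm _ _)) _ _ fun y => rfl

/-- the action of a central element on `t ⊗ u` -/
theorem conv_UU (h : StF φ ι t) {z : E ⋊[φ] A → F} (hz : IsClassFun z) (u : G → F)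
    (x : E ⋊[φ] A) : ∑ y, z y * UU φ ι t u (y * x) =
      UU φ ι t (fun g => ∑ k, Ps φ ι t z k * u (k * g)) x := by
  rw [sum_sdF]
  obtain ⟨m', a'⟩ := x
  by_cases ha : ∃ g, ι g = a'
  · obtain ⟨g, rfl⟩ := ha
    rw [UU_in h]
    symm
    rw [Finset.mul_sum]
    refine Fintype.sum_of_injective ι h.inj _ _ (fun b hb => ?_) fun k => ?_
    · refine Finset.sum_eq_zero fun n _ => ?_
      rw [UU_out, mul_zero]
      intro k hk
      apply hb
      change ι k = b * ι g at hk
      exact ⟨k * g⁻¹, by rw [map_mul, hk, map_inv, mul_inv_cancel_right]⟩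
    · unfold Ps
      rw [Finset.sum_mul, Finset.mul_sum]
      refine Finset.sum_congr rfl fun n _ => ?_
      have e1 : (⟨n, ι k⟩ : E ⋊[φ] A) * ⟨m', ι g⟩ = ⟨n * φ (ι k) m', ι (k * g)⟩ := by
        ext
        · rfl
        · exact (map_mul ι k g).symm
      rw [e1, UU_in h, map_mul t n, h.fix]
      ring
  · push Not at ha
    rw [UU_out _ ha]
    refine Finset.sum_eq_zero fun b _ => ?_
    by_cases hb : ∃ k, ι k = b * a'
    · obtain ⟨k, hk⟩ := hb
      have hb' : ∀ g, ι g ≠ b := by
        intro g hg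
        apply ha (g⁻¹ * k)
        rw [map_mul, hk, map_inv, hg, inv_mul_cancel_left]
      have h1 := sum_van h hz hb'
      have h2 : ∀ n : E, z ⟨n, b⟩ * UU φ ι t u ((⟨n, b⟩ : E ⋊[φ] A) * ⟨m', a'⟩) =
          z ⟨n, b⟩ * t n * (t (φ b m') * u k) := by
        intro n
        have e1 : (⟨n, b⟩ : E ⋊[φ] A) * ⟨m', a'⟩ = ⟨n * φ b m', ι k⟩ := by
          ext
          · rfl
          · exact hk.symm
        rw [e1, UU_in h, map_mul t n]
        ring
      rw [Finset.sum_congr rfl fun n _ => h2 n, ← Finset.sum_mul, h1, zero_mul]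
    · push Not at hb
      refine Finset.sum_eq_zero fun n _ => ?_
      rw [UU_out _ hb, mul_zero]

/-- the action of a central element on an induced function -/
theorem conv_hF (h : StF φ ι t) {z : E ⋊[φ] A → F} (hz : IsClassFun z) (u : G → F)
    (x : E ⋊[φ] A) : ∑ y, z y * hF φ ι t u (y * x) =
      hF φ ι t (fun g => ∑ k, Ps φ ι t z k * u (k * g)) x := by
  unfold hF
  simp only [Finset.mul_sum]
  rw [Finset.sum_comm]
  refine Finset.sum_congr rfl fun q _ => ?_
  unfold tm
  rw [← conv_UU h hz]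
  set s : E ⋊[φ] A := SemidirectProduct.inr q.out with hs
  refine Fintype.sum_equiv (MulAut.conj s⁻¹).toEquiv _ _ fun y => ?_
  have e1 : (MulAut.conj s⁻¹).toEquiv y = s⁻¹ * y * s⁻¹⁻¹ := rfl
  rw [e1, hz]
  congr 2
  group

/-- the indicator function of the identity -/
def dlt (F : Type) [Field F] (G : Type) [Group G] (g : G) : F := if g = 1 then 1 else 0

theorem dlt_class : IsClassFun (dlt F G) := by
  intro g x
  unfold dlt
  have : g * x * g⁻¹ = 1 ↔ x = 1 := by
    constructor
    · intro h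
      have h2 : x = g⁻¹ * (g * x * g⁻¹) * g := by group
      rw [h2, h]
      group
    · rintro rfl
      group
  simp only [this]

/-- the projection to the component above `t` -/
theorem proj (h : StF φ ι t) {f : E ⋊[φ] A → F} (hf : IsClassFun f) (x : E ⋊[φ] A) :
    ∑ y, hF φ ι (ti t) (dlt F G) y * f (y * x) = hF φ ι t (Ps φ ι (ti t) f) x := by
  have key : ∀ x' : E ⋊[φ] A, ∑ y, UU φ ι (ti t) (dlt F G) y * f (y * x') =
      UU φ ι t (Ps φ ι (ti t) f) x' := by
    intro x'
    obtain ⟨m', a'⟩ := x'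
    rw [sum_sdF, Finset.sum_eq_single (1 : A)]
    · have h1 : ∀ n : E, UU φ ι (ti t) (dlt F G) (⟨n, 1⟩ : E ⋊[φ] A) = t n⁻¹ := by
        intro n
        have := UU_in h.inv (dlt F G) n 1
        rw [map_one] at this
        rw [this]
        simp [dlt, ti_apply]
      have h2 : ∑ n : E, UU φ ι (ti t) (dlt F G) (⟨n, 1⟩ : E ⋊[φ] A) *
          f ((⟨n, 1⟩ : E ⋊[φ] A) * ⟨m', a'⟩) = t m' * ∑ n : E, f ⟨n, a'⟩ * ti t n := by
        rw [Finset.mul_sum]
        refine Fintype.sum_equiv (Equiv.mulRight m') _ _ fun n => ?_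
        have e1 : (⟨n, 1⟩ : E ⋊[φ] A) * ⟨m', a'⟩ = ⟨n * m', a'⟩ := by
          ext
          · simp
          · simp
        simp only [Equiv.coe_mulRight]
        rw [h1, e1, ti_apply, mul_inv, map_mul t n⁻¹]
        linear_combination (-(t n⁻¹ * f ⟨n * m', a'⟩)) * t_mul_inv t m'
      rw [h2]
      by_cases ha : ∃ g, ι g = a'
      · obtain ⟨g, rfl⟩ := ha
        rw [UU_in h]
        rfl
      · push Not at ha
        rw [UU_out _ ha, sum_van h.inv hf ha, mul_zero]
    · intro b _ hb
      refine Finset.sum_eq_zero fun n _ => ?_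
      have : UU φ ι (ti t) (dlt F G) (⟨n, b⟩ : E ⋊[φ] A) = 0 := by
        unfold UU
        refine Finset.sum_eq_zero fun k _ => ?_
        split_ifs with hk
        · have hk1 : k ≠ 1 := by
            rintro rfl
            rw [map_one] at hk
            exact hb hk.symm
          simp [dlt, hk1]
        · rfl
      rw [this, zero_mul]
    · intro h'
      exact absurd (Finset.mem_univ _) h'
  unfold hF
  simp only [Finset.sum_mul]
  rw [Finset.sum_comm]
  refine Finset.sum_congr rfl fun q _ => ?_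
  unfold tm
  rw [← key]
  set s : E ⋊[φ] A := SemidirectProduct.inr q.out with hs
  refine Fintype.sum_equiv (MulAut.conj s⁻¹).toEquiv _ _ fun y => ?_
  have e1 : (MulAut.conj s⁻¹).toEquiv y = s⁻¹ * y * s⁻¹⁻¹ := rfl
  rw [e1, inv_inv]
  congr 1
  rw [← hf s (s⁻¹ * y * s * (s⁻¹ * x * s))]
  congr 1
  group

end defs

end Pool.Agent.Hp21.UA
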