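import Pool.Agent.Hp21.UA.Pp

/-!
# The number of irreducible characters of a block of `E ⋊ A`
-/

set_option autoImplicit false
set_option linter.unusedSectionVars false
set_option linter.style.haveILetI false

open scoped BigOperators Classical

noncomputable section

namespace Pool.Agent.Hp21.UA

open Pool.Agent.Y63.NV (IsClassFun pp IsBlock IsIrrTrace numIrrBlock)
open Pool.Agent.Y77.NV (pp_pp pp_reg reg_pp)
open Pool.Agent.N85.WM (BEq blkOf blkOf_block blkOf_spec blkOf_iff numIrrBlock_eq)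
open Pool.Agent.Hp21.UN

section rb

variable {p : ℕ} [hp : Fact p.Prime] {F : Type} [Field F] {G : Type} [Group G] [Fintype G]

/-- the component of the block `B` of the space of the class functions on the `p`-regular
elements -/
def RB (p : ℕ) (B : (G → F) → F) : Submodule F (G → F) where
  carrier := {f | IsClassFun f ∧ (∀ x, f (pp p x) = f x) ∧
    ∀ z, IsClassFun z → ∀ x, ∑ y, z y * f (y * x) = B z * f x}
  zero_mem' := ⟨fun _ _ => rfl, fun _ => rfl, fun z _ x => by simp⟩
  add_mem' := by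
    rintro a b ⟨h1, h2, h3⟩ ⟨h4, h5, h6⟩
    refine ⟨fun g x => by rw [Pi.add_apply, Pi.add_apply, h1, h4],
      fun x => by rw [Pi.add_apply, Pi.add_apply, h2, h5], fun z hz x => ?_⟩
    simp only [Pi.add_apply, mul_add, Finset.sum_add_distrib]
    rw [h3 z hz, h6 z hz]
  smul_mem' := by
    rintro c a ⟨h1, h2, h3⟩
    refine ⟨fun g x => by rw [Pi.smul_apply, Pi.smul_apply, h1],
      fun x => by rw [Pi.smul_apply, Pi.smul_apply, h2], fun z hz x => ?_⟩
    simp only [Pi.smul_apply, smul_eq_mul]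
    rw [show B z * (c * a x) = c * (B z * a x) by ring, ← h3 z hz, Finset.mul_sum]
    exact Finset.sum_congr rfl fun y _ => by ring

theorem numIrr_eq [IsAlgClosed F] [CharP F p] (B : (G → F) → F) :
    numIrrBlock B = Module.finrank F (RB p B) := by
  have hirr := Pool.Agent.Y914.NV.irr F G
  have hfin : Finite {φ : G → F // IsIrrTrace φ} := hirr.1.to_subtype
  have := Fintype.ofFinite {φ : G → F // IsIrrTrace φ}
  have hlin := hirr.2
  rw [numIrrBlock_eq]
  set J := {φ : {φ : G → F // IsIrrTrace φ} // BEq (blkOf φ) B} with hJ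
  have : Fintype J := Fintype.ofFinite J
  have hJlin : LinearIndependent F (fun φ : J => φ.1.1) :=
    hlin.comp (fun φ : J => φ.1) Subtype.val_injective
  have hspan : RB p B = Submodule.span F (Set.range fun φ : J => φ.1.1) := by
    apply le_antisymm
    · rintro f ⟨h1, h2, h3⟩
      have h4 : f ∈ Submodule.span F (Set.range fun φ : {φ : G → F // IsIrrTrace φ} => φ.1) := by
        rw [Subtype.range_coe_subtype]
        exact Pool.Agent.N85.WM.Lt.span' p F G f h1 h2
      obtain ⟨c, hc⟩ := (Submodule.mem_span_range_iff_exists_fun F).mp h4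
      have h5 : ∀ φ : {φ : G → F // IsIrrTrace φ}, ¬ BEq (blkOf φ) B → c φ = 0 := by
        intro φ hφ
        unfold Pool.Agent.N85.WM.BEq at hφ
        push Not at hφ
        obtain ⟨z, hz, hne⟩ := hφ
        have h6 : ∑ ψ : {φ : G → F // IsIrrTrace φ}, (c ψ * (blkOf ψ z - B z)) • ψ.1 = 0 := by
          funext x
          have h7 := h3 z hz x
          rw [← hc] at h7
          simp only [Finset.sum_apply, Pi.smul_apply, smul_eq_mul, Pi.zero_apply] at h7 ⊢
          have h8 : ∑ y, z y * ∑ ψ : {φ : G → F // IsIrrTrace φ}, c ψ * ψ.1 (y * x) =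
              ∑ ψ : {φ : G → F // IsIrrTrace φ}, c ψ * (blkOf ψ z * ψ.1 x) := by
            simp only [Finset.mul_sum]
            rw [Finset.sum_comm]
            refine Finset.sum_congr rfl fun ψ _ => ?_
            rw [← blkOf_spec ψ hz x, finsum_eq_sum_of_fintype, Finset.mul_sum]
            exact Finset.sum_congr rfl fun y _ => by ring
          rw [h8, Finset.mul_sum] at h7
          rw [← sub_eq_zero, ← Finset.sum_sub_distrib] at h7
          rw [← h7]
          exact Finset.sum_congr rfl fun ψ _ => by ring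
        have h9 := Fintype.linearIndependent_iff.mp hlin _ h6 φ
        rcases mul_eq_zero.mp h9 with h10 | h10
        · exact h10
        · exact absurd (sub_eq_zero.mp h10) hne
      rw [← hc]
      refine Submodule.sum_mem _ fun φ _ => ?_
      by_cases hφ : BEq (blkOf φ) B
      · exact Submodule.smul_mem _ _ (Submodule.subset_span ⟨⟨φ, hφ⟩, rfl⟩)
      · rw [h5 φ hφ, zero_smul]
        exact zero_mem _
    · rw [Submodule.span_le]
      rintro _ ⟨φ, rfl⟩
      refine ⟨Pool.Agent.N85.WM.Lt.irr_class φ.1.2,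
        fun x => Pool.Agent.Y705.NV.ppt p F G φ.1.1 φ.1.2 x, fun z hz x => ?_⟩
      rw [← φ.2 z hz, ← blkOf_spec φ.1 hz x, finsum_eq_sum_of_fintype]
  rw [hspan, finrank_span_eq_card hJlin, Nat.card_eq_fintype_card]

end rb

section hf

variable {p : ℕ} [hp : Fact p.Prime] {F : Type} [Field F] [IsAlgClosed F] [CharP F p]
  {E A G : Type} [CommGroup E] [Group A] [Group G]
  {φ : A →* MulAut E} {ι : G →* A} {t : E →* F} [Fintype E] [Fintype A] [Fintype G]

theorem hF_add (u v : G → F) (x : E ⋊[φ] A) :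
    hF φ ι t (u + v) x = hF φ ι t u x + hF φ ι t v x := by
  unfold hF
  rw [← Finset.sum_add_distrib]
  refine Finset.sum_congr rfl fun q _ => ?_
  unfold tm UU
  rw [← Finset.sum_add_distrib]
  refine Finset.sum_congr rfl fun g _ => ?_
  split_ifs
  · rw [Pi.add_apply, mul_add]
  · rw [add_zero]

theorem hF_smul (c : F) (u : G → F) (x : E ⋊[φ] A) :
    hF φ ι t (fun g => c * u g) x = c * hF φ ι t u x := by
  unfold hF
  rw [Finset.mul_sum]
  refine Finset.sum_congr rfl fun q _ => ?_
  unfold tm UU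
  rw [Finset.mul_sum]
  refine Finset.sum_congr rfl fun g _ => ?_
  split_ifs
  · ring
  · rw [mul_zero]

theorem Ps_smul (c : F) (f : E ⋊[φ] A → F) (g : G) :
    Ps φ ι t (fun x => c * f x) g = c * Ps φ ι t f g := by
  unfold Ps
  rw [Finset.mul_sum]
  exact Finset.sum_congr rfl fun m _ => by ring

theorem Ps_add (f f' : E ⋊[φ] A → F) (g : G) :
    Ps φ ι t (f + f') g = Ps φ ι t f g + Ps φ ι t f' g := by
  unfold Ps
  rw [← Finset.sum_add_distrib]
  exact Finset.sum_congr rfl fun m _ => by rw [Pi.add_apply]; ring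

theorem conv_class {z f : G → F} (hz : IsClassFun z) (hf : IsClassFun f) :
    IsClassFun fun g => ∑ y, z y * f (y * g) := by
  intro c x
  refine (Fintype.sum_equiv (MulAut.conj c).toEquiv _ _ fun y => ?_).symm
  have e1 : (MulAut.conj c).toEquiv y = c * y * c⁻¹ := rfl
  rw [e1, hz, ← hf c (y * x)]
  congr 2
  group

/-- the block of `E ⋊ A` above the block `B` -/
def BH (φ : A →* MulAut E) (ι : G →* A) (t : E →* F) (B : (G → F) → F)
    (f : E ⋊[φ] A → F) : F := B (Ps φ ι t f)

theorem card_ne (hpE : ¬ p ∣ Nat.card E) : (Nat.card E : F) ≠ 0 := by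
  rw [Ne, CharP.cast_eq_zero_iff F p]
  exact hpE

/-- surjectivity on the centres -/
theorem Ps_surj (hpE : ¬ p ∣ Nat.card E) (h : StF φ ι t) {z : G → F} (hz : IsClassFun z) :
    ∃ z' : E ⋊[φ] A → F, IsClassFun z' ∧ Ps φ ι t z' = z := by
  refine ⟨fun x => (Nat.card E : F)⁻¹ * hF φ ι (ti t) z x, fun g x => ?_, ?_⟩
  · simp only [hF_class h.inv hz g x]
  · funext g
    rw [Ps_smul]
    have h1 := Ps_hF h.inv hz g
    rw [ti_ti] at h1
    rw [h1, ← mul_assoc, inv_mul_cancel₀ (card_ne hpE), one_mul]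

variable {B : (G → F) → F}

theorem B_scalar (hB : IsBlock B) (c : F) : B (fun g => c * dlt F G g) = c := by
  have h1 := hB.smul c (dlt F G) dlt_class
  have h2 : dlt F G = Pi.single 1 1 := by
    funext g
    unfold dlt
    rw [Pi.single_apply]
  have h3 : B (dlt F G) = 1 := by
    rw [h2]
    exact hB.one
  rw [h3, mul_one] at h1
  exact h1

theorem hF_RB (h : StF φ ι t) {u : G → F} (hu : u ∈ RB p B) :
    hF φ ι t u ∈ RB p (BH φ ι t B) := by
  obtain ⟨h1, h2, h3⟩ := hu
  refine ⟨hF_class h h1, PU_iff.mp (hF_pu h h1 (PU_iff.mpr h2)), fun z hz x => ?_⟩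
  rw [conv_hF h hz]
  have h4 : (fun g => ∑ k, Ps φ ι t z k * u (k * g)) = fun g => BH φ ι t B z * u g := by
    funext g
    exact h3 _ (Ps_class h hz) g
  rw [h4, hF_smul]

theorem hF_Ps (h : StF φ ι t) (hB : IsBlock B) {f : E ⋊[φ] A → F}
    (hf : f ∈ RB p (BH φ ι t B)) (x : E ⋊[φ] A) :
    hF φ ι t (Ps φ ι (ti t) f) x = (Nat.card E : F) * f x := by
  obtain ⟨h1, h2, h3⟩ := hf
  rw [← proj h h1, h3 _ (hF_class h.inv dlt_class)]
  congr 1
  unfold BH
  have h4 : Ps φ ι t (hF φ ι (ti t) (dlt F G)) = fun g => (Nat.card E : F) * dlt F G g := by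
    funext g
    have h5 := Ps_hF h.inv (dlt_class (F := F) (G := G)) g
    rwa [ti_ti] at h5
  rw [h4, B_scalar hB]

theorem Ps_RB (hpE : ¬ p ∣ Nat.card E) (h : StF φ ι t) (hB : IsBlock B) {f : E ⋊[φ] A → F}
    (hf : f ∈ RB p (BH φ ι t B)) : Ps φ ι (ti t) f ∈ RB p B := by
  have hf' := hf
  obtain ⟨h1, h2, h3⟩ := hf'
  have hcl := Ps_class h.inv h1
  refine ⟨hcl, PU_iff.mp (Ps_pu hpE h.inv h1 (PU_iff.mpr h2)), fun z hz g => ?_⟩
  obtain ⟨z', hz', hz''⟩ := Ps_surj (p := p) hpE h hz
  have h4 : ∀ x, hF φ ι t (fun g => ∑ k, z k * Ps φ ι (ti t) f (k * g)) x =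
      hF φ ι t (fun g => B z * Ps φ ι (ti t) f g) x := by
    intro x
    rw [hF_smul, hF_Ps h hB hf]
    have h5 := conv_hF h hz' (Ps φ ι (ti t) f) x
    rw [hz''] at h5
    rw [← h5]
    have h6 : ∀ y, z' y * hF φ ι t (Ps φ ι (ti t) f) (y * x) =
        (Nat.card E : F) * (z' y * f (y * x)) := by
      intro y
      rw [hF_Ps h hB hf]
      ring
    rw [Finset.sum_congr rfl fun y _ => h6 y, ← Finset.mul_sum, h3 z' hz']
    unfold BH
    rw [hz'']
    ring
  have c1 : IsClassFun (fun g => ∑ k, z k * Ps φ ι (ti t) f (k * g)) := conv_class hz hcl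
  have c2 : IsClassFun (fun g => B z * Ps φ ι (ti t) f g) := fun a x => by
    simp only [hcl a x]
  have h5 := Ps_hF h c1 g
  have h6 := Ps_hF h c2 g
  rw [funext h4, h6] at h5
  exact (mul_left_cancel₀ (card_ne hpE) h5).symm

/-- **The numbers of the irreducible characters.** -/
theorem numIrr_BH (hpE : ¬ p ∣ Nat.card E) (h : StF φ ι t) (hB : IsBlock B) :
    numIrrBlock (BH φ ι t B) = numIrrBlock B := by
  rw [numIrr_eq (p := p), numIrr_eq (p := p)]
  let f1 : RB p B →ₗ[F] RB p (BH φ ι t B) :=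
    { toFun := fun u => ⟨hF φ ι t u, hF_RB h u.2⟩
      map_add' := fun u v => Subtype.ext (funext fun x => hF_add _ _ x)
      map_smul' := fun c u => Subtype.ext (funext fun x => hF_smul c _ x) }
  let f2 : RB p (BH φ ι t B) →ₗ[F] RB p B :=
    { toFun := fun f => (Nat.card E : F)⁻¹ • ⟨Ps φ ι (ti t) f, Ps_RB hpE h hB f.2⟩
      map_add' := fun u v => by
        rw [← smul_add]
        congr 1
        exact Subtype.ext (funext fun x => Ps_add _ _ x)
      map_smul' := fun c u => by
        rw [RingHom.id_apply, smul_comm c]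
        congr 1
        exact Subtype.ext (funext fun x => Ps_smul c _ x) }
  have hc := card_ne (F := F) hpE
  refine (LinearEquiv.ofLinear f1 f2 ?_ ?_).finrank_eq.symm
  · refine LinearMap.ext fun f => Subtype.ext (funext fun x => ?_)
    change hF φ ι t (fun g => (Nat.card E : F)⁻¹ * Ps φ ι (ti t) (f : E ⋊[φ] A → F) g) x =
      (f : E ⋊[φ] A → F) x
    rw [hF_smul, hF_Ps h hB f.2, ← mul_assoc, inv_mul_cancel₀ hc, one_mul]
  · refine LinearMap.ext fun u => Subtype.ext (funext fun g => ?_)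
    change (Nat.card E : F)⁻¹ * Ps φ ι (ti t) (hF φ ι t (u : G → F)) g = (u : G → F) g
    rw [Ps_hF h u.2.1, ← mul_assoc, inv_mul_cancel₀ hc, one_mul]

end hf

end Pool.Agent.Hp21.UA
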