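import Pool.Agent.Hp21.UA.Wprod2
import Pool.Agent.Hp21.UA.Chp
import Pool.Agent.Q90.WR.Bcj
import Pool.Agent.Y171.NV.Kfin

/-!
# The sums of Knörr and Robinson for products of blocks
-/

set_option autoImplicit false
set_option linter.unusedSectionVars false
set_option linter.unusedVariables false

open scoped BigOperators Classical

noncomputable section

namespace Pool.Agent.Hp21.UA

open Pool.Agent.Y63.NV
open Pool.Agent.Y63.KR
open Pool.Agent.Y63.AWC (IsIrreducibleCharacter pSubgroupSetoid)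
open Pool.Agent.Q90.WR (Ch card_mul_alternatingSum')
open Pool.Agent.Q90.WR (box box_irr box_cover box_inj)
open Pool.Agent.Y171.NV (numIrrInd_conj)

section

variable {p : ℕ} {F : Type} [Field F] (red : integralClosure ℤ ℂ →+* F)
  {G H : Type} [Group G] [Group H] [Fintype G] [Fintype H]

/-- the sum of Knörr and Robinson -/
def KR (p : ℕ) {F : Type} [Field F] (red : integralClosure ℤ ℂ →+* F) {G : Type} [Group G]
    (B : (G → F) → F) : ℤ :=
  alternatingSum p G (fun S => (numIrrInd red S B : ℤ))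

theorem card_KR (B : (G → F) → F) : (Nat.card G : ℤ) * KR p red B =
    ∑ σ : Ch p G, (-1) ^ σ.1.ncard * ((Nat.card (chainStabilizer σ.1) : ℤ) *
      (numIrrInd red (chainStabilizer σ.1) B : ℤ)) :=
  card_mul_alternatingSum' (p := p) (fun S : Subgroup G => (numIrrInd red S B : ℤ))
    fun g S => by
      have := numIrrInd_conj red B g S
      exact congrArg (Nat.cast (R := ℤ)) this

/-- the part of a product of characters -/
theorem cv_pair {b₁ : (G → F) → F} {b₂ : (H → F) → F} (h1 : IsBlock b₁) (h2 : IsBlock b₂)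
    {S₁ : Subgroup G} {S₂ : Subgroup H} [Fintype S₁] [Fintype S₂] {χ : S₁ → ℂ} {ψ : S₂ → ℂ}
    (i1 : IsIrreducibleCharacter χ) (i2 : IsIrreducibleCharacter ψ) :
    (∀ f : G × H → F, IsClassFun f →
      centralValue red (box χ ψ) (fun x : S₁ × S₂ => f ((x.1 : G), (x.2 : H))) = bx b₁ b₂ f) ↔
    (∀ f : G → F, IsClassFun f → centralValue red χ (fun x => f x) = b₁ f) ∧
      ∀ f : H → F, IsClassFun f → centralValue red ψ (fun x => f x) = b₂ f := by
  have hcl : ∀ f : G × H → F, IsClassFun f →
      IsClassFun (fun x : S₁ × S₂ => f ((x.1 : G), (x.2 : H))) := fun f hf y x =>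
    hf ((y.1 : G), (y.2 : H)) ((x.1 : G), (x.2 : H))
  constructor
  · intro h
    refine ⟨fun f hf => ?_, fun f hf => ?_⟩
    · have hc : IsClassFun fun w : G × H => f w.1 * dlt F H w.2 := by
        rintro ⟨c, d⟩ ⟨a, b⟩
        change f (c * a * c⁻¹) * dlt F H (d * b * d⁻¹) = f a * dlt F H b
        rw [hf, dlt_class]
      have h5 := h _ hc
      rw [cv_box red i1 i2 (hcl _ hc)] at h5
      have h6 : (fun g : S₁ => centralValue red ψ (fun h : S₂ =>
          (fun w : G × H => f w.1 * dlt F H w.2) ((g : G), (h : H)))) = fun g : S₁ => f g := by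
        funext g
        have h7 : (fun h : S₂ => (fun w : G × H => f w.1 * dlt F H w.2) ((g : G), (h : H))) =
            fun h : S₂ => f g * dlt F S₂ h := by
          funext h
          change f g * dlt F H h = _
          rw [dlt_coe]
        rw [h7, cv_const red i2, cv_dlt red i2, mul_one]
      rw [h6] at h5
      refine h5.trans ?_
      unfold bx
      congr 1
      funext g
      have h8 := h2.smul (f g) (dlt F H) dlt_class
      rw [B_dlt h2, mul_one] at h8
      exact h8
    · have hc : IsClassFun fun w : G × H => dlt F G w.1 * f w.2 := by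
        rintro ⟨c, d⟩ ⟨a, b⟩
        change dlt F G (c * a * c⁻¹) * f (d * b * d⁻¹) = dlt F G a * f b
        rw [hf, dlt_class]
      have h5 := h _ hc
      rw [cv_box red i1 i2 (hcl _ hc)] at h5
      have h6 : (fun g : S₁ => centralValue red ψ (fun h : S₂ =>
          (fun w : G × H => dlt F G w.1 * f w.2) ((g : G), (h : H)))) =
          fun g : S₁ => centralValue red ψ (fun h : S₂ => f h) * dlt F S₁ g := by
        funext g
        have h7 : (fun h : S₂ => (fun w : G × H => dlt F G w.1 * f w.2) ((g : G), (h : H))) =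
            fun h : S₂ => dlt F G (g : G) * f h := rfl
        rw [h7, cv_const red i2, mul_comm, dlt_coe]
      rw [h6, cv_const red i1, cv_dlt red i1, mul_one] at h5
      refine h5.trans ?_
      unfold bx
      have h8 : (fun g : G => b₂ fun h => dlt F G g * f h) = b₂ f • dlt F G := by
        funext g
        have := h2.smul (dlt F G g) f hf
        rw [Pi.smul_apply, smul_eq_mul, mul_comm]
        exact this
      have h9 := h1.smul (b₂ f) (dlt F G) dlt_class
      rw [B_dlt h1, mul_one] at h9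
      exact (congrArg b₁ h8).trans h9
  · rintro ⟨e1, e2⟩ f hf
    rw [cv_box red i1 i2 (hcl f hf)]
    unfold bx
    rw [← e1 _ (part_cl hf b₂)]
    congr 1
    funext g
    exact e2 _ (sect2 hf (g : G))

/-- the characters of the subgroup `S₁ × S₂` over a product of blocks -/
theorem ni_prod {b₁ : (G → F) → F} {b₂ : (H → F) → F} (h1 : IsBlock b₁) (h2 : IsBlock b₂)
    (S₁ : Subgroup G) (S₂ : Subgroup H) :
    numIrrInd red (S₁.prod S₂) (bx b₁ b₂) = numIrrInd red S₁ b₁ * numIrrInd red S₂ b₂ := by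
  have i1 : Fintype S₁ := Fintype.ofFinite _
  have i2 : Fintype S₂ := Fintype.ofFinite _
  let e : S₁ × S₂ ≃* S₁.prod S₂ := (Subgroup.prodEquiv S₁ S₂).symm
  have he : ∀ x : S₁ × S₂, ((e x : S₁.prod S₂) : G × H) = ((x.1 : G), (x.2 : H)) := fun x => rfl
  have hval : ∀ χ : S₁.prod S₂ → ℂ, IsIrreducibleCharacter χ → ∀ f : G × H → F, IsClassFun f →
      centralValue red (fun x => χ (e x)) (fun x : S₁ × S₂ => f ((x.1 : G), (x.2 : H))) =
        centralValue red χ (fun x => f x) := by
    intro χ hχ f hf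
    exact Pool.Agent.Y624.NV.centralValue_comp red e hχ (f := fun x => f x)
      (fun a x => hf a x)
  unfold numIrrInd
  rw [← Nat.card_prod]
  symm
  refine Nat.card_congr (Equiv.ofBijective (fun t => ⟨fun x => box t.1.1 t.2.1 (e.symm x), ?_, ?_⟩)
    ⟨?_, ?_⟩)
  · exact Pool.Agent.Y624.NV.irr_comp e.symm (box_irr' t.1.2.1 t.2.2.1)
  · intro f hf
    rw [← hval _ (Pool.Agent.Y624.NV.irr_comp e.symm (box_irr' t.1.2.1 t.2.2.1)) f hf]
    simp only [MulEquiv.symm_apply_apply]
    exact (cv_pair red h1 h2 t.1.2.1 t.2.2.1).mpr ⟨t.1.2.2, t.2.2.2⟩ f hf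
  · intro t t' h
    have h3 := congrArg Subtype.val h
    have h4 : box t.1.1 t.2.1 = box t'.1.1 t'.2.1 := by
      funext x
      have := congrFun h3 (e x)
      simpa using this
    obtain ⟨h5, h6⟩ := box_inj (θ₁ := t.1.1) (θ₂ := t.2.1) (ψ₁ := t'.1.1) (ψ₂ := t'.2.1)
      t.1.2.1 t.2.2.1 t'.1.2.1 t'.2.2.1 h4
    exact Prod.ext (Subtype.ext h5) (Subtype.ext h6)
  · rintro ⟨χ, hχ, hc⟩
    obtain ⟨θ, ψ, j1, j2, j3⟩ := box_cover (χ := fun x => χ (e x))
      (Pool.Agent.Y624.NV.irr_comp e hχ)
    have hθ : IsIrreducibleCharacter θ := j1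
    have hψ : IsIrreducibleCharacter ψ := j2
    have h3 := (cv_pair red h1 h2 hθ hψ).mp fun f hf => by
      rw [← j3, hval χ hχ f hf]
      exact hc f hf
    refine ⟨⟨⟨θ, hθ, h3.1⟩, ⟨ψ, hψ, h3.2⟩⟩, Subtype.ext ?_⟩
    funext x
    change box θ ψ (e.symm x) = χ x
    rw [← j3]
    simp only [MulEquiv.apply_symm_apply]

/-- **the sum of Knörr and Robinson is multiplicative** -/
theorem KR_bx {b₁ : (G → F) → F} {b₂ : (H → F) → F} (h1 : IsBlock b₁) (h2 : IsBlock b₂) :
    KR p red (bx b₁ b₂) = KR p red b₁ * KR p red b₂ := by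
  have e0 := card_KR (p := p) red (bx b₁ b₂)
  have e1 := card_KR (p := p) red b₁
  have e2 := card_KR (p := p) red b₂
  have h3 := functional_prod (p := p) (G := G) (H := H)
    (fun S => (Nat.card S : ℤ) * (numIrrInd red S (bx b₁ b₂) : ℤ))
  have h4 : (Nat.card (G × H) : ℤ) * KR p red (bx b₁ b₂) =
      (Nat.card (G × H) : ℤ) * (KR p red b₁ * KR p red b₂) := by
    rw [e0, h3, Nat.card_prod, Nat.cast_mul, mul_mul_mul_comm, e1, e2, Finset.sum_mul_sum]
    refine Finset.sum_congr rfl fun σ _ => Finset.sum_congr rfl fun τ _ => ?_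
    rw [ni_prod red h1 h2, Nat.card_congr (Subgroup.prodEquiv _ _).toEquiv, Nat.card_prod]
    push_cast
    ring
  exact mul_left_cancel₀ (by exact_mod_cast (Nat.card_pos (α := G × H)).ne') h4

end

end Pool.Agent.Hp21.UA
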