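import Pool.Agent.Hp21.UA.Prod

/-!
# `l(b₁ ⊠ b₂) = l(b₁) l(b₂)`
-/

set_option autoImplicit false
set_option linter.unusedSectionVars false
set_option linter.unusedVariables false
set_option linter.style.haveILetI false

open scoped BigOperators Classical

noncomputable section

namespace Pool.Agent.Hp21.UA

open Pool.Agent.Y63.NV (IsClassFun centralValue redC IsWt numWtBlock IsBlock numIrrBlock conv pp)
open Pool.Agent.Y63.AWC (IsIrreducibleCharacter pSubgroupSetoid)
open Pool.Agent.Y930.NV
open Pool.Agent.Y77.NV (pp_pp pp_reg reg_pp)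
open Pool.Agent.N85.WM (PEl pel_iff pel_pp pp_mul)
open Pool.Agent.Hp21.UN Pool.Agent.Hp21.AW

theorem finrank_box {F X Y : Type} [Field F] [Fintype X] [Fintype Y] (U : Submodule F (X → F))
    (V : Submodule F (Y → F)) (W : Submodule F (X × Y → F))
    (hW : ∀ f : X × Y → F, f ∈ W ↔ (∀ y, (fun x => f (x, y)) ∈ U) ∧ ∀ x, (fun y => f (x, y)) ∈ V) :
    Module.finrank F W = Module.finrank F U * Module.finrank F V := by
  let b : Module.Basis (Fin (Module.finrank F V)) F V := Module.finBasis F V
  have hext : ∀ i, ∃ g : (Y → F) →ₗ[F] F, g ∘ₗ V.subtype = b.coord i := fun i =>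
    LinearMap.exists_extend (b.coord i)
  choose L hL using hext
  have hL' : ∀ i (v : V), L i (v : Y → F) = b.coord i v := fun i v =>
    congrArg (fun f : V →ₗ[F] F => f v) (hL i)
  have hmem : ∀ (f : W) (i), (fun x => L i (fun y => (f : X × Y → F) (x, y))) ∈ U := by
    intro f i
    have h1 : (fun x => L i (fun y => (f : X × Y → F) (x, y))) =
        ∑ y : Y, L i (Pi.single y 1) • fun x => (f : X × Y → F) (x, y) := by
      funext x
      rw [Finset.sum_apply]
      have h2 : (fun y => (f : X × Y → F) (x, y)) =
          ∑ y : Y, (f : X × Y → F) (x, y) • (Pi.single y 1 : Y → F) := by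
        funext z
        rw [Finset.sum_apply, Finset.sum_eq_single z]
        · simp
        · intro y _ hy
          simp [Pi.single_eq_of_ne hy.symm]
        · intro h
          exact absurd (Finset.mem_univ _) h
      rw [h2, map_sum]
      refine Finset.sum_congr rfl fun y _ => ?_
      rw [map_smul, Pi.smul_apply, smul_eq_mul, smul_eq_mul, mul_comm]
    rw [h1]
    exact Submodule.sum_mem _ fun y _ => Submodule.smul_mem _ _ (((hW f).mp f.2).1 y)
  let e : W ≃ₗ[F] (Fin (Module.finrank F V) → U) :=
    { toFun := fun f i => ⟨fun x => L i (fun y => (f : X × Y → F) (x, y)), hmem f i⟩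
      map_add' := by
        intro f g
        funext i
        apply Subtype.ext
        funext x
        exact map_add (L i) (fun y => (f : X × Y → F) (x, y)) (fun y => (g : X × Y → F) (x, y))
      map_smul' := by
        intro c f
        funext i
        apply Subtype.ext
        funext x
        exact map_smul (L i) c (fun y => (f : X × Y → F) (x, y))
      invFun := fun u => ⟨fun z => ∑ i, (u i : X → F) z.1 * (b i : Y → F) z.2, by
        rw [hW]
        constructor
        · intro y
          have : (fun x => ∑ i, (u i : X → F) x * (b i : Y → F) y) =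
              ∑ i, ((b i : Y → F) y) • (u i : X → F) := by
            funext x
            rw [Finset.sum_apply]
            exact Finset.sum_congr rfl fun i _ => by
              rw [Pi.smul_apply, smul_eq_mul, mul_comm]
          exact this ▸ Submodule.sum_mem _ fun i _ => Submodule.smul_mem _ _ (u i).2
        · intro x
          have : (fun y => ∑ i, (u i : X → F) x * (b i : Y → F) y) =
              ∑ i, ((u i : X → F) x) • (b i : Y → F) := by
            funext y
            rw [Finset.sum_apply]
            exact Finset.sum_congr rfl fun i _ => by rw [Pi.smul_apply, smul_eq_mul]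
          exact this ▸ Submodule.sum_mem _ fun i _ => Submodule.smul_mem _ _ (b i).2⟩
      left_inv := by
        intro f
        apply Subtype.ext
        funext ⟨x, y⟩
        have h1 := b.sum_repr ⟨fun y => (f : X × Y → F) (x, y), ((hW f).mp f.2).2 x⟩
        have h2 := congrArg (fun v : V => (v : Y → F) y) h1
        simp only [Submodule.coe_sum, Finset.sum_apply, Submodule.coe_smul, Pi.smul_apply,
          smul_eq_mul] at h2
        have h3 : ∑ i, L i (fun y => (f : X × Y → F) (x, y)) * (b i : Y → F) y =
            (f : X × Y → F) (x, y) := by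
          rw [← h2]
          refine Finset.sum_congr rfl fun i _ => ?_
          congr 1
          exact hL' i ⟨fun y => (f : X × Y → F) (x, y), ((hW f).mp f.2).2 x⟩
        exact h3
      right_inv := by
        intro u
        funext i
        apply Subtype.ext
        funext x
        change L i (fun y => ∑ j, (u j : X → F) x * (b j : Y → F) y) = (u i : X → F) x
        have h1 : (fun y => ∑ j, (u j : X → F) x * (b j : Y → F) y) =
            ((∑ j, (u j : X → F) x • b j : V) : Y → F) := by
          funext y
          rw [Submodule.coe_sum, Finset.sum_apply]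
          rfl
        rw [h1, hL', map_sum, Finset.sum_eq_single i]
        · rw [map_smul, Module.Basis.coord_apply, Module.Basis.repr_self, Finsupp.single_eq_same, smul_eq_mul,
            mul_one]
        · intro j _ hj
          rw [map_smul, Module.Basis.coord_apply, Module.Basis.repr_self, Finsupp.single_eq_of_ne (Ne.symm hj),
            smul_zero]
        · intro h
          exact absurd (Finset.mem_univ _) h }
  rw [e.finrank_eq, Module.finrank_pi_fintype, Finset.sum_const, Finset.card_univ,
    Fintype.card_fin, smul_eq_mul, mul_comm]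

section lp

variable {p : ℕ} [hp : Fact p.Prime] {F : Type} [Field F] [IsAlgClosed F] [CharP F p]
  {G H : Type} [Group G] [Group H] [Fintype G] [Fintype H]

theorem pp_prod (g : G) (h : H) : pp p ((g, h) : G × H) = (pp p g, pp p h) := by
  have c1 : ∀ {J : Type} [Group J] [Fintype J] (x : J), Commute (x * (pp p x)⁻¹) (pp p x) := by
    intro J _ _ x
    have hc : Commute x (pp p x) := by
      unfold pp
      exact (Commute.refl x).pow_right _
    exact hc.mul_left (Commute.refl _).inv_left
  have h1 : ((g, h) : G × H) = (g * (pp p g)⁻¹, h * (pp p h)⁻¹) * (pp p g, pp p h) := by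
    rw [Prod.mk_mul_mk, inv_mul_cancel_right, inv_mul_cancel_right]
  rw [h1, pp_mul]
  · intro hd
    rw [Prod.orderOf] at hd
    have h2 := hd.trans (Nat.lcm_dvd_mul _ _)
    rcases hp.out.dvd_mul.mp h2 with h3 | h3
    · exact reg_pp g h3
    · exact reg_pp h h3
  · obtain ⟨m, hm⟩ := pel_iff.mp (pel_pp (p := p) g)
    obtain ⟨n, hn⟩ := pel_iff.mp (pel_pp (p := p) h)
    refine pel_iff.mpr ⟨m + n, ?_⟩
    ext
    · change (g * (pp p g)⁻¹) ^ p ^ (m + n) = 1
      rw [pow_add, pow_mul, hm, one_pow]
    · change (h * (pp p h)⁻¹) ^ p ^ (m + n) = 1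
      rw [add_comm, pow_add, pow_mul, hn, one_pow]
  · exact Prod.ext (c1 g) (c1 h)

theorem mem_RB {J : Type} [Group J] [Fintype J] {B : (J → F) → F} {f : J → F} :
    f ∈ RB p B ↔ IsClassFun f ∧ (∀ x, f (pp p x) = f x) ∧
      ∀ z, IsClassFun z → ∀ x, ∑ y, z y * f (y * x) = B z * f x := Iff.rfl

theorem RB_bx {b₁ : (G → F) → F} {b₂ : (H → F) → F} (h1 : IsBlock b₁) (h2 : IsBlock b₂)
    (f : G × H → F) : f ∈ RB p (bx b₁ b₂) ↔ (∀ y, (fun x => f (x, y)) ∈ RB p b₁) ∧
      ∀ x, (fun y => f (x, y)) ∈ RB p b₂ := by
  constructor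
  · rintro ⟨c1, c2, c3⟩
    have p1 : ∀ g h, f (pp p g, h) = f (g, h) := by
      intro g h
      rw [← c2 (pp p g, h), ← c2 (g, h), pp_prod, pp_prod, pp_pp]
    have p2 : ∀ g h, f (g, pp p h) = f (g, h) := by
      intro g h
      rw [← c2 (g, pp p h), ← c2 (g, h), pp_prod, pp_prod, pp_pp]
    refine ⟨fun h => ⟨sect1 c1 h, fun g => p1 g h, fun z hz g => ?_⟩,
      fun g => ⟨sect2 c1 g, fun h => p2 g h, fun z hz h => ?_⟩⟩
    · have hz' : IsClassFun fun w : G × H => z w.1 * dlt F H w.2 := by
        rintro ⟨c, d⟩ ⟨a, b⟩
        change z (c * a * c⁻¹) * dlt F H (d * b * d⁻¹) = z a * dlt F H b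
        rw [hz, dlt_class]
      have h3 := c3 _ hz' (g, h)
      rw [Fintype.sum_prod_type] at h3
      have h4 : ∀ y : G, ∑ k : H, (fun w : G × H => z w.1 * dlt F H w.2) (y, k) *
          f ((y, k) * (g, h)) = z y * f (y * g, h) := by
        intro y
        rw [Finset.sum_eq_single 1]
        · unfold dlt
          simp
        · intro k _ hk
          unfold dlt
          simp [hk]
        · intro h'
          exact absurd (Finset.mem_univ _) h'
      rw [Finset.sum_congr rfl fun y _ => h4 y] at h3
      rw [h3]
      congr 1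
      unfold bx
      congr 1
      funext g
      exact B_scalar h2 (z g)
    · have hz' : IsClassFun fun w : G × H => dlt F G w.1 * z w.2 := by
        rintro ⟨c, d⟩ ⟨a, b⟩
        change dlt F G (c * a * c⁻¹) * z (d * b * d⁻¹) = dlt F G a * z b
        rw [hz, dlt_class]
      have h3 := c3 _ hz' (g, h)
      rw [Fintype.sum_prod_type, Finset.sum_eq_single 1] at h3
      · have h4 : ∑ y : H, (fun w : G × H => dlt F G w.1 * z w.2) (1, y) * f ((1, y) * (g, h)) =
            ∑ y : H, z y * f (g, y * h) := by
          refine Finset.sum_congr rfl fun y _ => ?_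
          unfold dlt
          simp
        rw [h4] at h3
        rw [h3]
        congr 1
        unfold bx
        have h5 : (fun g : G => b₂ fun h => dlt F G g * z h) = fun g => b₂ z * dlt F G g := by
          funext g
          have := h2.smul (dlt F G g) z hz
          rw [mul_comm]
          exact this
        rw [h5, B_scalar h1]
      · intro y _ hy
        refine Finset.sum_eq_zero fun k _ => ?_
        unfold dlt
        simp [hy]
      · intro h'
        exact absurd (Finset.mem_univ _) h'
  · rintro ⟨c1, c2⟩
    refine ⟨?_, ?_, fun z hz => ?_⟩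
    · rintro ⟨c, d⟩ ⟨a, b⟩
      change f (c * a * c⁻¹, d * b * d⁻¹) = f (a, b)
      exact ((c1 (d * b * d⁻¹)).1 c a).trans ((c2 a).1 d b)
    · rintro ⟨a, b⟩
      rw [pp_prod]
      exact ((c1 (pp p b)).2.1 a).trans ((c2 a).2.1 b)
    · rintro ⟨g, h⟩
      rw [Fintype.sum_prod_type]
      have h3 : ∀ y : G, ∑ k : H, z (y, k) * f ((y, k) * (g, h)) =
          (b₂ fun k => z (y, k)) * f (y * g, h) := fun y =>
        (c2 (y * g)).2.2 (fun k => z (y, k)) (sect2 hz y) h
      rw [Finset.sum_congr rfl fun y _ => h3 y]
      exact (c1 h).2.2 (fun y => b₂ fun k => z (y, k)) (part_cl hz b₂) g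

end lp

/-- **`l` is multiplicative.** -/
theorem l_bx (p : ℕ) [hp : Fact p.Prime] {F : Type} [Field F] [IsAlgClosed F] [CharP F p]
    {G H : Type} [Group G] [Group H] [Fintype G] [Fintype H]
    {b₁ : (G → F) → F} {b₂ : (H → F) → F} (h1 : IsBlock b₁) (h2 : IsBlock b₂) :
    numIrrBlock (bx b₁ b₂) = numIrrBlock b₁ * numIrrBlock b₂ := by
  rw [numIrr_eq (p := p), numIrr_eq (p := p), numIrr_eq (p := p)]
  exact finrank_box _ _ _ (RB_bx h1 h2)

end Pool.Agent.Hp21.UA
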