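import Pool.Agent.Hp21.UA.Krd
import Pool.Agent.Hp21.AW.Odd

/-!
# One-sided bounds for the sums of Knörr and Robinson
-/

set_option autoImplicit false
set_option linter.unusedSectionVars false
set_option linter.unusedVariables false

open scoped BigOperators Classical

noncomputable section

namespace Pool.Agent.Hp21.UA

open Pool.Agent.Y63.NV
open Pool.Agent.Y63.KR
open Pool.Agent.Y63.AWC (IsIrreducibleCharacter pSubgroupSetoid)
open Pool.Agent.Q90.WR (box box_irr box_cover box_inj GoodB blkAlt blkAlt_wr)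
open Pool.Agent.R674.KB (KRQ krq_iff)
open Pool.Agent.Hp21.AW

variable {p : ℕ} [hp : Fact p.Prime] {F : Type} [Field F] [IsAlgClosed F] [CharP F p]
  {red : integralClosure ℤ ℂ →+* F}

/-- `B` contains no character of defect zero -/
def Pos (p : ℕ) {F : Type} [Field F] (red : integralClosure ℤ ℂ →+* F) {G : Type} [Group G]
    (B : (G → F) → F) : Prop :=
  ∀ χ : G → ℂ, IsWt p (⊥ : Subgroup G) χ →
    ¬ ∀ f : G → F, IsClassFun f → centralValue red χ f = B f

theorem wt_bot {G : Type} [Group G] [Finite G] {χ : G → ℂ} {n : ℕ} (hn : χ 1 = (n : ℂ)) :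
    IsWt p (⊥ : Subgroup G) χ ↔ IsIrreducibleCharacter χ ∧
      n.factorization p = (Nat.card G).factorization p := by
  constructor
  · intro h
    refine ⟨h.irr, ?_⟩
    obtain ⟨m, hm, hm2⟩ := h.defectZero
    rw [Subgroup.card_bot, Nat.factorization_one, Finsupp.coe_zero, Pi.zero_apply, add_zero] at hm2
    rw [hn] at hm
    have : n = m := by exact_mod_cast hm
    rw [this]
    exact hm2
  · rintro ⟨h1, h2⟩
    refine ⟨h1, ?_, n, hn, ?_⟩
    · intro q hq x
      rw [Subgroup.mem_bot.mp hq, one_mul]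
    · rw [Subgroup.card_bot, Nat.factorization_one, Finsupp.coe_zero, Pi.zero_apply, add_zero]
      exact h2

theorem exists_deg {G : Type} [Group G] [Finite G] {χ : G → ℂ} (h : IsIrreducibleCharacter χ) :
    ∃ n : ℕ, n ≠ 0 ∧ χ 1 = (n : ℂ) ∧ n.factorization p ≤ (Nat.card G).factorization p := by
  have := Fintype.ofFinite G
  obtain ⟨n, h1, h2⟩ := Pool.Agent.Q90.WR.deg_pos (χ := χ) h
  exact ⟨n, h1.ne', h2, Pool.Agent.Q90.WR.fac_le h h2⟩

/-- a product of blocks of positive defect -/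
theorem Pos.bx {G H : Type} [Group G] [Group H] [Fintype G] [Fintype H]
    {b₁ : (G → F) → F} {b₂ : (H → F) → F} (h1 : IsBlock b₁) (h2 : IsBlock b₂)
    (hz : Pos p red b₁) : Pos p red (bx b₁ b₂) := by
  intro χ hw hχ
  obtain ⟨θ, ψ, j1, j2, rfl⟩ := box_cover (χ := χ) hw.irr
  have hθ : IsIrreducibleCharacter θ := j1
  have hψ : IsIrreducibleCharacter ψ := j2
  obtain ⟨n, n0, hn, hn2⟩ := exists_deg (p := p) hθ
  obtain ⟨m, m0, hm, hm2⟩ := exists_deg (p := p) hψ
  have hnm : box θ ψ 1 = ((n * m : ℕ) : ℂ) := by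
    change θ 1 * ψ 1 = _
    rw [hn, hm]
    push_cast
    ring
  have h3 := ((wt_bot hnm).mp hw).2
  rw [Nat.card_prod, Nat.factorization_mul n0 m0, Nat.factorization_mul Nat.card_pos.ne'
    Nat.card_pos.ne', Finsupp.add_apply, Finsupp.add_apply] at h3
  have h4 : n.factorization p = (Nat.card G).factorization p := by omega
  refine hz θ ((wt_bot hn).mpr ⟨hθ, h4⟩) fun f hf => ?_
  have hc : IsClassFun fun w : G × H => f w.1 * dlt F H w.2 := by
    rintro ⟨c, d⟩ ⟨a, b⟩
    change f (c * a * c⁻¹) * dlt F H (d * b * d⁻¹) = f a * dlt F H b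
    rw [hf, dlt_class]
  have h5 := hχ _ hc
  rw [cv_box red hθ hψ hc] at h5
  have h6 : (fun g : G => centralValue red ψ (fun h : H =>
      (fun w : G × H => f w.1 * dlt F H w.2) (g, h))) = f := by
    funext g
    change centralValue red ψ (fun h : H => f g * dlt F H h) = _
    rw [cv_const red hψ, cv_dlt red hψ, mul_one]
  rw [h6] at h5
  rw [h5]
  unfold Pool.Agent.Hp21.UA.bx
  congr 1
  funext g
  have h8 := h2.smul (f g) (dlt F H) dlt_class
  rw [B_dlt h2, mul_one] at h8
  exact h8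

/-- a block of positive defect: `p` divides the order -/
theorem two_le {G : Type} [Group G] [Fintype G] {B : (G → F) → F} (hB : IsBlock B)
    (hz : Pos p red B) : 2 ≤ Nat.card G := by
  by_contra hlt
  have h1 : Nat.card G = 1 := by
    have := Nat.card_pos (α := G)
    omega
  obtain ⟨χ, hχ, h2⟩ := Pool.Agent.N85.TG.Exc.core red hB
  obtain ⟨n, n0, hn, hn2⟩ := exists_deg (p := p) hχ
  refine hz χ ((wt_bot hn).mpr ⟨hχ, ?_⟩) h2
  rw [h1] at hn2 ⊢
  rw [Nat.factorization_one, Finsupp.coe_zero, Pi.zero_apply] at hn2 ⊢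
  omega

/-- iterated squares -/
theorem tower (X : ∀ (G : Type) [Group G], Prop)
    (hsq : ∀ (G : Type) [Group G] [Finite G], X G → X (G × G)) (j : ℕ) :
    ∀ (G : Type) [Group G] [Finite G], X G → ∀ B : (G → F) → F, IsBlock B → Pos p red B →
    ∃ (K : Type) (_ : Group K) (_ : Finite K), X K ∧ ∃ B' : (K → F) → F, IsBlock B' ∧
      Pos p red B' ∧ Nat.card K = Nat.card G ^ 2 ^ j ∧ KR p red B' = KR p red B ^ 2 ^ j := by
  induction j with
  | zero =>
    intro G _ _ hG B hB hz
    exact ⟨G, inferInstance, inferInstance, hG, B, hB, hz, by simp, by simp⟩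
  | succ j ih =>
    intro G _ _ hG B hB hz
    have := Fintype.ofFinite G
    obtain ⟨K, i1, i2, hK, B', hB', hz', e1, e2⟩ := ih (G × G) (hsq G hG) (bx B B)
      (bx_block red hB hB) (hz.bx hB hB)
    refine ⟨K, i1, i2, hK, B', hB', hz', ?_, ?_⟩
    · rw [e1, Nat.card_prod, ← sq, ← pow_mul, ← pow_succ']
    · rw [e2, KR_bx red hB hB, ← sq, ← pow_mul, ← pow_succ']

/-- a subpolynomial upper bound gives the bound one for the absolute values -/
theorem abs_le_one (X : ∀ (G : Type) [Group G], Prop)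
    (hsq : ∀ (G : Type) [Group G] [Finite G], X G → X (G × G))
    (h : ∀ ε : ℝ, 0 < ε → ∃ n₀ : ℕ, ∀ (G : Type) [Group G] [Finite G], X G → n₀ ≤ Nat.card G →
      ∀ B : (G → F) → F, IsBlock B → Pos p red B →
        (KR p red B : ℝ) ≤ (Nat.card G : ℝ) ^ ε)
    (G : Type) [Group G] [Finite G] (hG : X G) (B : (G → F) → F) (hB : IsBlock B)
    (hz : Pos p red B) : |KR p red B| ≤ 1 := by
  have := Fintype.ofFinite G
  by_contra hcon
  push Not at hcon
  have h2 : (2 : ℝ) ≤ |(KR p red B : ℝ)| := by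
    have : (2 : ℤ) ≤ |KR p red B| := hcon
    exact_mod_cast this
  have hc2 := two_le (p := p) (red := red) hB hz
  set N : ℝ := (Nat.card G : ℝ) with hN
  have hN2 : (2 : ℝ) ≤ N := by
    rw [hN]
    exact_mod_cast hc2
  have hL : 0 < Real.log N := Real.log_pos (by linarith)
  set ε : ℝ := Real.log 2 / (2 * Real.log N) with hε
  have hl2 : 0 < Real.log 2 := Real.log_pos (by norm_num)
  have hε0 : 0 < ε := div_pos hl2 (by positivity)
  have hNε : N ^ ε < 2 := by
    have h3 : N ^ ε = Real.exp (Real.log 2 / 2) := by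
      rw [Real.rpow_def_of_pos (by linarith), hε]
      congr 1
      field_simp
    have h4 : (2 : ℝ) = Real.exp (Real.log 2) := (Real.exp_log (by norm_num)).symm
    rw [h3]
    conv_rhs => rw [h4]
    exact Real.exp_lt_exp.mpr (by linarith)
  obtain ⟨n₀, hn⟩ := h ε hε0
  obtain ⟨K, i1, i2, hK, B', hB', hz', e1, e2⟩ := tower X hsq (n₀ + 1) G hG B hB hz
  have hc : n₀ ≤ Nat.card K := by
    rw [e1]
    have h3 : n₀ + 1 < 2 ^ (n₀ + 1) := Nat.lt_two_pow_self
    have h4 : 2 ^ (n₀ + 1) < 2 ^ 2 ^ (n₀ + 1) := Nat.lt_two_pow_self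
    have h5 : 2 ^ 2 ^ (n₀ + 1) ≤ Nat.card G ^ 2 ^ (n₀ + 1) := Nat.pow_le_pow_left hc2 _
    omega
  have key := hn K hK hc B' hB' hz'
  rw [e1, e2] at key
  push_cast at key
  have hev : Even (2 ^ (n₀ + 1)) := (even_two).pow_of_ne_zero (Nat.succ_ne_zero _)
  have h5 : (2 : ℝ) ^ 2 ^ (n₀ + 1) ≤ (KR p red B : ℝ) ^ 2 ^ (n₀ + 1) := by
    rw [← hev.pow_abs (KR p red B : ℝ)]
    exact pow_le_pow_left₀ (by norm_num) h2 _
  have h6 : (N ^ 2 ^ (n₀ + 1)) ^ ε = (N ^ ε) ^ 2 ^ (n₀ + 1) := by
    rw [← Real.rpow_natCast, ← Real.rpow_natCast, ← Real.rpow_mul (by linarith),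
      ← Real.rpow_mul (by linarith), mul_comm]
  rw [h6] at key
  have h7 : (N ^ ε) ^ 2 ^ (n₀ + 1) < (2 : ℝ) ^ 2 ^ (n₀ + 1) :=
    pow_lt_pow_left₀ hNε (by positivity) (by positivity)
  linarith

theorem pos_iff {G : Type} [Group G] [Finite G] (B : (G → F) → F) :
    Pos p red B ↔ numDzBlock p red B = 0 := by
  unfold numDzBlock
  rw [Nat.card_eq_zero]
  constructor
  · intro h
    left
    constructor
    rintro ⟨χ, hχ, hχB⟩
    exact h χ hχ hχB
  · rintro (h | h) χ hχ hχB
    · exact h.false ⟨χ, hχ, hχB⟩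
    · have hfin : Finite {χ : G → ℂ // IsWt p (⊥ : Subgroup G) χ ∧
          ∀ f : G → F, IsClassFun f → centralValue red χ f = B f} := by
        have := Fintype.ofFinite G
        have h1 : {χ : G → ℂ | IsWt p (⊥ : Subgroup G) χ ∧
            ∀ f : G → F, IsClassFun f → centralValue red χ f = B f}.Finite :=
          (Pool.Agent.Helper884.IC.irr_finite (G := G)).subset fun χ h => h.1.irr
        exact h1
      exact h.false

/-- odd primes: the value one is excluded by the wreath product -/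
theorem zero_of_le_one (hp2 : p ≠ 2) (X : ∀ (G : Type) [Group G], Prop)
    (hsq : ∀ (G : Type) [Group G] [Finite G], X G → X (G × G))
    (hwr : ∀ (G : Type) [Group G] [Finite G], X G → X (Pool.Agent.Q90.WR.Wr G))
    (h : ∀ (G : Type) [Group G] [Finite G], X G → ∀ B : (G → F) → F, IsBlock B →
      Pos p red B → |KR p red B| ≤ 1)
    (G : Type) [Group G] [Finite G] (hG : X G) (B : (G → F) → F) (hB : IsBlock B)
    (hz : Pos p red B) : KR p red B = 0 := by
  have := Fintype.ofFinite G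
  by_contra hne
  obtain ⟨O, hpO, hO⟩ := exists_val p red
  have h1 : KR p red (bx B B) = 1 := by
    rw [KR_bx red hB hB]
    have h2 := h G hG B hB hz
    rw [abs_le] at h2
    have h3 : KR p red B = 1 ∨ KR p red B = -1 := by omega
    rcases h3 with h3 | h3 <;> rw [h3] <;> norm_num
  obtain ⟨𝓑, χ₀, hg, h0, hχ, hBE⟩ := good_of hO hpO (bx_block red hB hB)
    (hz.bx (red := red) hB hB)
  have e1 : blkAlt p O 𝓑 = 1 := by
    rw [blkAlt_eq hO hg.block h0 hχ hBE]
    exact h1
  have e2 := blkAlt_wr (p := p) (G := G × G) hp2 hpO hg.block hg.pos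
  rw [e1] at e2
  have hgw := hg.wr hp2 hpO
  obtain ⟨χ₁, h4⟩ := hgw.block.nonempty
  have hχ1 : IsIrreducibleCharacter χ₁ := hgw.block.irr χ₁ h4
  have hblk := Pool.Agent.Y930.NV.cvh F red (Pool.Agent.Q90.WR.Wr (G × G)) χ₁ hχ1
  have hp1 : Pos p red (centralValue red χ₁) :=
    (pos_iff _).mpr (dz_zero hO hgw h4 hχ1)
  have e3 := blkAlt_eq (p := p) hO hgw.block h4 hχ1 (Pool.Agent.N85.WM.BEq.refl _)
  have e4 := h (Pool.Agent.Q90.WR.Wr (G × G)) (hwr _ (hsq G hG)) (centralValue red χ₁) hblk hp1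
  have e5 : KR p red (centralValue red χ₁) = 2 := by
    unfold KR
    rw [← e3]
    omega
  rw [e5] at e4
  norm_num at e4

/-- from the vanishing of the sums to the weight conjecture -/
theorem bawc_of_zero (X : ∀ (G : Type) [Group G], Prop) (hX : Closed p X)
    (h : ∀ (G : Type) [Group G] [Finite G], X G → ∀ B : (G → F) → F, IsBlock B →
      Pos p red B → KR p red B = 0)
    (G : Type) [Group G] [Finite G] (hG : X G) : BAWC p red G :=
  bawc_of_krb_class (red := red) X hX (fun H _ _ hH _ => (krq_iff red H).mp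
      fun B hB hz => h H hH B hB hz) G
    ⟨⊤, inferInstance, hX.iso _ _ hG ⟨Subgroup.topEquiv.symm⟩, pgroup_top p G⟩

/-- and back -/
theorem zero_of_bawc (X : ∀ (G : Type) [Group G], Prop) (hX : Closed p X)
    (h : ∀ (G : Type) [Group G] [Finite G], X G → ∀ B : (G → F) → F, IsBlock B →
      numIrrBlock B = Pool.Agent.N85.WM.numWts p red B)
    (G : Type) [Group G] [Finite G] (hG : X G) (B : (G → F) → F) (hB : IsBlock B)
    (hz : Pos p red B) : KR p red B = 0 := by
  have h1 : ∀ m : ℕ, (m : ℤ) ∣ KR p red B := by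
    intro m
    have h2 := block_dvd (p := p) red m (fun H B' hB' => by
      rw [h H (hX.sub G hG H) B' hB']) hB
    rw [(pos_iff B).mp hz, Nat.cast_zero, sub_zero] at h2
    exact h2
  by_contra hne
  have h2 := h1 ((KR p red B).natAbs + 1)
  have h3 := Int.natAbs_dvd_natAbs.mpr h2
  have h4 := Nat.le_of_dvd (Int.natAbs_pos.mpr hne) h3
  simp only [Int.natAbs_natCast] at h4
  omega

end Pool.Agent.Hp21.UA
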