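import Pool.Agent.Hp21.UA.Hf2
import Pool.Agent.N85.WM.Lt
import Pool.Agent.N85.WM.Com
import Pool.Agent.N85.WM.Modp

/-!
# Induced functions and `p`-parts
-/

set_option autoImplicit false
set_option linter.unusedSectionVars false
set_option linter.style.haveILetI false

open scoped BigOperators Classical

noncomputable section

namespace Pool.Agent.Hp21.UA

open Pool.Agent.Y63.NV (IsClassFun pp)
open Pool.Agent.Y77.NV (pp_pp pp_reg reg_pp)
open Pool.Agent.N85.WM (PEl pel_iff pel_pp pp_mul)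
open Pool.Agent.Hp21.UN

section pu

variable {p : ℕ} [hp : Fact p.Prime] {F : Type} {G : Type} [Group G]

/-- `f(c x) = f(x)` for `p`-elements `c` commuting with the `p`-regular element `x` -/
def PU (p : ℕ) {F G : Type} [Group G] (f : G → F) : Prop :=
  ∀ x c : G, ¬ p ∣ orderOf x → PEl p c → Commute c x → f (c * x) = f x

theorem PU_iff [Finite G] {f : G → F} : PU p f ↔ ∀ x, f (pp p x) = f x := by
  constructor
  · intro h x
    have h1 := h (pp p x) (x * (pp p x)⁻¹) (reg_pp x) (pel_pp x) ?_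
    · rw [inv_mul_cancel_right] at h1
      exact h1.symm
    · have hc : Commute x (pp p x) := by
        unfold pp
        exact (Commute.refl x).pow_right _
      exact hc.mul_left (Commute.refl _).inv_left
  · intro h x c hx hc hcx
    rw [← h (c * x), pp_mul hx hc hcx]

end pu

section ind

variable {p : ℕ} [hp : Fact p.Prime] {F : Type} [Field F] [CharP F p]
  {E A G : Type} [CommGroup E] [Group A] [Group G]
  {φ : A →* MulAut E} {ι : G →* A} {t : E →* F} [Fintype E] [Fintype A] [Fintype G]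

/-- powers in `E ⋊ G` -/
theorem pow_t (h : StF φ ι t) (n : E) (d : G) (k : ℕ) :
    t ((⟨n, ι d⟩ : E ⋊[φ] A) ^ k).left = t n ^ k ∧
      ((⟨n, ι d⟩ : E ⋊[φ] A) ^ k).right = ι (d ^ k) := by
  induction k with
  | zero => exact ⟨by simp, by simp⟩
  | succ k ih =>
    rw [pow_succ, SemidirectProduct.mul_left, SemidirectProduct.mul_right, ih.2, map_mul t, h.fix,
      ih.1, pow_succ, pow_succ, map_mul ι]
    exact ⟨rfl, rfl⟩

theorem t_one_of_pel (h : StF φ ι t) {n : E} {d : G} (hc : PEl p (⟨n, ι d⟩ : E ⋊[φ] A)) :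
    t n = 1 ∧ PEl p d := by
  obtain ⟨j, hj⟩ := pel_iff.mp hc
  obtain ⟨h1, h2⟩ := pow_t h n d (p ^ j)
  rw [hj] at h1 h2
  constructor
  · rw [SemidirectProduct.one_left, map_one] at h1
    have h3 : (t n - 1) ^ p ^ j = 0 := by
      rw [sub_pow_char_pow, ← h1, one_pow, sub_self]
    exact sub_eq_zero.mp (pow_eq_zero_iff (pow_ne_zero _ hp.out.ne_zero) |>.mp h3)
  · refine pel_iff.mpr ⟨j, h.inj ?_⟩
    rw [← h2, SemidirectProduct.one_right, map_one]

/-- orders in `E ⋊ G` -/
theorem reg_right {x : E ⋊[φ] A} (hx : ¬ p ∣ orderOf x) : ¬ p ∣ orderOf x.right := by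
  intro h
  apply hx
  refine h.trans (orderOf_dvd_of_pow_eq_one ?_)
  have := congrArg SemidirectProduct.right (pow_orderOf_eq_one x)
  have h2 : (x ^ orderOf x).right = x.right ^ orderOf x :=
    map_pow (SemidirectProduct.rightHom : E ⋊[φ] A →* A) x _
  rw [← h2, this, SemidirectProduct.one_right]

theorem reg_of_right (hpE : ¬ p ∣ Nat.card E) {x : E ⋊[φ] A} (hx : ¬ p ∣ orderOf x.right) :
    ¬ p ∣ orderOf x := by
  have h1 : (x ^ orderOf x.right).right = 1 := by
    have h2 : (x ^ orderOf x.right).right = x.right ^ orderOf x.right :=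
      map_pow (SemidirectProduct.rightHom : E ⋊[φ] A →* A) x _
    rw [h2, pow_orderOf_eq_one]
  have h3 : x ^ orderOf x.right = SemidirectProduct.inl (x ^ orderOf x.right).left := by
    ext
    · rfl
    · rw [h1]
      rfl
  have h4 : x ^ (orderOf x.right * Nat.card E) = 1 := by
    rw [pow_mul, h3, ← map_pow, pow_card_eq_one', map_one]
  intro h
  rcases hp.out.dvd_mul.mp (h.trans (orderOf_dvd_of_pow_eq_one h4)) with h5 | h5
  · exact hx h5
  · exact hpE h5

theorem orderOf_inj {H K : Type} [Group H] [Group K] {f : H →* K} (hf : Function.Injective f)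
    (x : H) : orderOf (f x) = orderOf x := orderOf_injective f hf x

theorem UU_pu (h : StF φ ι t) {u : G → F} (hu : PU p u) {x c : E ⋊[φ] A}
    (hx : ¬ p ∣ orderOf x) (hc : PEl p c) (hcx : Commute c x) {d : G} (hd : ι d = c.right) :
    UU φ ι t u (c * x) = UU φ ι t u x := by
  obtain ⟨n, b⟩ := c
  change ι d = b at hd
  subst hd
  obtain ⟨h1, h2⟩ := t_one_of_pel h hc
  obtain ⟨m, a⟩ := x
  by_cases ha : ∃ g, ι g = a
  · obtain ⟨g, rfl⟩ := ha
    have e1 : (⟨n, ι d⟩ : E ⋊[φ] A) * ⟨m, ι g⟩ = ⟨n * φ (ι d) m, ι (d * g)⟩ := by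
      ext
      · rfl
      · exact (map_mul ι d g).symm
    rw [e1, UU_in h, UU_in h, map_mul t n, h.fix, h1, one_mul]
    congr 1
    refine hu g d ?_ h2 ?_
    · have h3 := reg_right hx
      change ¬ p ∣ orderOf (ι g) at h3
      rwa [orderOf_inj h.inj] at h3
    · have h3 := congrArg SemidirectProduct.right hcx.eq
      change ι d * ι g = ι g * ι d at h3
      rw [← map_mul, ← map_mul] at h3
      exact h.inj h3
  · push Not at ha
    have e0 : UU φ ι t u (⟨m, a⟩ : E ⋊[φ] A) = 0 := UU_out u ha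
    rw [e0]
    refine UU_out u fun k hk => ?_
    apply ha (d⁻¹ * k)
    rw [map_mul, hk, map_inv]
    change (ι d)⁻¹ * (ι d * a) = a
    group

theorem tm_smul (h : StF φ ι t) {u : G → F} (hu : IsClassFun u) (w y : E ⋊[φ] A)
    (q : A ⧸ ι.range) (hwy : w * y = y * w) :
    tm φ ι t u y (w.right • q).out = tm φ ι t u y q.out := by
  have h1 : (QuotientGroup.mk (w.right * q.out) : A ⧸ ι.range) = w.right • q := by
    conv_rhs => rw [← QuotientGroup.out_eq' q]
    rfl
  have h2 := tm_conj h hu y w q.out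
  rw [hwy, mul_inv_cancel_right] at h2
  rw [tm_out h hu y h1, h2]

theorem fix_q {b : A} {q : A ⧸ ι.range} (hb : b • q = q) : ∃ d, ι d = (q.out)⁻¹ * b * q.out := by
  have h2 : (QuotientGroup.mk q.out : A ⧸ ι.range) = QuotientGroup.mk (b * q.out) := by
    rw [QuotientGroup.out_eq']
    conv_lhs => rw [← hb, ← QuotientGroup.out_eq' q]
    rfl
  rw [QuotientGroup.eq, ← mul_assoc] at h2
  exact h2

omit [Fintype E] [Fintype A] [Fintype G] in
theorem sum_fix_eq {P X : Type} [Group P] (hP : IsPGroup p P) [MulAction P X] [Fintype X]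
    (f g : X → F) (hf : ∀ (d : P) (x : X), f (d • x) = f x)
    (hg : ∀ (d : P) (x : X), g (d • x) = g x)
    (hfg : ∀ x : X, (∀ d : P, d • x = x) → f x = g x) : ∑ x, f x = ∑ x, g x := by
  have hF : ∀ a : F, p • a = 0 := fun a => by
    rw [← Nat.cast_smul_eq_nsmul F, CharP.cast_eq_zero, zero_smul]
  rw [Pool.Agent.H254R3.IN.sum_fixed hP hF f hf, Pool.Agent.H254R3.IN.sum_fixed hP hF g hg]
  exact Finset.sum_congr rfl fun x hx => hfg x (Finset.mem_filter.mp hx).2

/-- **The induced function of a function on the `p`-regular elements.** -/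
theorem hF_pu (h : StF φ ι t) {u : G → F} (hu : IsClassFun u) (hp' : PU p u) :
    PU p (hF φ ι t u) := by
  intro x c hx hc hcx
  let P : Subgroup (E ⋊[φ] A) := Subgroup.zpowers c
  have hP : IsPGroup p P := by
    obtain ⟨j, hj⟩ := hc
    refine IsPGroup.of_card (n := j) ?_
    rw [Nat.card_zpowers, hj]
  letI : MulAction P (A ⧸ ι.range) := MulAction.compHom (A ⧸ ι.range)
    ((SemidirectProduct.rightHom : E ⋊[φ] A →* A).comp P.subtype)
  have hinv : ∀ y : E ⋊[φ] A, Commute c y → ∀ (d : P) (q : A ⧸ ι.range),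
      tm φ ι t u y (d • q).out = tm φ ι t u y q.out := by
    intro y hy d q
    refine tm_smul h hu d y q ?_
    obtain ⟨k, hk⟩ := Subgroup.mem_zpowers_iff.mp d.2
    rw [← hk]
    exact hy.zpow_left k
  unfold hF
  refine sum_fix_eq hP (X := A ⧸ ι.range) (fun q => tm φ ι t u (c * x) q.out)
    (fun q => tm φ ι t u x q.out) (hinv _ ((Commute.refl c).mul_right hcx)) (hinv x hcx)
    fun q hq => ?_
  obtain ⟨d, hd⟩ := fix_q (hq ⟨c, Subgroup.mem_zpowers c⟩)
  unfold tm
  set s : E ⋊[φ] A := SemidirectProduct.inr q.out with hs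
  have e1 : s⁻¹ * (c * x) * s = (s⁻¹ * c * s) * (s⁻¹ * x * s) := by group
  rw [e1]
  refine UU_pu (p := p) h hp' (x := s⁻¹ * x * s) (c := s⁻¹ * c * s) ?_ ?_ ?_ (d := d) ?_
  · have h3 : orderOf (s⁻¹ * x * s) = orderOf x := by
      have := orderOf_injective (MulAut.conj s⁻¹).toMonoidHom (MulAut.conj s⁻¹).injective x
      rw [← this]
      congr 1
      change _ = s⁻¹ * x * s⁻¹⁻¹
      rw [inv_inv]
    rwa [h3]
  · have := (PEl.conj (p := p) (x := c) s⁻¹).mpr hc
    rwa [inv_inv] at this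
  · have h3 : s⁻¹ * c * s * (s⁻¹ * x * s) = s⁻¹ * (c * x) * s := by group
    have h4 : s⁻¹ * x * s * (s⁻¹ * c * s) = s⁻¹ * (x * c) * s := by group
    change _ = _
    rw [h3, h4, hcx.eq]
  · rw [hd, hs, conj_inr]
    rfl

/-- reduction to fixed points -/
theorem Ps_fix (h : StF φ ι t) {Q : Subgroup G} (hQ : IsPGroup p Q) {g : G}
    (hg : ∀ d ∈ Q, d * g = g * d) {f : E ⋊[φ] A → F} (hf : IsClassFun f) :
    Ps φ ι t f g = ∑ m ∈ Finset.univ.filter (fun m : E => ∀ d : Q, φ (ι d) m = m),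
      f ⟨m, ι g⟩ * t m := by
  letI : MulAction Q E := MulAction.compHom E ((φ.comp ι).comp Q.subtype)
  have h1 := Pool.Agent.H254R3.IN.sum_fixed hQ (X := E) (F := F)
    (fun a => by rw [← Nat.cast_smul_eq_nsmul F, CharP.cast_eq_zero, zero_smul])
    (fun m => f ⟨m, ι g⟩ * t m) (by
      intro d m
      change f ⟨φ (ι d) m, ι g⟩ * t (φ (ι d) m) = _
      have e1 : ι g = ι d * ι g * (ι d)⁻¹ := by
        rw [← map_mul, hg d d.2, map_mul, mul_inv_cancel_right]
      have e2 : f ⟨φ (ι d) m, ι g⟩ = f ⟨m, ι g⟩ := by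
        rw [← hf (SemidirectProduct.inr (ι d)) ⟨m, ι g⟩]
        congr 1
        ext
        · simp
        · simp only [SemidirectProduct.mul_right, SemidirectProduct.right_inr,
            SemidirectProduct.inv_right]
          exact e1
      rw [e2, h.fix])
  unfold Ps
  rw [h1]
  apply Finset.sum_congr _ (fun _ _ => rfl)
  ext m
  simp only [Finset.mem_filter, Finset.mem_univ, true_and]
  exact Iff.rfl

/-- **The component of a function on the `p`-regular elements.** -/
theorem Ps_pu (hpE : ¬ p ∣ Nat.card E) (h : StF φ ι t) {f : E ⋊[φ] A → F} (hf : IsClassFun f)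
    (hp' : PU p f) : PU p (Ps φ ι t f) := by
  intro g d hg hd hdg
  let P : Subgroup G := Subgroup.zpowers d
  have hP : IsPGroup p P := by
    obtain ⟨j, hj⟩ := hd
    refine IsPGroup.of_card (n := j) ?_
    rw [Nat.card_zpowers, hj]
  have hcomm : ∀ y : G, Commute d y → ∀ e ∈ P, e * y = y * e := by
    intro y hy e he
    obtain ⟨k, hk⟩ := Subgroup.mem_zpowers_iff.mp he
    rw [← hk]
    exact hy.zpow_left k
  rw [Ps_fix h hP (hcomm _ ((Commute.refl d).mul_right hdg)) hf, Ps_fix h hP (hcomm _ hdg) hf]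
  refine Finset.sum_congr rfl fun m hm => ?_
  have hm' := (Finset.mem_filter.mp hm).2 ⟨d, Subgroup.mem_zpowers d⟩
  change φ (ι d) m = m at hm'
  congr 1
  have e1 : (⟨m, ι (d * g)⟩ : E ⋊[φ] A) = SemidirectProduct.inr (ι d) * ⟨m, ι g⟩ := by
    ext
    · simp [hm']
    · simp
  rw [e1]
  refine hp' _ _ ?_ ?_ ?_
  · apply reg_of_right hpE
    change ¬ p ∣ orderOf (ι g)
    rwa [orderOf_inj h.inj]
  · obtain ⟨j, hj⟩ := hd
    refine ⟨j, ?_⟩
    rw [orderOf_inj SemidirectProduct.inr_injective, orderOf_inj h.inj, hj]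
  · change _ = _
    ext
    · simp [hm']
    · simp only [SemidirectProduct.mul_right, SemidirectProduct.right_inr]
      rw [← map_mul, hdg.eq, map_mul]

end ind

end Pool.Agent.Hp21.UA
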