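import Pool.Agent.Hp21.UA.Uni
import Pool.Agent.Q90.WR.Dad

/-!
# Blocks of direct products
-/

set_option autoImplicit false
set_option linter.unusedSectionVars false
set_option linter.unusedVariables false
set_option linter.style.haveILetI false

open scoped BigOperators Classical

noncomputable section

namespace Pool.Agent.Hp21.UA

open Pool.Agent.Y63.NV (IsClassFun centralValue redC IsWt numWtBlock IsBlock numIrrBlock conv)
open Pool.Agent.Y63.AWC (IsIrreducibleCharacter pSubgroupSetoid)
open Pool.Agent.Y930.NV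
open Pool.Agent.Hp21.UN Pool.Agent.Hp21.AW
open Pool.Agent.H254R3.IN (IsIrr omega Om IsCl rep)
open Pool.Agent.Q90.WR (box box_irr box_cover box_inj)

section box

variable {F : Type} [Field F] (red : integralClosure ℤ ℂ →+* F)
  {G H : Type} [Group G] [Group H] [Fintype G] [Fintype H]

theorem box_irr' {χ : G → ℂ} {ψ : H → ℂ} (h1 : IsIrreducibleCharacter χ)
    (h2 : IsIrreducibleCharacter ψ) : IsIrreducibleCharacter (box χ ψ) :=
  box_irr (θ := χ) (ψ := ψ) h1 h2

theorem Om_box (f₁ : G → ℂ) (f₂ : H → ℂ) (χ : G → ℂ) (ψ : H → ℂ) :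
    Om (fun x : G × H => f₁ x.1 * f₂ x.2) (box χ ψ) = Om f₁ χ * Om f₂ ψ := by
  unfold Om box
  rw [Fintype.sum_prod_type, div_mul_div_comm, Finset.sum_mul_sum]
  congr 1
  refine Finset.sum_congr rfl fun x _ => Finset.sum_congr rfl fun y _ => ?_
  ring

/-- complex indicator of a class -/
def ic {G : Type} [Group G] (x : G) (g : G) : ℂ := if IsConj x g then 1 else 0

theorem ic_cl (x : G) : IsCl (ic x) := by
  intro g y
  unfold ic
  have h : IsConj x (y * g * y⁻¹) ↔ IsConj x g := by
    have h1 : IsConj g (y * g * y⁻¹) := isConj_iff.mpr ⟨y, rfl⟩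
    exact ⟨fun h => h.trans h1.symm, fun h => h.trans h1⟩
  simp only [h]

theorem ic_int (x g : G) : IsIntegral ℤ (ic x g) := by
  unfold ic
  split_ifs
  · exact isIntegral_one
  · exact isIntegral_zero

theorem redC_ic (x g : G) : redC red (ic x g) = ix F x g := by
  unfold ic ix
  split_ifs
  · exact redC_one red
  · exact redC_zero red

include red in
theorem Om_ic_int {χ : G → ℂ} (h : IsIrreducibleCharacter χ) (x : G) :
    IsIntegral ℤ (Om (ic x) χ) := by
  have h1 : Om (ic x) χ = Pool.Agent.Q259.BW.L (MonoidHom.id G) χ x := by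
    unfold Om Pool.Agent.Q259.BW.L ic
    congr 1
    refine Finset.sum_congr rfl fun g _ => ?_
    change (if IsConj x g then (1 : ℂ) else 0) * χ g = if IsConj x g then χ g else 0
    split_ifs
    · rw [one_mul]
    · rw [zero_mul]
  rw [h1]
  exact (L_val red (MonoidHom.id G) h x).1

/-- the central character of a product, for products of indicators -/
theorem cv_box_ix {χ : G → ℂ} {ψ : H → ℂ} (h1 : IsIrreducibleCharacter χ)
    (h2 : IsIrreducibleCharacter ψ) (x : G) (y : H) :
    centralValue red (box χ ψ) (fun z => ix F x z.1 * ix F y z.2) =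
      centralValue red χ (ix F x) * centralValue red ψ (ix F y) := by
  have e1 : centralValue red χ (ix F x) = redC red (Om (ic x) χ) := by
    rw [redC_Om red h1 (ic_cl x) (ic_int x)]
    simp only [redC_ic]
  have e2 : centralValue red ψ (ix F y) = redC red (Om (ic y) ψ) := by
    rw [redC_Om red h2 (ic_cl y) (ic_int y)]
    simp only [redC_ic]
  rw [e1, e2, ← redC_mul red (Om_ic_int red h1 x) (Om_ic_int red h2 y), ← Om_box,
    redC_Om red (box_irr' h1 h2)]
  · congr 1
    funext z
    rw [redC_mul red (ic_int x _) (ic_int y _), redC_ic, redC_ic]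
  · rintro ⟨a, b⟩ ⟨c, d⟩
    change ic x (c * a * c⁻¹) * ic y (d * b * d⁻¹) = ic x a * ic y b
    rw [ic_cl x a c, ic_cl y b d]
  · exact fun z => (ic_int x _).mul (ic_int y _)

theorem expand2 {f : G × H → F} (hf : IsClassFun f) (z : G × H) :
    f z = ∑ C : ConjClasses G, ∑ D : ConjClasses H, f (C.out, D.out) *
      (ix F C.out z.1 * ix F D.out z.2) := by
  obtain ⟨g, h⟩ := z
  have h1 : ∀ h : H, IsClassFun fun g => f (g, h) := fun h c x => by
    have := hf (c, 1) (x, h)
    simp only [Prod.mk_mul_mk, Prod.inv_mk, one_mul, inv_one, mul_one] at this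
    exact this
  have h2 : ∀ g : G, IsClassFun fun h => f (g, h) := fun g c x => by
    have := hf (1, c) (g, x)
    simp only [Prod.mk_mul_mk, Prod.inv_mk, one_mul, inv_one, mul_one] at this
    exact this
  have h3 : f (g, h) = ∑ C : ConjClasses G, f (C.out, h) * ix F C.out g := class_expand (h1 h) g
  rw [h3]
  refine Finset.sum_congr rfl fun C _ => ?_
  have h4 : f (C.out, h) = ∑ D : ConjClasses H, f (C.out, D.out) * ix F D.out h :=
    class_expand (h2 C.out) h
  rw [h4, Finset.sum_mul]
  exact Finset.sum_congr rfl fun D _ => by ring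

theorem cv_const {χ : G → ℂ} (h1 : IsIrreducibleCharacter χ) (c : F) (f : G → F) :
    centralValue red χ (fun g => c * f g) = c * centralValue red χ f := by
  have h := cv_sum red h1 (κ := Unit) Finset.univ (fun _ => c) (fun _ => f)
  simpa using h

/-- **the central character of a product** -/
theorem cv_box {χ : G → ℂ} {ψ : H → ℂ} (h1 : IsIrreducibleCharacter χ)
    (h2 : IsIrreducibleCharacter ψ) {f : G × H → F} (hf : IsClassFun f) :
    centralValue red (box χ ψ) f =
      centralValue red χ (fun g => centralValue red ψ (fun h => f (g, h))) := by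
  have e0 : f = fun z => ∑ i : ConjClasses G × ConjClasses H, f (i.1.out, i.2.out) *
      (fun z : G × H => ix F i.1.out z.1 * ix F i.2.out z.2) z := by
    funext z
    rw [Fintype.sum_prod_type]
    exact expand2 hf z
  have e1 : centralValue red (box χ ψ) f = ∑ i : ConjClasses G × ConjClasses H,
      f (i.1.out, i.2.out) * (centralValue red χ (ix F i.1.out) *
        centralValue red ψ (ix F i.2.out)) := by
    conv_lhs => rw [e0]
    rw [cv_sum red (box_irr' h1 h2) Finset.univ
      (fun i : ConjClasses G × ConjClasses H => f (i.1.out, i.2.out))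
      (fun i z => ix F i.1.out z.1 * ix F i.2.out z.2)]
    exact Finset.sum_congr rfl fun i _ => by rw [cv_box_ix red h1 h2]
  have e2 : ∀ g : G, centralValue red ψ (fun h => f (g, h)) =
      ∑ i : ConjClasses G × ConjClasses H, (f (i.1.out, i.2.out) *
        centralValue red ψ (ix F i.2.out)) * ix F i.1.out g := by
    intro g
    have e3 : (fun h : H => f (g, h)) = fun h => ∑ i : ConjClasses G × ConjClasses H,
        (f (i.1.out, i.2.out) * ix F i.1.out g) * ix F i.2.out h := by
      funext h
      have := congrFun e0 (g, h)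
      rw [this]
      exact Finset.sum_congr rfl fun i _ => by ring
    rw [e3, cv_sum red h2 Finset.univ
      (fun i : ConjClasses G × ConjClasses H => f (i.1.out, i.2.out) * ix F i.1.out g)
      (fun i => ix F i.2.out)]
    exact Finset.sum_congr rfl fun i _ => by ring
  rw [e1, funext e2, cv_sum red h1 Finset.univ
    (fun i : ConjClasses G × ConjClasses H => f (i.1.out, i.2.out) *
      centralValue red ψ (ix F i.2.out)) (fun i => ix F i.1.out)]
  exact Finset.sum_congr rfl fun i _ => by ring

/-- the product of two blocks -/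
def bx (b₁ : (G → F) → F) (b₂ : (H → F) → F) (f : G × H → F) : F :=
  b₁ fun g => b₂ fun h => f (g, h)

theorem sect1 {f : G × H → F} (hf : IsClassFun f) (h : H) : IsClassFun fun g => f (g, h) :=
  fun c x => by
    have := hf (c, 1) (x, h)
    simp only [Prod.mk_mul_mk, Prod.inv_mk, one_mul, inv_one, mul_one] at this
    exact this

theorem sect2 {f : G × H → F} (hf : IsClassFun f) (g : G) : IsClassFun fun h => f (g, h) :=
  fun c x => by
    have := hf (1, c) (g, x)
    simp only [Prod.mk_mul_mk, Prod.inv_mk, one_mul, inv_one, mul_one] at this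
    exact this

theorem part_cl {f : G × H → F} (hf : IsClassFun f) (b₂ : (H → F) → F) :
    IsClassFun fun g => b₂ fun h => f (g, h) := by
  intro c x
  exact congrArg b₂ (funext fun h => sect1 hf h c x)

theorem bx_val {b₁ : (G → F) → F} {b₂ : (H → F) → F} {χ : G → ℂ} {ψ : H → ℂ}
    (h1 : IsIrreducibleCharacter χ) (h2 : IsIrreducibleCharacter ψ)
    (e1 : ∀ f, IsClassFun f → centralValue red χ f = b₁ f)
    (e2 : ∀ f, IsClassFun f → centralValue red ψ f = b₂ f) {f : G × H → F}
    (hf : IsClassFun f) : centralValue red (box χ ψ) f = bx b₁ b₂ f := by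
  rw [cv_box red h1 h2 hf]
  unfold bx
  rw [← e1 _ (part_cl hf b₂)]
  congr 1
  funext g
  exact e2 _ (sect2 hf g)

include red in
theorem bx_block {b₁ : (G → F) → F} {b₂ : (H → F) → F} (h1 : IsBlock b₁) (h2 : IsBlock b₂) :
    IsBlock (bx b₁ b₂) := by
  obtain ⟨χ, hχ, e1⟩ := Pool.Agent.N85.TG.Exc.core red h1
  obtain ⟨ψ, hψ, e2⟩ := Pool.Agent.N85.TG.Exc.core red h2
  exact block_congr (cvh F red (G × H) (box χ ψ) (box_irr' hχ hψ))
    (fun f hf => (bx_val red hχ hψ e1 e2 hf).symm) fun f g hf hg => conv_cl hf hg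

end box

end Pool.Agent.Hp21.UA
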