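import Pool.Agent.Hp21.UA.Wcj2

/-!
# Reduction of `θ`, blocks of `E ⋊ A`, characters above `θ`
-/

set_option autoImplicit false
set_option linter.unusedSectionVars false
set_option linter.unusedVariables false
set_option linter.style.haveILetI false

open scoped BigOperators Classical

noncomputable section

namespace Pool.Agent.Hp21.UA

open Pool.Agent.Y63.NV (IsClassFun centralValue redC IsWt numWtBlock IsBlock cut conv)
open Pool.Agent.Y63.AWC (IsIrreducibleCharacter pSubgroupSetoid ConjugateSubgroups)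
open Pool.Agent.Y930.NV
open Pool.Agent.Hp21.UN Pool.Agent.Hp21.AW
open Pool.Agent.H254R3.IN (IsIrr omega Om IsCl rep)
open Pool.Agent.Helper884
open Pool.Agent.Q90.WR Pool.Agent.Q259.BW Pool.Agent.Q288.MB
open Pool.Agent.N19.RB (card_sd cl_inv)

section thf

variable {p : ℕ} [hp : Fact p.Prime] {F : Type} [Field F] [CharP F p]
  (red : integralClosure ℤ ℂ →+* F) {E : Type} [CommGroup E] [Fintype E]

/-- reduction is injective on the linear characters -/
theorem thF_inj (hpE : ¬ p ∣ Nat.card E) {θ₁ θ₂ : E →* ℂ}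
    (h : ∀ e, thF red θ₁ e = thF red θ₂ e) (e : E) : θ₁ e = θ₂ e := by
  by_contra hne
  have h1 := sum_th (θ₁ * thi θ₂)
  rw [if_neg] at h1
  · have h2 : redC red (∑ e, (θ₁ * thi θ₂) e) = ∑ e, redC red ((θ₁ * thi θ₂) e) :=
      redC_sum red _ _ fun e _ => th_int _ e
    rw [h1, redC_zero] at h2
    have h3 : ∀ e, redC red ((θ₁ * thi θ₂) e) = 1 := by
      intro e
      change redC red (θ₁ e * thi θ₂ e) = 1
      rw [redC_mul red (th_int _ _) (th_int _ _)]
      change thF red θ₁ e * thF red θ₂ e⁻¹ = 1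
      rw [h, ← map_mul, mul_inv_cancel, map_one]
    rw [Finset.sum_congr rfl fun e _ => h3 e, Finset.sum_const, nsmul_eq_mul, mul_one,
      Finset.card_univ, ← Nat.card_eq_fintype_card] at h2
    apply hpE
    exact (CharP.cast_eq_zero_iff F p _).mp h2.symm
  · intro h'
    apply hne
    have h4 : θ₁ e * thi θ₂ e = 1 := h' e
    rw [thi_apply] at h4
    exact mul_right_cancel₀ (th_ne θ₂ e⁻¹) (h4.trans (th_mul_inv θ₂ e).symm)

variable {A G : Type} [Group A] [Group G] {φ : A →* MulAut E} {ι : G →* A} {θ : E →* ℂ}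

theorem stF_of (hpE : ¬ p ∣ Nat.card E) (h : St φ ι θ) : StF φ ι (thF red θ) := by
  refine ⟨h.inj, fun a => ?_⟩
  rw [← h.stab a]
  constructor
  · intro h1 e
    exact thF_inj red hpE (θ₁ := θ.comp (φ a).toMonoidHom) (θ₂ := θ) h1 e
  · intro h1 e
    rw [thF_apply, thF_apply, h1]

end thf

section blk

variable {F : Type} [Field F] {G : Type} [Group G]

theorem block_congr {B B' : (G → F) → F} (hB : IsBlock B)
    (h : ∀ f : G → F, IsClassFun f → B' f = B f) (h1 : ∀ f g : G → F, IsClassFun f →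
      IsClassFun g → IsClassFun (conv f g)) : IsBlock B' where
  add f g hf hg := by
    have : IsClassFun (f + g) := fun a x => by
      rw [Pi.add_apply, Pi.add_apply, hf, hg]
    rw [h _ hf, h _ hg, h _ this, hB.add f g hf hg]
  smul a f hf := by
    have : IsClassFun (a • f) := fun b x => by
      rw [Pi.smul_apply, Pi.smul_apply, hf]
    rw [h _ hf, h _ this, hB.smul a f hf]
  one := by
    have : IsClassFun (Pi.single 1 1 : G → F) := by
      intro a x
      rw [Pi.single_apply, Pi.single_apply]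
      have : a * x * a⁻¹ = 1 ↔ x = 1 := conj_eq_one_iff
      simp only [this]
    rw [h _ this, hB.one]
  mul f g hf hg := by
    rw [h _ hf, h _ hg, h _ (h1 f g hf hg), hB.mul f g hf hg]

theorem conv_cl [Fintype G] {f g : G → F} (hf : IsClassFun f) (hg : IsClassFun g) :
    IsClassFun (conv f g) := by
  rw [cv_eq_conv]
  exact Cf_cv hf hg

end blk

section bh

variable {p : ℕ} [hp : Fact p.Prime] {F : Type} [Field F]
  (red : integralClosure ℤ ℂ →+* F)
  {E A G : Type} [CommGroup E] [Group A] [Group G] [Fintype E] [Fintype A] [Fintype G]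
  {φ : A →* MulAut E} {ι : G →* A} {θ : E →* ℂ}

theorem block_BH (h : St φ ι θ) {B : (G → F) → F} (hB : IsBlock B) :
    IsBlock (BH φ ι (thF red θ) B) := by
  obtain ⟨χ, hχ, h1⟩ := Pool.Agent.N85.TG.Exc.core red hB
  refine block_congr (cvh F red (E ⋊[φ] A) (hat φ ι θ χ) (hat_irr h hχ)) (fun f hf => ?_)
    fun f g hf hg => conv_cl hf hg
  rw [cv_hat red h hχ hf, h1 _ (Phi_class red h hf)]
  rfl

/-- every block is above a block of a stabiliser -/
theorem exists_BH {B : (E ⋊[φ] A → F) → F} (hB : IsBlock B) :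
    ∃ (θ : E →* ℂ) (b : (stA φ θ → F) → F), IsBlock b ∧
      ∀ f : E ⋊[φ] A → F, IsClassFun f → B f = BH φ (stA φ θ).subtype (thF red θ) b f := by
  obtain ⟨ξ, hξ, h1⟩ := Pool.Agent.N85.TG.Exc.core red hB
  obtain ⟨θ, χ, hχ, rfl⟩ := exists_hat (φ := φ) hξ
  refine ⟨θ, centralValue red χ, cvh F red _ χ hχ, fun f hf => ?_⟩
  rw [← h1 f hf, cv_hat red (stA_St φ θ) hχ hf]
  rfl

end bh

section above

variable {E A G : Type} [CommGroup E] [Group A] [Group G] [Fintype E] [Fintype A] [Fintype G]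
  {φ : A →* MulAut E} {ι : G →* A} {θ : E →* ℂ}

/-- the `θ`-component of the restriction of `hat ψ` -/
theorem sum_th_hat (h : St φ ι θ) {ψ : G → ℂ} (hψ : IsCl ψ) (g : G) :
    ∑ e, θ e * hat φ ι θ ψ (⟨e, ι g⟩ : E ⋊[φ] A)⁻¹ = Nat.card E * ψ g⁻¹ := by
  simp_rw [hat_inv h]
  unfold hat term
  simp_rw [Finset.mul_sum]
  rw [Finset.sum_comm]
  have h2 : ∀ s : A, ∑ e, ∑ k : G, θ e * ((Nat.card G : ℂ)⁻¹ *
      (if ι k = s⁻¹ * (⟨e, ι g⟩ : E ⋊[φ] A).right * s then
        thi θ (φ s⁻¹ (⟨e, ι g⟩ : E ⋊[φ] A).left) * ψ k⁻¹ else 0)) =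
      (if (∃ k, ι k = s) then (Nat.card E : ℂ) else 0) * ((Nat.card G : ℂ)⁻¹ *
        ∑ k : G, if ι k = s⁻¹ * ι g * s then ψ k⁻¹ else 0) := by
    intro s
    rw [← sum_orth h s, Finset.sum_mul]
    refine Finset.sum_congr rfl fun e _ => ?_
    rw [Finset.mul_sum, Finset.mul_sum]
    refine Finset.sum_congr rfl fun k _ => ?_
    change θ e * ((Nat.card G : ℂ)⁻¹ * (if ι k = s⁻¹ * ι g * s then
        thi θ (φ s⁻¹ e) * ψ k⁻¹ else 0)) = _
    split_ifs
    · ring
    · ring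
  rw [Finset.sum_congr rfl fun s _ => h2 s]
  have h3 : ∀ s : A, (if (∃ k, ι k = s) then (Nat.card E : ℂ) else 0) * ((Nat.card G : ℂ)⁻¹ *
        ∑ k : G, if ι k = s⁻¹ * ι g * s then ψ k⁻¹ else 0) =
      ∑ k : G, if ι k = s then (Nat.card E : ℂ) * ((Nat.card G : ℂ)⁻¹ * ψ g⁻¹) else 0 := by
    intro s
    by_cases hs : ∃ k, ι k = s
    · obtain ⟨k, rfl⟩ := hs
      rw [if_pos ⟨k, rfl⟩, Finset.sum_eq_single (k⁻¹ * g * k), if_pos (by simp),
        Finset.sum_eq_single k, if_pos rfl]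
      · have := cl_inv hψ g k⁻¹
        simp only [inv_inv] at this
        rw [this]
      · intro b _ hb
        rw [if_neg fun h' => hb (h.inj h')]
      · intro h'
        exact absurd (Finset.mem_univ _) h'
      · intro b _ hb
        rw [if_neg]
        intro h'
        apply hb
        apply h.inj
        rw [h']
        simp
      · intro h'
        exact absurd (Finset.mem_univ _) h'
    · rw [if_neg hs, zero_mul]
      push Not at hs
      rw [Finset.sum_eq_zero fun k _ => if_neg (hs k)]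
  rw [Finset.sum_congr rfl fun s _ => h3 s, Finset.sum_comm]
  have h4 : ∀ k : G, ∑ s : A, (if ι k = s then (Nat.card E : ℂ) * ((Nat.card G : ℂ)⁻¹ * ψ g⁻¹)
      else 0) = (Nat.card E : ℂ) * ((Nat.card G : ℂ)⁻¹ * ψ g⁻¹) := by
    intro k
    rw [Finset.sum_ite_eq, if_pos (Finset.mem_univ _)]
  rw [Finset.sum_congr rfl fun k _ => h4 k, Finset.sum_const, nsmul_eq_mul, Finset.card_univ,
    ← Nat.card_eq_fintype_card]
  have := cG (G := G)
  field_simp

/-- characters above `θ` -/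
theorem exists_hat_of (h : St φ ι θ) {ξ : E ⋊[φ] A → ℂ} (hξ : IsIrr ξ)
    (hne : ∑ e, θ e * ξ (⟨e, 1⟩ : E ⋊[φ] A)⁻¹ ≠ 0) :
    ∃ χ : G → ℂ, IsIrr χ ∧ ξ = hat φ ι θ χ := by
  have hcl : IsCl ξ := fun g y => hξ.conj g y
  set η : G → ℂ := fun g => ∑ e, θ e * ξ (⟨e, ι g⟩ : E ⋊[φ] A)⁻¹ with hη
  have hη1 : η 1 ≠ 0 := by
    rw [hη]
    simp only [map_one]
    exact hne
  have hηcl : IsCl η := by
    intro g y
    rw [hη]
    refine (Fintype.sum_equiv (φ (ι y)).toEquiv _ _ fun e => ?_).symm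
    change _ = θ (φ (ι y) e) * ξ (⟨φ (ι y) e, ι (y * g * y⁻¹)⟩ : E ⋊[φ] A)⁻¹
    rw [h.fix]
    congr 1
    have h2 := cl_inr (cl_inv hcl) (ι y) e (ι g)
    rw [map_mul, map_mul, map_inv]
    exact h2.symm
  obtain ⟨χ, hχ, hχ'⟩ := exists_irr (cl_inv hηcl) (by rw [inv_one]; exact hη1)
  refine ⟨χ, hχ, ?_⟩
  by_contra hne
  apply hχ'
  have h3 := IC.B_irr (hat_irr h hχ) hξ
  rw [if_neg fun h' => hne h'.symm] at h3
  unfold IC.B at h3 ⊢
  rw [sum_hat χ (cl_inv hcl)] at h3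
  have h4 : ∑ e : E, ∑ g : G, θ e * χ g * ξ (⟨e, ι g⟩ : E ⋊[φ] A)⁻¹ =
      ∑ g : G, η g⁻¹ * χ g⁻¹ := by
    rw [Finset.sum_comm]
    refine Fintype.sum_equiv (Equiv.inv G) _ _ fun g => ?_
    rw [Equiv.inv_apply, inv_inv, hη, Finset.sum_mul]
    refine Finset.sum_congr rfl fun e _ => ?_
    ring
  rw [h4] at h3
  have c1 := cG (G := G)
  have c2 := cG (G := A)
  have c3 := cG (G := E ⋊[φ] A)
  rw [mul_eq_zero, mul_eq_zero, mul_eq_zero] at h3
  rcases h3 with h3 | (h3 | h3) | h3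
  · exact absurd h3 (inv_ne_zero c3)
  · exact absurd h3 (inv_ne_zero c1)
  · exact absurd h3 c2
  · rw [h3, mul_zero]

end above

end Pool.Agent.Hp21.UA
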