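import Pool.Agent.Hp21.UA.Red

/-!
# Every weight of `E ⋊ A` comes from a weight of `G`
-/

set_option autoImplicit false
set_option linter.unusedSectionVars false
set_option linter.unusedVariables false
set_option linter.style.haveILetI false

open scoped BigOperators Classical

noncomputable section

namespace Pool.Agent.Hp21.UA

open Pool.Agent.Y63.NV (IsClassFun centralValue redC IsWt numWtBlock IsBlock cut)
open Pool.Agent.Y63.AWC (IsIrreducibleCharacter pSubgroupSetoid ConjugateSubgroups)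
open Pool.Agent.Y930.NV
open Pool.Agent.Hp21.UN Pool.Agent.Hp21.AW
open Pool.Agent.H254R3.IN (IsIrr omega Om IsCl rep)
open Pool.Agent.Helper884
open Pool.Agent.N19.RB (card_sd)

section syl

variable {E A : Type} [CommGroup E] [Group A] [Fintype E] [Fintype A]
  {φ : A →* MulAut E} {p : ℕ} [hp : Fact p.Prime]

theorem DH_id (P : Subgroup A) : DH φ (MonoidHom.id A) P = P.map SemidirectProduct.inr := by
  ext x
  rw [mem_DH, Subgroup.mem_map]
  constructor
  · rintro ⟨h1, d, hd, h2⟩
    refine ⟨d, hd, ?_⟩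
    ext
    · exact h1.symm
    · exact h2
  · rintro ⟨d, hd, rfl⟩
    exact ⟨rfl, d, hd, rfl⟩

theorem exists_conj (hpE : ¬ p ∣ Nat.card E) {S : Subgroup (E ⋊[φ] A)} (hS : IsPGroup p S) :
    ∃ c : E ⋊[φ] A, trQ S c =
      DH φ (MonoidHom.id A) (S.map SemidirectProduct.rightHom) := by
  set P := S.map (SemidirectProduct.rightHom : E ⋊[φ] A →* A) with hP
  have hPp : IsPGroup p P := hS.map _
  set T : Subgroup (E ⋊[φ] A) := DH φ (MonoidHom.id A) P with hT
  have hTm : T = P.map SemidirectProduct.inr := DH_id P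
  have hTp : IsPGroup p T := by
    rw [hTm]
    exact hPp.map _
  have cT : Nat.card T = Nat.card P := by
    rw [hTm]
    exact Subgroup.card_map_of_injective SemidirectProduct.inr_injective
  have cS : Nat.card P = Nat.card S := by
    refine (Nat.card_congr (Equiv.ofBijective
      (fun x : S => (⟨SemidirectProduct.rightHom (x : E ⋊[φ] A), Subgroup.mem_map_of_mem _ x.2⟩ : P))
      ⟨fun x y hxy => ?_, fun y => ?_⟩)).symm
    · have h1 : (SemidirectProduct.rightHom (x : E ⋊[φ] A)) =
          SemidirectProduct.rightHom (y : E ⋊[φ] A) := congrArg Subtype.val hxy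
      have h2 : ((x : E ⋊[φ] A) * (y : E ⋊[φ] A)⁻¹) = 1 := by
        refine right_inj hpE hS (mul_mem x.2 (inv_mem y.2)) ?_
        change SemidirectProduct.rightHom ((x : E ⋊[φ] A) * (y : E ⋊[φ] A)⁻¹) = 1
        rw [map_mul, map_inv, h1, mul_inv_cancel]
      exact Subtype.ext (mul_inv_eq_one.mp h2)
    · obtain ⟨x, hx, h1⟩ := Subgroup.mem_map.mp y.2
      exact ⟨⟨x, hx⟩, Subtype.ext h1⟩
  set K : Subgroup (E ⋊[φ] A) := P.comap SemidirectProduct.rightHom with hK
  have cK : Nat.card K = Nat.card E * Nat.card P := by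
    have h1 := K.card_mul_index
    have h2 := P.card_mul_index
    have h3 : K.index = P.index :=
      Subgroup.index_comap_of_surjective _ SemidirectProduct.rightHom_surjective
    rw [h3, card_sd, ← h2, ← mul_assoc] at h1
    exact Nat.eq_of_mul_eq_mul_right (Nat.pos_of_ne_zero P.index_ne_zero_of_finite) h1
  have hSK : S ≤ K := fun x hx => Subgroup.mem_comap.mpr (Subgroup.mem_map_of_mem _ hx)
  have hTK : T ≤ K := by
    rw [hTm]
    rintro _ ⟨d, hd, rfl⟩
    exact Subgroup.mem_comap.mpr (by rw [SemidirectProduct.rightHom_inr]; exact hd)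
  have hrel : S.relIndex K = Nat.card E := by
    have h1 := Subgroup.card_mul_index (S.subgroupOf K)
    have h2 : Nat.card (S.subgroupOf K) = Nat.card S :=
      Nat.card_congr (Subgroup.subgroupOfEquivOfLe hSK).toEquiv
    rw [h2, cK, ← cS] at h1
    have h3 : S.relIndex K = (S.subgroupOf K).index := rfl
    rw [h3]
    have h4 : Nat.card P * (S.subgroupOf K).index = Nat.card P * Nat.card E := by
      rw [h1, mul_comm]
    exact Nat.eq_of_mul_eq_mul_left Nat.card_pos h4
  obtain ⟨c, hc⟩ := syl_le hSK hS (by rw [hrel]; exact hpE) hTK hTp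
  refine ⟨c⁻¹, (Subgroup.eq_of_le_of_card_ge (fun x hx => ?_) ?_).symm⟩
  · rw [mem_trQ, inv_inv]
    exact hc x hx
  · have h1 : Nat.card (trQ S c⁻¹) = Nat.card S :=
      Subgroup.card_map_of_injective (MulAut.conj c⁻¹⁻¹).injective
    rw [h1, cT, cS]

end syl

section fix

variable {p : ℕ} [hp : Fact p.Prime] {F : Type} [Field F] [CharP F p]
  (red : integralClosure ℤ ℂ →+* F)
  {E A G : Type} [CommGroup E] [Group A] [Group G] [Fintype E] [Fintype A] [Fintype G]
  {φ : A →* MulAut E} {ι : G →* A} {θ : E →* ℂ}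

/-- coincidence of two characters on the fixed points of `P` -/
def cq (φ : A →* MulAut E) (ι : G →* A) (t : E →* F) (P : Subgroup A)
    (m' : EC φ (MonoidHom.id A) P →* F) (q : A ⧸ ι.range) : F :=
  if (∀ m : EC φ (MonoidHom.id A) P, t (φ (q.out)⁻¹ m) = m' m) then 1 else 0

theorem cq_inv {t : E →* F} (h : StF φ ι t) (P : Subgroup A)
    (m' : EC φ (MonoidHom.id A) P →* F) (x : P) (q : A ⧸ ι.range) :
    cq φ ι t P m' (x • q) = cq φ ι t P m' q := by
  have h1 : ∃ k, (x • q).out = x * q.out * ι k := by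
    have h2 : (QuotientGroup.mk ((x : A) * q.out) : A ⧸ ι.range) = x • q := by
      conv_rhs => rw [← QuotientGroup.out_eq' q]
      rfl
    have h3 : ((x : A) * q.out)⁻¹ * (x • q).out ∈ ι.range := by
      rw [← QuotientGroup.eq, h2, QuotientGroup.out_eq']
    obtain ⟨k, hk⟩ := h3
    exact ⟨k, by rw [hk]; group⟩
  obtain ⟨k, hk⟩ := h1
  have h2 : ∀ m : EC φ (MonoidHom.id A) P, t (φ ((x • q).out)⁻¹ m) = t (φ (q.out)⁻¹ m) := by
    intro m
    have h3 : φ (x : A)⁻¹ (m : E) = m := m.2 (x : A)⁻¹ (inv_mem x.2)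
    have h4 : ((x • q).out)⁻¹ = ι k⁻¹ * ((q.out)⁻¹ * (x : A)⁻¹) := by
      rw [hk, map_inv]
      group
    rw [h4, ← phi_mul, h.fix, ← phi_mul, h3]
  unfold cq
  simp only [h2]

theorem exists_fix {t : E →* F} (h : StF φ ι t) {P : Subgroup A} (hP : IsPGroup p P)
    (m' : EC φ (MonoidHom.id A) P →* F) (hne : ∑ q, cq φ ι t P m' q ≠ 0) :
    ∃ s : A, (∀ x ∈ P, ∃ k, ι k = s⁻¹ * x * s) ∧
      ∀ m : EC φ (MonoidHom.id A) P, t (φ s⁻¹ m) = m' m := by
  have h1 := Pool.Agent.H254R3.IN.sum_fixed hP (X := A ⧸ ι.range) (F := F)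
    (fun a => by rw [← Nat.cast_smul_eq_nsmul F, CharP.cast_eq_zero, zero_smul])
    (cq φ ι t P m') (cq_inv h P m')
  have h0 : ∃ q : A ⧸ ι.range, (∀ d : P, d • q = q) ∧ cq φ ι t P m' q ≠ 0 := by
    by_contra hcon
    push Not at hcon
    apply hne
    rw [h1]
    refine Finset.sum_eq_zero fun q hq => hcon q ?_
    simpa only [Finset.mem_filter, Finset.mem_univ, true_and] using hq
  obtain ⟨q, h2, hq'⟩ := h0
  refine ⟨q.out, fun x hx => ?_, ?_⟩
  · have h3 := h2 ⟨x, hx⟩
    have h4 : (QuotientGroup.mk (x * q.out) : A ⧸ ι.range) = QuotientGroup.mk q.out := by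
      rw [QuotientGroup.out_eq']
      refine Eq.trans ?_ h3
      conv_rhs => rw [← QuotientGroup.out_eq' q]
      rfl
    rw [eq_comm, QuotientGroup.eq] at h4
    obtain ⟨k, hk⟩ := h4
    exact ⟨k, by rw [hk]; group⟩
  · by_contra hcon
    exact hq' (if_neg hcon)

/-- the value of the test function -/
theorem hF_dlt (t : E →* F) (m : E) (a : A) :
    hF φ ι (ti t) (dlt F G) (⟨m, a⟩ : E ⋊[φ] A) =
      (∑ q : A ⧸ ι.range, t (φ (q.out)⁻¹ m⁻¹)) * if a = 1 then 1 else 0 := by
  unfold hF
  rw [Finset.sum_mul]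
  refine Finset.sum_congr rfl fun q _ => ?_
  rw [tm_sum, Finset.sum_eq_single 1]
  · rw [map_one]
    have e1 : (1 : A) = (q.out)⁻¹ * a * q.out ↔ a = 1 := by
      constructor
      · intro h
        have : a = q.out * ((q.out)⁻¹ * a * q.out) * (q.out)⁻¹ := by group
        rw [this, ← h]
        group
      · rintro rfl
        group
    simp only [e1]
    split_ifs
    · unfold dlt
      rw [if_pos rfl, ti_apply, map_inv (φ (q.out)⁻¹)]
    · rw [mul_zero]
  · intro k _ hk
    unfold dlt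
    rw [if_neg hk, mul_zero, ite_self]
  · intro h'
    exact absurd (Finset.mem_univ _) h'

end fix

end Pool.Agent.Hp21.UA
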