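import Pool.Agent.Hp21.UA.Surj

/-!
# Every weight of `E ⋊ A` comes from a weight of `G`: the proof
-/

set_option autoImplicit false
set_option linter.unusedSectionVars false
set_option linter.unusedVariables false
set_option linter.style.haveILetI false

open scoped BigOperators Classical

noncomputable section

namespace Pool.Agent.Hp21.UA

open Pool.Agent.Y63.NV (IsClassFun centralValue redC IsWt numWtBlock IsBlock cut)
open Pool.Agent.Y63.AWC (IsIrreducibleCharacter pSubgroupSetoid ConjugateSubgroups)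
open Pool.Agent.Y930.NV
open Pool.Agent.Hp21.UN Pool.Agent.Hp21.AW
open Pool.Agent.H254R3.IN (IsIrr omega Om IsCl rep)
open Pool.Agent.Helper884
open Pool.Agent.N19.RB (card_sd)

section srj

variable {p : ℕ} [hp : Fact p.Prime] {F : Type} [Field F] [IsAlgClosed F] [CharP F p]
  (red : integralClosure ℤ ℂ →+* F)
  {E A G : Type} [CommGroup E] [Group A] [Group G] [Fintype E] [Fintype A] [Fintype G]
  {φ : A →* MulAut E} {ι : G →* A} {θ : E →* ℂ}

theorem sum_cq {t : E →* F} (P : Subgroup A) (m' : EC φ (MonoidHom.id A) P →* F)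
    (q : A ⧸ ι.range) : ∑ m : EC φ (MonoidHom.id A) P, t (φ (q.out)⁻¹ (m : E)⁻¹) * m' m =
      (Nat.card (EC φ (MonoidHom.id A) P) : F) * cq φ ι t P m' q := by
  have h1 := sum_t (m' * ti ((t.comp (φ (q.out)⁻¹).toMonoidHom).comp
    (EC φ (MonoidHom.id A) P).subtype))
  have h2 : (∀ m, (m' * ti ((t.comp (φ (q.out)⁻¹).toMonoidHom).comp
      (EC φ (MonoidHom.id A) P).subtype)) m = 1) ↔
      ∀ m : EC φ (MonoidHom.id A) P, t (φ (q.out)⁻¹ m) = m' m := by
    constructor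
    · intro h3 m
      have h4 : m' m * t (φ (q.out)⁻¹ (m : E)⁻¹) = 1 := h3 m
      have h5 : t (φ (q.out)⁻¹ (m : E)) * t (φ (q.out)⁻¹ (m : E)⁻¹) = 1 := by
        rw [← map_mul, ← map_mul, mul_inv_cancel, map_one, map_one]
      exact mul_right_cancel₀ (right_ne_zero_of_mul_eq_one h5) (h5.trans h4.symm)
    · intro h3 m
      change m' m * t (φ (q.out)⁻¹ (m : E)⁻¹) = 1
      rw [← h3 m, ← map_mul, ← map_mul, mul_inv_cancel, map_one, map_one]
  simp only [h2] at h1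
  unfold cq
  rw [mul_ite, mul_one, mul_zero, ← h1]
  refine Finset.sum_congr rfl fun m _ => ?_
  exact mul_comm _ _

theorem count (hpE : ¬ p ∣ Nat.card E) (h : St φ ι θ) {B : (G → F) → F} (hB : IsBlock B)
    {P : Subgroup A} {η : Subgroup.normalizer (DH φ (MonoidHom.id A) P : Set (E ⋊[φ] A)) → ℂ}
    (hv : IsW p red (BH φ ι (thF red θ) B) ⟨DH φ (MonoidHom.id A) P, η⟩) :
    ∃ μ : EC φ (MonoidHom.id A) P →* ℂ,
      ∑ m : EC φ (MonoidHom.id A) P, μ m * ex ⟨DH φ (MonoidHom.id A) P, η⟩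
        (SemidirectProduct.inl (m : E)⁻¹) ≠ 0 ∧
      ∑ q, cq φ ι (thF red θ) P (thF red μ) q ≠ 0 := by
  set e := nIso φ (MonoidHom.id A) P with he
  set η₁ : EC φ (MonoidHom.id A) P ⋊[phN φ (MonoidHom.id A) P] AN (MonoidHom.id A) P → ℂ :=
    fun z => η (e.symm z) with hη₁
  have hirr : IsIrreducibleCharacter η₁ := Pool.Agent.Y624.NV.irr_comp e.symm hv.wt.irr
  obtain ⟨μ, χ, hχ, h2⟩ := exists_hat (φ := phN φ (MonoidHom.id A) P) (ξ := η₁) hirr
  have hst := stA_St (phN φ (MonoidHom.id A) P) μ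
  refine ⟨μ, ?_, ?_⟩
  · have h3 := sum_th_hat hst (irr_cl' hχ) 1
    have h4 : ∀ m : EC φ (MonoidHom.id A) P, ex ⟨DH φ (MonoidHom.id A) P, η⟩
        (SemidirectProduct.inl (m : E)⁻¹) = hat (phN φ (MonoidHom.id A) P)
        (stA (phN φ (MonoidHom.id A) P) μ).subtype μ χ
        (⟨m, (stA (phN φ (MonoidHom.id A) P) μ).subtype 1⟩ :
          EC φ (MonoidHom.id A) P ⋊[phN φ (MonoidHom.id A) P] AN (MonoidHom.id A) P)⁻¹ := by
      intro m
      rw [← h2]
      have h5 := ex_coe ⟨DH φ (MonoidHom.id A) P, η⟩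
        (e.symm (⟨m, (stA (phN φ (MonoidHom.id A) P) μ).subtype 1⟩ :
          EC φ (MonoidHom.id A) P ⋊[phN φ (MonoidHom.id A) P] AN (MonoidHom.id A) P)⁻¹)
      refine Eq.trans ?_ h5
      congr 1
      ext
      · change (m : E)⁻¹ = ((((⟨m, (stA (phN φ (MonoidHom.id A) P) μ).subtype 1⟩ :
          EC φ (MonoidHom.id A) P ⋊[phN φ (MonoidHom.id A) P] AN (MonoidHom.id A) P)⁻¹).left :
            EC φ (MonoidHom.id A) P) : E)
        simp
      · change 1 = ((((⟨m, (stA (phN φ (MonoidHom.id A) P) μ).subtype 1⟩ :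
          EC φ (MonoidHom.id A) P ⋊[phN φ (MonoidHom.id A) P] AN (MonoidHom.id A) P)⁻¹).right :
            AN (MonoidHom.id A) P) : A)
        simp
    rw [Finset.sum_congr rfl fun m _ => by rw [h4 m], h3, inv_one]
    exact mul_ne_zero cG hχ.one_ne
  · intro hzero
    have hF' := stF_of (F := F) red hpE h
    set t := thF red θ with ht
    set f := hF φ ι (ti t) (dlt F G) with hf
    have hfc : IsClassFun f := hF_class hF'.inv dlt_class
    have h3 := hv.blk f hfc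
    have h4 : BH φ ι t B f = (Nat.card E : F) := by
      unfold BH
      have h5 : Ps φ ι t f = fun g => (Nat.card E : F) * dlt F G g := by
        funext g
        have h6 := Ps_hF hF'.inv (dlt_class (F := F) (G := G)) g
        rwa [ti_ti] at h6
      rw [h5, B_scalar hB]
    rw [h4] at h3
    set f' : EC φ (MonoidHom.id A) P ⋊[phN φ (MonoidHom.id A) P] AN (MonoidHom.id A) P → F :=
      fun z => f (nj φ (MonoidHom.id A) P z) with hf'
    have hcl : IsClassFun f' := by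
      intro z y
      rw [hf']
      simp only [map_mul, map_inv]
      exact hfc _ _
    have h5 := Pool.Agent.Y624.NV.centralValue_comp red e (χ := η₁) hirr hcl
    have h6 : (fun y => η₁ (e y)) = η := by
      funext y
      rw [hη₁]
      simp only [MulEquiv.symm_apply_apply]
    have h7 : (fun y : Subgroup.normalizer (DH φ (MonoidHom.id A) P : Set (E ⋊[φ] A)) =>
        f' (e y)) = fun y : Subgroup.normalizer (DH φ (MonoidHom.id A) P : Set (E ⋊[φ] A)) =>
          f (y : E ⋊[φ] A) := by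
      funext y
      rfl
    rw [h6, h7] at h5
    have h8 : centralValue red η₁ f' = 0 := by
      rw [h2, cv_hat red hst hχ hcl]
      have h9 : Phi red (phN φ (MonoidHom.id A) P) (stA (phN φ (MonoidHom.id A) P) μ).subtype μ f' =
          fun g => (0 : F) * dlt F _ g := by
        funext g
        unfold Phi
        have h10 : ∀ m : EC φ (MonoidHom.id A) P,
            f' ⟨m, (stA (phN φ (MonoidHom.id A) P) μ).subtype g⟩ =
            (∑ q : A ⧸ ι.range, t (φ (q.out)⁻¹ (m : E)⁻¹)) *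
              if ((g : AN (MonoidHom.id A) P) : A) = 1 then 1 else 0 := fun m =>
          hF_dlt t (m : E) ((g : AN (MonoidHom.id A) P) : A)
        rw [Finset.sum_congr rfl fun m _ => by rw [h10 m]]
        have h11 : ∀ m : EC φ (MonoidHom.id A) P, (∑ q : A ⧸ ι.range, t (φ (q.out)⁻¹ (m : E)⁻¹)) *
              (if ((g : AN (MonoidHom.id A) P) : A) = 1 then (1 : F) else 0) * thF red μ m =
            ∑ q : A ⧸ ι.range, (if ((g : AN (MonoidHom.id A) P) : A) = 1 then (1 : F) else 0) *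
              (t (φ (q.out)⁻¹ (m : E)⁻¹) * thF red μ m) := by
          intro m
          rw [Finset.sum_mul, Finset.sum_mul]
          exact Finset.sum_congr rfl fun q _ => by ring
        rw [Finset.sum_congr rfl fun m _ => h11 m, Finset.sum_comm]
        simp only [← Finset.mul_sum]
        rw [Finset.sum_congr rfl fun q _ => sum_cq P (thF red μ) q, ← Finset.mul_sum, hzero]
        ring
      rw [h9]
      exact B_scalar (cvh F red _ χ hχ) 0
    have h9 : (Nat.card E : F) = 0 := by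
      rw [← h3]
      exact h5.trans h8
    exact card_ne (F := F) hpE h9

/-- **Every weight of `E ⋊ A` comes from a weight of `G`.** -/
theorem exists_w (hpE : ¬ p ∣ Nat.card E) (h : St φ ι θ) {B : (G → F) → F} (hB : IsBlock B)
    {v : Pre (E ⋊[φ] A)} (hv : IsW p red (BH φ ι (thF red θ) B) v) :
    ∃ w : Pre G, IsW p red B w ∧ Cj (WW φ ι θ w) v := by
  obtain ⟨c, hc⟩ := exists_conj hpE hv.pg
  have hP : IsPGroup p (v.1.map (SemidirectProduct.rightHom : E ⋊[φ] A →* A)) := hv.pg.map _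
  generalize v.1.map (SemidirectProduct.rightHom : E ⋊[φ] A →* A) = P at hc hP
  have hv₁ := isW_tr hv c
  have hj₁ := cj_tr v c
  have e₁ : (tr v c).1 = DH φ (MonoidHom.id A) P := hc
  generalize tr v c = v₁ at hv₁ hj₁ e₁
  obtain ⟨T, η⟩ := v₁
  change T = _ at e₁
  subst e₁
  obtain ⟨μ, hne, hsum⟩ := count red hpE h hB hv₁
  obtain ⟨s, hs1, hs2⟩ := exists_fix (stF_of red hpE h) hP (thF red μ) hsum
  have hs3 : ∀ m : EC φ (MonoidHom.id A) P, θ (φ s⁻¹ m) = μ m := fun m =>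
    thF_inj red (card_EC hpE P) (θ₁ := (θ.comp (φ s⁻¹).toMonoidHom).comp
      (EC φ (MonoidHom.id A) P).subtype) (θ₂ := μ) hs2 m
  set Q : Subgroup G := P.comap ((MulAut.conj s).toMonoidHom.comp ι) with hQdef
  have hQm : ∀ g, g ∈ Q ↔ s * ι g * s⁻¹ ∈ P := fun g => Iff.rfl
  have hQ : IsPGroup p Q := hP.comap_of_injective _ (by
    rw [MonoidHom.coe_comp]
    exact (MulAut.conj s).injective.comp h.inj)
  have e₂ : trQ (DH φ (MonoidHom.id A) P) (SemidirectProduct.inr s) = DH φ ι Q := by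
    ext x
    rw [mem_trQ, conj_inr', mem_DH, mem_DH]
    have i1 : φ s x.left = 1 ↔ x.left = 1 := by
      constructor
      · intro h1
        exact (φ s).injective (h1.trans (map_one _).symm)
      · intro h1
        rw [h1, map_one]
    refine and_congr i1 ?_
    constructor
    · rintro ⟨d, hd, h1⟩
      change d = s * x.right * s⁻¹ at h1
      obtain ⟨k, hk⟩ := hs1 d hd
      refine ⟨k, ?_, ?_⟩
      · rw [hQm, hk]
        have : s * (s⁻¹ * d * s) * s⁻¹ = d := by group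
        rwa [this]
      · rw [hk, h1]
        group
    · rintro ⟨k, hk, h1⟩
      refine ⟨_, hk, ?_⟩
      change s * ι k * s⁻¹ = s * x.right * s⁻¹
      rw [h1]
  have hv₂ := isW_tr hv₁ (SemidirectProduct.inr s)
  have hj₂ := cj_tr (⟨DH φ (MonoidHom.id A) P, η⟩ : Pre (E ⋊[φ] A)) (SemidirectProduct.inr s)
  have hx₂ := ex_tr (⟨DH φ (MonoidHom.id A) P, η⟩ : Pre (E ⋊[φ] A)) (SemidirectProduct.inr s)
  have e₃ : (tr (⟨DH φ (MonoidHom.id A) P, η⟩ : Pre (E ⋊[φ] A)) (SemidirectProduct.inr s)).1 =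
    DH φ ι Q := e₂
  generalize tr (⟨DH φ (MonoidHom.id A) P, η⟩ : Pre (E ⋊[φ] A)) (SemidirectProduct.inr s) = v₂
    at hv₂ hj₂ hx₂ e₃
  obtain ⟨T₂, η₂⟩ := v₂
  change T₂ = _ at e₃
  subst e₃
  have hloc := h.loc (φ := φ) hpE hQ
  set ξ : EC φ ι Q ⋊[phN φ ι Q] AN ι Q → ℂ := fun z => η₂ ((nIso φ ι Q).symm z) with hξdef
  have hξ : IsIrreducibleCharacter ξ := Pool.Agent.Y624.NV.irr_comp (nIso φ ι Q).symm hv₂.wt.irr
  have hmem1 : ∀ m ∈ EC φ ι Q, φ s m ∈ EC φ (MonoidHom.id A) P := by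
    intro m hm d hd
    obtain ⟨k, hk⟩ := hs1 d hd
    have hkQ : k ∈ Q := by
      rw [hQm, hk]
      have : s * (s⁻¹ * d * s) * s⁻¹ = d := by group
      rwa [this]
    change φ d (φ s m) = φ s m
    have h1 : d * s = s * ι k := by
      rw [hk]
      group
    rw [phi_mul, h1, ← phi_mul, hm k hkQ]
  have hmem2 : ∀ m ∈ EC φ (MonoidHom.id A) P, φ s⁻¹ m ∈ EC φ ι Q := by
    intro m hm g hg
    have h1 : ι g * s⁻¹ = s⁻¹ * (s * ι g * s⁻¹) := by group
    have h2 : φ (s * ι g * s⁻¹) m = m := hm _ ((hQm g).mp hg)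
    rw [phi_mul, h1, ← phi_mul, h2]
  have hne2 : ∑ m : EC φ ι Q, thN φ ι θ Q m *
      ξ (⟨m, 1⟩ : EC φ ι Q ⋊[phN φ ι Q] AN ι Q)⁻¹ ≠ 0 := by
    intro h0
    apply hne
    rw [← h0]
    refine (Fintype.sum_equiv
      { toFun := fun m : EC φ ι Q => (⟨φ s m, hmem1 m m.2⟩ : EC φ (MonoidHom.id A) P)
        invFun := fun m => ⟨φ s⁻¹ m, hmem2 m m.2⟩
        left_inv := fun m => Subtype.ext (phi_inv' _ _)
        right_inv := fun m => Subtype.ext (phi_inv _ _) } _ _ fun m => ?_).symm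
    change θ m * ξ (⟨m, 1⟩ : EC φ ι Q ⋊[phN φ ι Q] AN ι Q)⁻¹ =
      μ ⟨φ s m, hmem1 m m.2⟩ * ex ⟨DH φ (MonoidHom.id A) P, η⟩
        (SemidirectProduct.inl (φ s (m : E))⁻¹)
    have h1 : μ ⟨φ s m, hmem1 m m.2⟩ = θ m := by
      rw [← hs3]
      change θ (φ s⁻¹ (φ s m)) = θ m
      rw [phi_inv']
    have h2 : (SemidirectProduct.inl (φ s (m : E))⁻¹ : E ⋊[φ] A) =
        SemidirectProduct.inr s * SemidirectProduct.inl (m : E)⁻¹ *
          (SemidirectProduct.inr s)⁻¹ := by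
      rw [conj_inr']
      ext
      · simp
      · simp
    have h3 : ξ (⟨m, 1⟩ : EC φ ι Q ⋊[phN φ ι Q] AN ι Q)⁻¹ =
        ex ⟨DH φ ι Q, η₂⟩ (SemidirectProduct.inl (m : E)⁻¹) := by
      have h5 := ex_coe ⟨DH φ ι Q, η₂⟩
        ((nIso φ ι Q).symm (⟨m, 1⟩ : EC φ ι Q ⋊[phN φ ι Q] AN ι Q)⁻¹)
      refine h5.symm.trans ?_
      congr 1
      ext
      · change ((((⟨m, 1⟩ : EC φ ι Q ⋊[phN φ ι Q] AN ι Q)⁻¹).left : EC φ ι Q) : E) = (m : E)⁻¹
        simp
      · change ((((⟨m, 1⟩ : EC φ ι Q ⋊[phN φ ι Q] AN ι Q)⁻¹).right : AN ι Q) : A) = 1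
        simp
    rw [h1, h2, h3, hx₂]
  obtain ⟨ζ, hζ, hζ'⟩ := exists_hat_of hloc hξ hne2
  have hη₂ : η₂ = hatQ φ ι θ Q ζ := by
    funext y
    unfold hatQ
    rw [← hζ', hξdef]
    simp only [MulEquiv.symm_apply_apply]
  subst hη₂
  have hwt := (wtQ_iff h hpE hQ hζ).mp hv₂.wt
  refine ⟨⟨Q, ζ⟩, ⟨hQ, hwt, fun f hf => ?_⟩, (hj₁.trans hj₂).symm⟩
  obtain ⟨z', hz', hz''⟩ := Ps_surj (p := p) hpE (stF_of red hpE h) hf
  have h1 := cvQ red h hpE hQ hwt hz'
  have h2 := hv₂.blk z' hz'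
  have h3 : (fun g : GN Q => Phi red φ ι θ z' g) = fun g : GN Q => f g := by
    funext g
    exact congrFun hz'' (g : G)
  rw [h3] at h1
  have h4 : BH φ ι (thF red θ) B z' = B f := by
    unfold BH
    rw [hz'']
  exact h1.symm.trans (h2.trans h4)

theorem isW_WW (hpE : ¬ p ∣ Nat.card E) (h : St φ ι θ) {B : (G → F) → F} {w : Pre G}
    (hw : IsW p red B w) : IsW p red (BH φ ι (thF red θ) B) (WW φ ι θ w) := by
  obtain ⟨Q, ζ⟩ := w
  have hQ : IsPGroup p Q := hw.pg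
  have hwt : IsWt p (Q.subgroupOf (GN Q)) ζ := hw.wt
  refine ⟨?_, (wtQ_iff h hpE hQ hwt.irr).mpr hwt, fun f hf => ?_⟩
  · change IsPGroup p (DH φ ι Q)
    rw [IsPGroup.iff_card] at hQ ⊢
    rwa [card_DH h]
  · exact (cvQ red h hpE hQ hwt hf).trans (hw.blk _ (Phi_class red h hf))

/-- **The numbers of the classes of weights.** -/
theorem numWts_BH (hpE : ¬ p ∣ Nat.card E) (h : St φ ι θ) {B : (G → F) → F} (hB : IsBlock B) :
    (∑ᶠ c : Quotient (pSubgroupSetoid p (E ⋊[φ] A)),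
      numWtBlock p red c.out.1 (BH φ ι (thF red θ) B)) =
    ∑ᶠ c : Quotient (pSubgroupSetoid p G), numWtBlock p red c.out.1 B := by
  rw [numWts_quot, numWts_quot]
  refine (card_quot_eq (fun w => ⟨WW φ ι θ w.1, isW_WW red hpE h w.2⟩) (fun w v => ?_)
    fun v => ?_).symm
  · constructor
    · exact cj_of h hpE w.2.pg v.2.pg w.2.wt v.2.wt
    · intro hc
      obtain ⟨c, hc⟩ := cj_iff.mp hc
      change Cj (WW φ ι θ w.1) (WW φ ι θ v.1)
      rw [hc]
      exact WW_tr h w.1 c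
  · obtain ⟨w, hw, hc⟩ := exists_w red hpE h hB v.2
    exact ⟨⟨w, hw⟩, hc⟩

end srj

end Pool.Agent.Hp21.UA
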