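import Pool.Agent.Hp21.UA.Surj2
import Pool.Agent.Hp21.UN.Par

/-!
# The numbers `l(B)`, `w(B)` for universal groups
-/

set_option autoImplicit false
set_option linter.unusedSectionVars false
set_option linter.unusedVariables false
set_option linter.style.haveILetI false

open scoped BigOperators Classical

noncomputable section

namespace Pool.Agent.Hp21.UA

open Pool.Agent.Y63.NV (IsClassFun centralValue redC IsWt numWtBlock IsBlock numIrrBlock)
open Pool.Agent.Y63.AWC (IsIrreducibleCharacter pSubgroupSetoid)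
open Pool.Agent.Y930.NV
open Pool.Agent.Hp21.UN Pool.Agent.Hp21.AW
open Pool.Agent.H254R3.IN (IsIrr)

section congr

variable {p : ℕ} [hp : Fact p.Prime] {F : Type} [Field F] {G : Type} [Group G]

theorem l_congr {B B' : (G → F) → F} (h : ∀ f, IsClassFun f → B f = B' f) :
    numIrrBlock B = numIrrBlock B' := by
  unfold numIrrBlock
  refine Nat.card_congr (Equiv.subtypeEquivRight fun φ => and_congr_right fun _ => ?_)
  exact forall_congr' fun f => imp_congr_right fun hf => by rw [h f hf]

/-- the number of classes of weights of `B` -/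
def nW (p : ℕ) (red : integralClosure ℤ ℂ →+* F) (B : (G → F) → F) : ℕ :=
  ∑ᶠ c : Quotient (pSubgroupSetoid p G), numWtBlock p red c.out.1 B

theorem w_congr (red : integralClosure ℤ ℂ →+* F) {B B' : (G → F) → F}
    (h : ∀ f, IsClassFun f → B f = B' f) : nW p red B = nW p red B' := by
  unfold nW
  refine finsum_congr fun c => ?_
  unfold numWtBlock
  refine Nat.card_congr (Equiv.subtypeEquivRight fun φ => and_congr_right fun _ => ?_)
  exact forall_congr' fun f => imp_congr_right fun hf => by rw [h f hf]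

/-- the pairs `(l(B), w(B))` for the blocks of `G` -/
def prs (p : ℕ) (red : integralClosure ℤ ℂ →+* F) (G : Type) [Group G] : Set (ℕ × ℕ) :=
  {x | ∃ B : (G → F) → F, IsBlock B ∧ x = (numIrrBlock B, nW p red B)}

end congr

section uni

variable {p : ℕ} [hp : Fact p.Prime] {F : Type} [Field F] [IsAlgClosed F] [CharP F p]
  {red : integralClosure ℤ ℂ →+* F}

theorem prs_of {E A G : Type} [CommGroup E] [Group A] [Group G] [Fintype E] [Fintype A]
    [Fintype G] {φ : A →* MulAut E} {ι : G →* A} {θ : E →* ℂ} (hpE : ¬ p ∣ Nat.card E)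
    (h : St φ ι θ) : prs p red G ⊆ prs p red (E ⋊[φ] A) := by
  rintro _ ⟨B, hB, rfl⟩
  refine ⟨BH φ ι (thF red θ) B, block_BH red h hB, ?_⟩
  rw [numIrr_BH hpE (stF_of red hpE h) hB]
  exact congrArg _ (numWts_BH red hpE h hB).symm

theorem prs_to {E A : Type} [CommGroup E] [Group A] [Fintype E] [Fintype A]
    {φ : A →* MulAut E} (hpE : ¬ p ∣ Nat.card E) {x : ℕ × ℕ}
    (hx : x ∈ prs p red (E ⋊[φ] A)) : ∃ θ : E →* ℂ, x ∈ prs p red (stA φ θ) := by
  obtain ⟨B, hB, rfl⟩ := hx
  obtain ⟨θ, b, hb, h1⟩ := exists_BH red hB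
  refine ⟨θ, b, hb, ?_⟩
  rw [l_congr h1, w_congr red h1, numIrr_BH hpE (stF_of red hpE (stA_St φ θ)) hb]
  exact congrArg _ (numWts_BH red hpE (stA_St φ θ) hb)

/-- transport of a block -/
def tb {G H : Type} [Group G] [Group H] (e : G ≃* H) (B : (G → F) → F) (f : H → F) : F :=
  B fun g => f (e g)

theorem tb_block (red : integralClosure ℤ ℂ →+* F) {G H : Type} [Group G] [Group H] [Fintype G]
    [Fintype H] (e : G ≃* H) {B : (G → F) → F} (hB : IsBlock B) : IsBlock (tb e B) := by
  obtain ⟨χ, hχ, h1⟩ := Pool.Agent.N85.TG.Exc.core red hB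
  have hχ' : IsIrreducibleCharacter fun x : H => χ (e.symm x) :=
    Pool.Agent.Y624.NV.irr_comp e.symm hχ
  refine block_congr (cvh F red H _ hχ') (fun f hf => ?_) fun f g hf hg => conv_cl hf hg
  have hf' : IsClassFun fun g => f (e g) := by
    intro g x
    simp only [map_mul, map_inv]
    exact hf _ _
  have h2 := Pool.Agent.Y624.NV.centralValue_comp red e.symm hχ hf'
  unfold tb
  rw [← h1 _ hf', ← h2]
  simp only [MulEquiv.apply_symm_apply]

theorem prs_iso {G H : Type} [Group G] [Group H] [Finite G] (e : G ≃* H) :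
    prs p red G ⊆ prs p red H := by
  have := Fintype.ofFinite G
  have := Fintype.ofEquiv G e.toEquiv
  rintro _ ⟨B, hB, rfl⟩
  have h1 : ¬ p ∣ Nat.card PUnit := by
    rw [Nat.card_unique]
    exact hp.out.one_lt.ne' ∘ Nat.dvd_one.mp
  have hE : St (1 : H →* MulAut PUnit) e.toMonoidHom (1 : PUnit →* ℂ) :=
    ⟨e.injective, fun a => ⟨fun _ => ⟨e.symm a, e.apply_symm_apply a⟩, fun _ _ => rfl⟩⟩
  have hI : St (1 : H →* MulAut PUnit) (MonoidHom.id H) (1 : PUnit →* ℂ) :=
    ⟨fun _ _ h => h, fun a => ⟨fun _ => ⟨a, rfl⟩, fun _ _ => rfl⟩⟩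
  refine ⟨tb e B, tb_block red e hB, ?_⟩
  have h2 := numIrr_BH h1 (stF_of red h1 hE) hB
  have h3 := numIrr_BH h1 (stF_of red h1 hI) (tb_block red e hB)
  have h4 := numWts_BH red h1 hE hB
  have h5 := numWts_BH red h1 hI (tb_block red e hB)
  have h6 : numIrrBlock B = numIrrBlock (tb e B) := h2.symm.trans h3
  have h7 : nW p red B = nW p red (tb e B) := h4.symm.trans h5
  rw [h6, h7]

variable {M : Type} [CommGroup M]

theorem prs_reg [Finite M] [Nontrivial M] (hM : ¬ p ∣ Nat.card M) {A : Type} [Group A] [Finite A]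
    {G : Type} [Group G] [Finite G] {ι : G →* A} (hι : Function.Injective ι) :
    prs p red G ⊆ prs p red (M ≀ᵣ A) := by
  have := Fintype.ofFinite M
  have := Fintype.ofFinite A
  have := Fintype.ofFinite G
  obtain ⟨lam, c, hc⟩ := exists_lam M
  exact (prs_of (not_dvd_fun hM) (thR_St hc hι)).trans (prs_iso (rIso M A))

/-- the pairs for the regular wreath product -/
theorem reg_union [Finite M] [Nontrivial M] (hM : ¬ p ∣ Nat.card M) (A : Type) [Group A]
    [Finite A] : prs p red (M ≀ᵣ A) = ⋃ K : Subgroup A, prs p red K := by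
  have := Fintype.ofFinite M
  have := Fintype.ofFinite A
  have := Fintype.ofFinite (M ≀ᵣ A)
  apply Set.Subset.antisymm
  · intro x hx
    obtain ⟨θ, h1⟩ := prs_to (φ := rph M A) (not_dvd_fun hM) (prs_iso (rIso M A).symm hx)
    exact Set.mem_iUnion.mpr ⟨_, h1⟩
  · refine Set.iUnion_subset fun K => ?_
    exact prs_reg hM (ι := K.subtype) K.subtype_injective

theorem prs_aug [Finite M] [Nontrivial M] (hM : ¬ p ∣ Nat.card M) {A : Type} [Group A] [Finite A]
    {G : Type} [Group G] [Finite G] {ι : G →* A} (hι : Function.Injective ι)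
    (h2 : 2 * Nat.card G < Nat.card A) : prs p red G ⊆ prs p red (prodOne M A) := by
  have := Fintype.ofFinite M
  have := Fintype.ofFinite A
  have := Fintype.ofFinite G
  have := Fintype.ofFinite (aug M A)
  obtain ⟨lam, c, hc⟩ := exists_lam M
  have : Finite (AW M A) := Finite.of_equiv _ SemidirectProduct.equivProd.symm
  exact (prs_of (not_dvd_aug hM) (thA_St hc hι h2)).trans (prs_iso (pIso M A))

/-- the pairs for `prodOne M A`, `A` perfect -/
theorem aug_union [Finite M] [Nontrivial M] (hM : ¬ p ∣ Nat.card M) (A : Type) [Group A]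
    [Finite A] (hA : commutator A = ⊤) :
    prs p red (prodOne M A) = ⋃ K : Subgroup A, prs p red K := by
  have := Fintype.ofFinite M
  have := Fintype.ofFinite A
  have := Fintype.ofFinite (aug M A)
  have : Finite (AW M A) := Finite.of_equiv _ SemidirectProduct.equivProd.symm
  have : Finite (prodOne M A) := Finite.of_equiv _ (pIso M A).toEquiv
  apply Set.Subset.antisymm
  · intro x hx
    obtain ⟨θ, h1⟩ := prs_to (φ := aph M A) (not_dvd_aug hM) (prs_iso (pIso M A).symm hx)
    exact Set.mem_iUnion.mpr ⟨_, h1⟩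
  · refine Set.iUnion_subset fun K => ?_
    by_cases hK : K = ⊤
    · have hS : St (aph M A) K.subtype (1 : aug M A →* ℂ) := by
        refine ⟨K.subtype_injective, fun a => ⟨fun _ => ?_, fun _ _ => rfl⟩⟩
        exact ⟨⟨a, by rw [hK]; trivial⟩, rfl⟩
      have := Fintype.ofFinite K
      exact (prs_of (not_dvd_aug hM) hS).trans (prs_iso (pIso M A))
    · exact prs_aug hM K.subtype_injective (index_perfect hA hK)

/-- a property of the pairs which holds for all groups if it holds for the universal ones -/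
theorem all_of_alt [Finite M] [Nontrivial M] (hM : ¬ p ∣ Nat.card M) {r : ℕ × ℕ → Prop}
    (h : ∀ m : ℕ, ∃ n : ℕ, m ≤ n ∧ ∀ x ∈ prs p red (prodOne M (alternatingGroup (Fin n))), r x)
    (G : Type) [Group G] [Finite G] : ∀ x ∈ prs p red G, r x := by
  intro x hx
  obtain ⟨n, hn, h1⟩ := h (2 * Nat.card G + 5)
  obtain ⟨ι, hι⟩ := exists_embA G (n := n) (by omega)
  exact h1 x (prs_aug hM hι (card_alt (by omega) (by omega)) hx)

end uni

end Pool.Agent.Hp21.UA
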