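import Pool.Agent.Hp21.UA.Wmap
import Pool.Agent.Hp21.UA.Irr

/-!
# Conjugacy of weights of `E ⋊ A`
-/

set_option autoImplicit false
set_option linter.unusedSectionVars false
set_option linter.style.haveILetI false

open scoped BigOperators Classical

noncomputable section

namespace Pool.Agent.Hp21.UA

open Pool.Agent.Y63.NV (IsClassFun centralValue redC IsWt numWtBlock IsBlock cut)
open Pool.Agent.Y63.AWC (IsIrreducibleCharacter pSubgroupSetoid ConjugateSubgroups)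
open Pool.Agent.Y930.NV
open Pool.Agent.Hp21.UN Pool.Agent.Hp21.AW
open Pool.Agent.H254R3.IN (IsIrr omega Om IsCl rep)
open Pool.Agent.Helper884

section gen

variable {G : Type} [Group G]

theorem cj_iff {w v : Pre G} : Cj w v ↔ ∃ c, v = tr w c := by
  constructor
  · rintro ⟨c, h1, h2⟩
    refine ⟨c, ?_⟩
    obtain ⟨R, ψ⟩ := v
    have h3 : R = trQ w.1 c := by
      ext g
      rw [mem_trQ]
      exact h1 g
    subst h3
    refine Sigma.ext rfl (heq_of_eq (ex_inj fun g => ?_))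
    rw [h2]
    exact (ex_tr w c g).symm
  · rintro ⟨c, rfl⟩
    exact cj_tr w c

theorem ex_norm {w : Pre G} (hw : IsIrreducibleCharacter w.2) {n : G}
    (hn : n ∈ Subgroup.normalizer (w.1 : Set G)) (g : G) : ex w (n * g * n⁻¹) = ex w g := by
  by_cases hg : g ∈ Subgroup.normalizer (w.1 : Set G)
  · have h1 := ex_coe w ⟨g, hg⟩
    have h2 := ex_coe w (⟨n, hn⟩ * ⟨g, hg⟩ * ⟨n, hn⟩⁻¹)
    have h3 := Pool.Agent.Y624.NV.irr_class hw ⟨n, hn⟩ ⟨g, hg⟩
    exact h2.trans (h3.trans h1.symm)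
  · have h2 : ¬ n * g * n⁻¹ ∈ Subgroup.normalizer (w.1 : Set G) := by
      intro h
      apply hg
      have h3 := mul_mem (mul_mem (inv_mem hn) h) hn
      have h4 : n⁻¹ * (n * g * n⁻¹) * n = g := by group
      rwa [h4] at h3
    unfold ex
    rw [dif_neg hg, dif_neg h2]

theorem sum_sub {A : Type} [Group A] [Fintype A] (K : Subgroup A) (f : A → ℂ) :
    ∑ s : K, f s = ∑ s : A, if s ∈ K then f s else 0 := by
  rw [← Finset.sum_filter]
  exact (Finset.sum_subtype (p := fun s => s ∈ K) _ (fun s => by simp) f).symm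

end gen

section wcj

variable {E A G : Type} [CommGroup E] [Group A] [Group G] [Fintype E] [Fintype A] [Fintype G]
  {φ : A →* MulAut E} {ι : G →* A} {θ : E →* ℂ} {p : ℕ} [hp : Fact p.Prime]

/-- the map on weights -/
def WW (φ : A →* MulAut E) (ι : G →* A) (θ : E →* ℂ) (w : Pre G) : Pre (E ⋊[φ] A) :=
  ⟨DH φ ι w.1, hatQ φ ι θ w.1 w.2⟩

/-- the value of the character -/
def gx (φ : A →* MulAut E) (ι : G →* A) (θ : E →* ℂ) (w : Pre G) (x : E ⋊[φ] A) : ℂ :=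
  (Nat.card (GN w.1) : ℂ)⁻¹ * ∑ s : A, if s ∈ AN ι w.1 then
    ∑ g : G, (if ι g = s⁻¹ * x.right * s then θ (φ s⁻¹ x.left) * ex w g else 0) else 0

theorem exW (h : St φ ι θ) (w : Pre G) {x : E ⋊[φ] A}
    (hx : x ∈ Subgroup.normalizer ((WW φ ι θ w).1 : Set (E ⋊[φ] A))) :
    ex (WW φ ι θ w) x = gx φ ι θ w x := by
  obtain ⟨Q, ζ⟩ := w
  have hx' : x ∈ Subgroup.normalizer (DH φ ι Q : Set (E ⋊[φ] A)) := hx
  have h1 : ex (WW φ ι θ ⟨Q, ζ⟩) x = hatQ φ ι θ Q ζ ⟨x, hx'⟩ := ex_coe (WW φ ι θ ⟨Q, ζ⟩) ⟨x, hx⟩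
  rw [h1]
  unfold hatQ hat gx
  congr 1
  obtain ⟨hx1, hx2⟩ := mem_norm.mp hx'
  rw [← sum_sub (AN ι Q) (fun s => ∑ g : G, (if ι g = s⁻¹ * x.right * s then
    θ (φ s⁻¹ x.left) * ex ⟨Q, ζ⟩ g else 0))]
  refine Finset.sum_congr rfl fun s _ => ?_
  unfold term
  have h2 : ∀ g : GN Q, (if iN ι Q g = s⁻¹ * (nIso φ ι Q ⟨x, hx'⟩).right * s then
      thN φ ι θ Q (phN φ ι Q s⁻¹ (nIso φ ι Q ⟨x, hx'⟩).left) * ζ g else 0) =
      (fun g : G => if ι g = (s : A)⁻¹ * x.right * s then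
        θ (φ (s : A)⁻¹ x.left) * ex ⟨Q, ζ⟩ g else 0) g := by
    intro g
    have e1 : iN ι Q g = s⁻¹ * (nIso φ ι Q ⟨x, hx'⟩).right * s ↔
        ι g = (s : A)⁻¹ * x.right * s := by
      rw [Subtype.ext_iff]
      exact Iff.rfl
    have e2 : ex ⟨Q, ζ⟩ (g : G) = ζ g := ex_coe ⟨Q, ζ⟩ g
    simp only [e1, e2]
    rfl
  refine Eq.trans (b := ∑ g : GN Q, (fun g : G => if ι g = (s : A)⁻¹ * x.right * s then
        θ (φ (s : A)⁻¹ x.left) * ex ⟨Q, ζ⟩ g else 0) g) ?_ ?_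
  · refine Finset.sum_congr rfl fun g _ => ?_
    rw [← h2 g]
    congr
  rw [sum_sub (GN Q) (fun g : G => if ι g = (s : A)⁻¹ * x.right * s then
        θ (φ (s : A)⁻¹ x.left) * ex ⟨Q, ζ⟩ g else 0)]
  refine Finset.sum_congr rfl fun g _ => ?_
  by_cases hg : g ∈ GN Q
  · rw [if_pos hg]
  · rw [if_neg hg]
    have e3 : ex ⟨Q, ζ⟩ g = 0 := by
      unfold ex
      exact dif_neg hg
    simp only [e3, mul_zero, ite_self]

theorem conj_inr' (a : A) (x : E ⋊[φ] A) :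
    (SemidirectProduct.inr a : E ⋊[φ] A) * x * (SemidirectProduct.inr a)⁻¹ =
      ⟨φ a x.left, a * x.right * a⁻¹⟩ := by
  ext
  · simp
  · simp

theorem DH_trQ (h : St φ ι θ) (Q : Subgroup G) (c : G) :
    DH φ ι (trQ Q c) = trQ (DH φ ι Q) (SemidirectProduct.inr (ι c)) := by
  ext x
  rw [mem_trQ, conj_inr', mem_DH, mem_DH]
  have e1 : φ (ι c) x.left = 1 ↔ x.left = 1 := by
    constructor
    · intro h1
      exact (φ (ι c)).injective (h1.trans (map_one _).symm)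
    · intro h1
      rw [h1, map_one]
  refine and_congr e1.symm ?_
  constructor
  · rintro ⟨d, hd, h1⟩
    refine ⟨c * d * c⁻¹, mem_trQ.mp hd, ?_⟩
    change _ = ι c * x.right * (ι c)⁻¹
    rw [← h1, map_mul, map_mul, map_inv]
  · rintro ⟨d, hd, h1⟩
    refine ⟨c⁻¹ * d * c, mem_trQ.mpr ?_, ?_⟩
    · have : c * (c⁻¹ * d * c) * c⁻¹ = d := by group
      rwa [this]
    · change ι d = ι c * x.right * (ι c)⁻¹ at h1
      rw [map_mul, map_mul, map_inv, h1]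
      group

theorem AN_trQ (h : St φ ι θ) (Q : Subgroup G) (c : G) (s : A) :
    s ∈ AN ι (trQ Q c) ↔ ι c * s * (ι c)⁻¹ ∈ AN ι Q := by
  have h1 := mem_norm_trQ (Q := DH φ ι Q) (c := (SemidirectProduct.inr (ι c) : E ⋊[φ] A))
    (g := SemidirectProduct.inr s)
  rw [← DH_trQ h, mem_norm, conj_inr', mem_norm] at h1
  have e1 : (SemidirectProduct.inr s : E ⋊[φ] A).left ∈ EC φ ι (trQ Q c) := by
    rw [SemidirectProduct.left_inr]
    exact one_mem _
  have e2 : (⟨φ (ι c) (SemidirectProduct.inr s : E ⋊[φ] A).left,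
      ι c * (SemidirectProduct.inr s : E ⋊[φ] A).right * (ι c)⁻¹⟩ : E ⋊[φ] A).left ∈
      EC φ ι Q := by
    simp only [SemidirectProduct.left_inr, map_one]
    exact one_mem _
  have h2 := (and_iff_right e1).symm.trans (h1.trans (and_iff_right e2))
  exact h2

theorem gx_tr (h : St φ ι θ) (w : Pre G) (c : G) (x : E ⋊[φ] A) :
    gx φ ι θ (tr w c) x = gx φ ι θ w (SemidirectProduct.inr (ι c) * x *
      (SemidirectProduct.inr (ι c))⁻¹) := by
  unfold gx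
  have h1 : Nat.card (GN (tr w c).1) = Nat.card (GN w.1) := Nat.card_congr (cI w.1 c).toEquiv
  rw [h1]
  congr 1
  refine Fintype.sum_equiv (MulAut.conj (ι c)).toEquiv _ _ fun s => ?_
  have e1 : (MulAut.conj (ι c)).toEquiv s = ι c * s * (ι c)⁻¹ := rfl
  rw [e1]
  have e2 : s ∈ AN ι (tr w c).1 ↔ ι c * s * (ι c)⁻¹ ∈ AN ι w.1 := AN_trQ h w.1 c s
  by_cases hs : s ∈ AN ι (tr w c).1
  · rw [if_pos hs, if_pos (e2.mp hs)]
    refine Fintype.sum_equiv (MulAut.conj c).toEquiv _ _ fun g => ?_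
    have e3 : (MulAut.conj c).toEquiv g = c * g * c⁻¹ := rfl
    rw [e3, conj_inr', ← ex_tr]
    have e4 : ι g = s⁻¹ * x.right * s ↔ ι (c * g * c⁻¹) = (ι c * s * (ι c)⁻¹)⁻¹ *
        (⟨φ (ι c) x.left, ι c * x.right * (ι c)⁻¹⟩ : E ⋊[φ] A).right * (ι c * s * (ι c)⁻¹) := by
      change _ ↔ _ = (ι c * s * (ι c)⁻¹)⁻¹ * (ι c * x.right * (ι c)⁻¹) * (ι c * s * (ι c)⁻¹)
      rw [map_mul, map_mul, map_inv]
      constructor
      · intro h2
        rw [h2]
        group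
      · intro h2
        have h3 : ι g = (ι c)⁻¹ * (ι c * ι g * (ι c)⁻¹) * ι c := by group
        rw [h3, h2]
        group
    have e5 : θ (φ (ι c * s * (ι c)⁻¹)⁻¹
        (⟨φ (ι c) x.left, ι c * x.right * (ι c)⁻¹⟩ : E ⋊[φ] A).left) = θ (φ s⁻¹ x.left) := by
      change θ (φ (ι c * s * (ι c)⁻¹)⁻¹ (φ (ι c) x.left)) = _
      rw [phi_mul]
      have : (ι c * s * (ι c)⁻¹)⁻¹ * ι c = ι c * s⁻¹ := by group
      rw [this, ← phi_mul, h.fix]
    rw [e5]
    simp only [e4]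
  · rw [if_neg hs, if_neg fun h' => hs (e2.mpr h')]

theorem ex_WW_tr (h : St φ ι θ) (w : Pre G) (c : G) (x : E ⋊[φ] A) :
    ex (WW φ ι θ (tr w c)) x = ex (WW φ ι θ w) (SemidirectProduct.inr (ι c) * x *
      (SemidirectProduct.inr (ι c))⁻¹) := by
  have h1 : x ∈ Subgroup.normalizer ((WW φ ι θ (tr w c)).1 : Set (E ⋊[φ] A)) ↔
      SemidirectProduct.inr (ι c) * x * (SemidirectProduct.inr (ι c))⁻¹ ∈
        Subgroup.normalizer ((WW φ ι θ w).1 : Set (E ⋊[φ] A)) := by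
    have h2 : (WW φ ι θ (tr w c)).1 = trQ (WW φ ι θ w).1 (SemidirectProduct.inr (ι c)) :=
      DH_trQ h w.1 c
    rw [h2]
    exact mem_norm_trQ
  by_cases hx : x ∈ Subgroup.normalizer ((WW φ ι θ (tr w c)).1 : Set (E ⋊[φ] A))
  · rw [exW h _ hx, exW h _ (h1.mp hx), gx_tr h]
  · unfold ex
    rw [dif_neg hx, dif_neg fun h' => hx (h1.mpr h')]

theorem WW_tr (h : St φ ι θ) (w : Pre G) (c : G) : Cj (WW φ ι θ w) (WW φ ι θ (tr w c)) := by
  refine ⟨SemidirectProduct.inr (ι c), fun x => ?_, ex_WW_tr h w c⟩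
  have h2 : (WW φ ι θ (tr w c)).1 = trQ (WW φ ι θ w).1 (SemidirectProduct.inr (ι c)) :=
    DH_trQ h w.1 c
  rw [h2, mem_trQ]

/-- the values on `E` -/
theorem gx_inl (h : St φ ι θ) (w : Pre G) (m : E) :
    gx φ ι θ w (SemidirectProduct.inl m) = (Nat.card (GN w.1) : ℂ)⁻¹ * ex w 1 *
      ∑ s : AN ι w.1, θ (φ (s : A)⁻¹ m) := by
  unfold gx
  have h0 : ∑ s : AN ι w.1, θ (φ (s : A)⁻¹ m) =
      ∑ s : A, if s ∈ AN ι w.1 then θ (φ s⁻¹ m) else 0 := sum_sub (AN ι w.1) (fun s => θ (φ s⁻¹ m))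
  rw [mul_assoc, h0]
  congr 1
  rw [Finset.mul_sum (Finset.univ : Finset A) (fun s : A => if s ∈ AN ι w.1 then
    θ (φ s⁻¹ m) else 0) (ex w 1)]
  refine Finset.sum_congr rfl fun s _ => ?_
  by_cases hs : s ∈ AN ι w.1
  · rw [if_pos hs, if_pos hs, Finset.sum_eq_single 1]
    · rw [if_pos (by rw [SemidirectProduct.right_inl, map_one]; group),
        SemidirectProduct.left_inl, mul_comm]
    · intro g _ hg
      rw [if_neg]
      intro h1
      apply hg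
      apply h.inj
      rw [h1, SemidirectProduct.right_inl, map_one]
      group
    · intro h'
      exact absurd (Finset.mem_univ _) h'
  · rw [if_neg hs, if_neg hs, mul_zero]

end wcj

end Pool.Agent.Hp21.UA
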