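import Pool.Agent.Hp21.UA.Wcj

/-!
# Conjugate weights of `E ⋊ A` come from conjugate weights of `G`
-/

set_option autoImplicit false
set_option linter.unusedSectionVars false
set_option linter.unusedVariables false
set_option linter.style.haveILetI false

open scoped BigOperators Classical

noncomputable section

namespace Pool.Agent.Hp21.UA

open Pool.Agent.Y63.NV (IsClassFun centralValue redC IsWt numWtBlock IsBlock cut)
open Pool.Agent.Y63.AWC (IsIrreducibleCharacter pSubgroupSetoid ConjugateSubgroups)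
open Pool.Agent.Y930.NV
open Pool.Agent.Hp21.UN Pool.Agent.Hp21.AW
open Pool.Agent.H254R3.IN (IsIrr omega Om IsCl rep)
open Pool.Agent.Helper884

section wcj

variable {E A G : Type} [CommGroup E] [Group A] [Group G] [Fintype E] [Fintype A] [Fintype G]
  {φ : A →* MulAut E} {ι : G →* A} {θ : E →* ℂ} {p : ℕ} [hp : Fact p.Prime]

theorem irrWW (h : St φ ι θ) (hpE : ¬ p ∣ Nat.card E) {w : Pre G} (hw : IsPGroup p w.1)
    (hwt : IsWt p (w.1.subgroupOf (GN w.1)) w.2) :
    IsIrreducibleCharacter (WW φ ι θ w).2 :=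
  ((wtQ_iff h hpE hw hwt.irr).mpr hwt).irr

/-- conjugation by an element of `A` is enough -/
theorem cj_right {w v : Pre G} (hw : IsIrreducibleCharacter (WW φ ι θ w).2)
    (hc : Cj (WW φ ι θ w) (WW φ ι θ v)) : ∃ a : A,
      DH φ ι v.1 = trQ (DH φ ι w.1) (SemidirectProduct.inr a) ∧
      ∀ x, ex (WW φ ι θ v) x = ex (WW φ ι θ w) (SemidirectProduct.inr a * x *
        (SemidirectProduct.inr a)⁻¹) := by
  obtain ⟨c, h1, h2⟩ := hc
  have hc' : c = SemidirectProduct.inl c.left * SemidirectProduct.inr c.right :=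
    (SemidirectProduct.inl_left_mul_inr_right c).symm
  have hn : (SemidirectProduct.inl c.left : E ⋊[φ] A) ∈
      Subgroup.normalizer ((WW φ ι θ w).1 : Set (E ⋊[φ] A)) := by
    refine mem_norm.mpr ⟨?_, ?_⟩
    · rw [SemidirectProduct.left_inl]
      intro d hd
      have h3 : c⁻¹ * SemidirectProduct.inr (ι d) * c ∈ (WW φ ι θ v).1 := by
        rw [h1]
        have e1 : c * (c⁻¹ * SemidirectProduct.inr (ι d) * c) * c⁻¹ =
            SemidirectProduct.inr (ι d) := by group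
        rw [e1]
        exact mem_DH.mpr ⟨rfl, d, hd, rfl⟩
      have h4 := (mem_DH.mp h3).1
      have h5 : c * (c⁻¹ * SemidirectProduct.inr (ι d) * c) = SemidirectProduct.inr (ι d) * c := by
        group
      have h6 := congrArg SemidirectProduct.left h5
      rw [SemidirectProduct.mul_left, h4, map_one, mul_one, SemidirectProduct.mul_left,
        SemidirectProduct.left_inr, SemidirectProduct.right_inr, one_mul] at h6
      exact h6.symm
    · rw [SemidirectProduct.right_inl]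
      exact one_mem _
  have key : ∀ x : E ⋊[φ] A, c * x * c⁻¹ = SemidirectProduct.inl c.left *
      (SemidirectProduct.inr c.right * x * (SemidirectProduct.inr c.right)⁻¹) *
      (SemidirectProduct.inl c.left)⁻¹ := by
    intro x
    rw [hc']
    simp only [SemidirectProduct.mul_left, SemidirectProduct.mul_right,
      SemidirectProduct.left_inl, SemidirectProduct.right_inl, SemidirectProduct.left_inr,
      SemidirectProduct.right_inr, map_one, mul_one, one_mul, mul_inv_rev, mul_assoc]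
  refine ⟨c.right, ?_, fun x => ?_⟩
  · ext x
    rw [mem_trQ]
    have h3 := h1 x
    rw [key] at h3
    exact h3.trans (Subgroup.mem_normalizer_iff.mp hn _).symm
  · rw [h2, key]
    exact ex_norm hw hn _

theorem sum_EC (R : Subgroup G) (b : A) : ∑ m : EC φ ι R, θ (φ b m) * thi θ (m : E) =
    if (∀ m ∈ EC φ ι R, θ (φ b m) = θ m) then (Nat.card (EC φ ι R) : ℂ) else 0 := by
  have h1 := sum_th (((θ.comp (φ b).toMonoidHom) * (thi θ)).comp (EC φ ι R).subtype)
  have h2 : (∀ e, (((θ.comp (φ b).toMonoidHom) * (thi θ)).comp (EC φ ι R).subtype) e = 1) ↔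
      ∀ m ∈ EC φ ι R, θ (φ b m) = θ m := by
    constructor
    · intro h3 m hm
      have h4 : θ (φ b m) * thi θ m = 1 := h3 ⟨m, hm⟩
      rw [thi_apply] at h4
      exact mul_right_cancel₀ (th_ne θ m⁻¹) (h4.trans (th_mul_inv θ m).symm)
    · intro h3 m
      change θ (φ b m) * thi θ (m : E) = 1
      rw [h3 m m.2, thi_apply, th_mul_inv]
  simp only [h2] at h1
  rw [← h1]
  rfl

theorem inl_norm {R : Subgroup G} {m : E} (hm : m ∈ EC φ ι R) :
    (SemidirectProduct.inl m : E ⋊[φ] A) ∈ Subgroup.normalizer (DH φ ι R : Set (E ⋊[φ] A)) := by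
  refine mem_norm.mpr ⟨?_, ?_⟩
  · rw [SemidirectProduct.left_inl]
    exact hm
  · rw [SemidirectProduct.right_inl]
    exact one_mem _

/-- the key step: `θ` is fixed up to `N(Q)` -/
theorem exists_s (h : St φ ι θ) {w v : Pre G} (hv : IsIrreducibleCharacter v.2) {a : A}
    (h1 : DH φ ι v.1 = trQ (DH φ ι w.1) (SemidirectProduct.inr a))
    (h2 : ∀ x, ex (WW φ ι θ v) x = ex (WW φ ι θ w) (SemidirectProduct.inr a * x *
        (SemidirectProduct.inr a)⁻¹)) :
    ∃ s : AN ι w.1, ∀ m ∈ EC φ ι v.1, θ (φ ((s : A)⁻¹ * a) m) = θ m := by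
  by_contra hcon
  push Not at hcon
  have h3 : ∀ m : EC φ ι v.1, (Nat.card (GN v.1) : ℂ)⁻¹ * ex v 1 *
      ∑ s : AN ι v.1, θ (φ (s : A)⁻¹ m) = (Nat.card (GN w.1) : ℂ)⁻¹ * ex w 1 *
      ∑ s : AN ι w.1, θ (φ ((s : A)⁻¹ * a) m) := by
    intro m
    have i1 : (SemidirectProduct.inl (m : E) : E ⋊[φ] A) ∈
        Subgroup.normalizer ((WW φ ι θ v).1 : Set (E ⋊[φ] A)) := inl_norm m.2
    have h4 := h2 (SemidirectProduct.inl (m : E))
    have e1 : (SemidirectProduct.inr a : E ⋊[φ] A) * SemidirectProduct.inl (m : E) *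
        (SemidirectProduct.inr a)⁻¹ = SemidirectProduct.inl (φ a m) := by
      rw [conj_inr']
      ext
      · rfl
      · simp
    have i2 : (SemidirectProduct.inl (φ a m) : E ⋊[φ] A) ∈
        Subgroup.normalizer ((WW φ ι θ w).1 : Set (E ⋊[φ] A)) := by
      have i3 : (SemidirectProduct.inl (m : E) : E ⋊[φ] A) ∈ Subgroup.normalizer
          ((trQ (DH φ ι w.1) (SemidirectProduct.inr a) : Subgroup (E ⋊[φ] A)) :
            Set (E ⋊[φ] A)) := by
        rw [← h1]
        exact i1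
      have i4 := mem_norm_trQ.mp i3
      rw [e1] at i4
      exact i4
    rw [e1, exW h v i1, exW h w i2, gx_inl h, gx_inl h] at h4
    rw [h4]
    congr 1
    refine Finset.sum_congr rfl fun s _ => ?_
    rw [phi_mul]
  have h4 : ∑ m : EC φ ι v.1, ((Nat.card (GN v.1) : ℂ)⁻¹ * ex v 1 *
      ∑ s : AN ι v.1, θ (φ (s : A)⁻¹ m)) * thi θ (m : E) =
      ∑ m : EC φ ι v.1, ((Nat.card (GN w.1) : ℂ)⁻¹ * ex w 1 *
      ∑ s : AN ι w.1, θ (φ ((s : A)⁻¹ * a) m)) * thi θ (m : E) :=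
    Finset.sum_congr rfl fun m _ => by rw [h3 m]
  have h5 : ∀ {κ : Type} [Fintype κ] (c : ℂ) (F : κ → A), ∑ m : EC φ ι v.1, (c *
      ∑ s : κ, θ (φ (F s) m)) * thi θ (m : E) = c * ∑ s : κ,
        if (∀ m ∈ EC φ ι v.1, θ (φ (F s) m) = θ m) then (Nat.card (EC φ ι v.1) : ℂ) else 0 := by
    intro κ _ c F
    rw [Finset.sum_congr rfl fun (s : κ) _ => (sum_EC v.1 (F s)).symm, Finset.sum_comm,
      Finset.mul_sum]
    refine Finset.sum_congr rfl fun m _ => ?_
    rw [mul_assoc, Finset.sum_mul]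
  rw [h5 _ (fun s : AN ι v.1 => (s : A)⁻¹), h5 _ (fun s : AN ι w.1 => (s : A)⁻¹ * a)] at h4
  have h6 : ∑ s : AN ι w.1, (if (∀ m ∈ EC φ ι v.1, θ (φ ((s : A)⁻¹ * a) m) = θ m) then
      (Nat.card (EC φ ι v.1) : ℂ) else 0) = 0 := by
    refine Finset.sum_eq_zero fun s _ => if_neg ?_
    push Not
    exact hcon s
  rw [h6, mul_zero, ← Finset.sum_filter, Finset.sum_const, nsmul_eq_mul] at h4
  have n1 : ex v 1 ≠ 0 := by
    have h7 : ex v ((1 : GN v.1) : G) = v.2 1 := ex_coe v 1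
    rw [show (1 : G) = ((1 : GN v.1) : G) from rfl, h7]
    exact Pool.Agent.H254R3.IN.IsIrr.one_ne hv
  have n2 : (Nat.card (GN v.1) : ℂ)⁻¹ ≠ 0 := inv_ne_zero cG
  have n3 : (Nat.card (EC φ ι v.1) : ℂ) ≠ 0 := cG
  have n4 : ((Finset.univ.filter fun s : AN ι v.1 => ∀ m ∈ EC φ ι v.1,
      θ (φ (s : A)⁻¹ m) = θ m).card : ℂ) ≠ 0 := by
    have : (Finset.univ.filter fun s : AN ι v.1 => ∀ m ∈ EC φ ι v.1,
      θ (φ (s : A)⁻¹ m) = θ m).Nonempty := by
      refine ⟨1, Finset.mem_filter.mpr ⟨Finset.mem_univ _, fun m _ => ?_⟩⟩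
      rw [Subgroup.coe_one, inv_one, phi_one]
    exact_mod_cast (Finset.card_pos.mpr this).ne'
  exact mul_ne_zero (mul_ne_zero n2 n1) (mul_ne_zero n4 n3) h4

theorem DH_inj (h : St φ ι θ) {Q R : Subgroup G} (he : DH φ ι Q = DH φ ι R) : Q = R := by
  ext g
  have h1 : ∀ Q : Subgroup G, (SemidirectProduct.inr (ι g) : E ⋊[φ] A) ∈ DH φ ι Q ↔ g ∈ Q := by
    intro Q
    rw [mem_DH]
    constructor
    · rintro ⟨-, d, hd, h2⟩
      rw [SemidirectProduct.right_inr] at h2
      rwa [← h.inj h2]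
    · intro hg
      exact ⟨rfl, g, hg, rfl⟩
  rw [← h1 Q, ← h1 R, he]

/-- **conjugate images come from conjugate weights** -/
theorem cj_of (h : St φ ι θ) (hpE : ¬ p ∣ Nat.card E) {w v : Pre G} (hw : IsPGroup p w.1)
    (hv : IsPGroup p v.1) (hwt : IsWt p (w.1.subgroupOf (GN w.1)) w.2)
    (hvt : IsWt p (v.1.subgroupOf (GN v.1)) v.2) (hc : Cj (WW φ ι θ w) (WW φ ι θ v)) :
    Cj w v := by
  obtain ⟨a, h1, h2⟩ := cj_right (irrWW h hpE hw hwt) hc
  obtain ⟨s, hs⟩ := exists_s h hvt.irr h1 h2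
  have h3 : ∀ e, θ (φ ((s : A)⁻¹ * a) e) = θ e := by
    intro e
    refine th_unique (φ := φ) (ι := ι) hpE hv (θ₁ := θ.comp (φ ((s : A)⁻¹ * a)).toMonoidHom)
      (θ₂ := θ) ?_ ?_ hs e
    · intro d hd e
      change θ (φ ((s : A)⁻¹ * a) (φ (ι d) e)) = θ (φ ((s : A)⁻¹ * a) e)
      have h4 : (SemidirectProduct.inr (ι d) : E ⋊[φ] A) ∈
          trQ (DH φ ι w.1) (SemidirectProduct.inr a) := by
        rw [← h1]
        exact mem_DH.mpr ⟨rfl, d, hd, rfl⟩
      rw [mem_trQ, conj_inr'] at h4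
      obtain ⟨-, q, hq, h5⟩ := mem_DH.mp h4
      change ι q = a * ι d * a⁻¹ at h5
      obtain ⟨q', hq', h6⟩ := AN_conj (inv_mem s.2) hq
      rw [inv_inv] at h6
      have h7 : (s : A)⁻¹ * a * ι d = ι q' * ((s : A)⁻¹ * a) := by
        rw [h6, h5]
        group
      rw [phi_mul, h7, ← phi_mul, h.fix]
    · exact fun d _ e => h.fix d e
  obtain ⟨c, hc'⟩ := (h.stab _).mp h3
  have h4 : a = s * ι c := by
    rw [hc']
    group
  have hsn : (SemidirectProduct.inr (s : A) : E ⋊[φ] A) ∈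
      Subgroup.normalizer ((WW φ ι θ w).1 : Set (E ⋊[φ] A)) := by
    refine mem_norm.mpr ⟨?_, ?_⟩
    · rw [SemidirectProduct.left_inr]
      exact one_mem _
    · rw [SemidirectProduct.right_inr]
      exact s.2
  have key : ∀ x : E ⋊[φ] A, SemidirectProduct.inr a * x * (SemidirectProduct.inr a)⁻¹ =
      SemidirectProduct.inr (s : A) * (SemidirectProduct.inr (ι c) * x *
        (SemidirectProduct.inr (ι c))⁻¹) * (SemidirectProduct.inr (s : A))⁻¹ := by
    intro x
    rw [h4, map_mul]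
    group
  have h5 : v.1 = trQ w.1 c := by
    apply DH_inj h
    rw [h1, DH_trQ h]
    ext x
    rw [mem_trQ, mem_trQ, key]
    exact (Subgroup.mem_normalizer_iff.mp hsn _).symm
  have h6 : ∀ x, ex (WW φ ι θ v) x = ex (WW φ ι θ (tr w c)) x := by
    intro x
    rw [h2, key, ex_WW_tr h, ex_norm (irrWW h hpE hw hwt) hsn]
  obtain ⟨R, η⟩ := v
  change R = trQ w.1 c at h5
  subst h5
  have h7 : hatQ φ ι θ (trQ w.1 c) η = hatQ φ ι θ (trQ w.1 c) (tr w c).2 := ex_inj h6
  have hR : IsPGroup p (trQ w.1 c) := hv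
  have hloc := h.loc (φ := φ) hpE hR
  have hwt' : IsWt p ((trQ w.1 c).subgroupOf (GN (trQ w.1 c))) (tr w c).2 :=
    Pool.Agent.Y624.NV.isWt_comp (cI w.1 c) (Q := (trQ w.1 c).subgroupOf _)
      (fun y => (mem_trQ (Q := w.1) (c := c) (g := y)).symm) hwt
  have h8 : η = (tr w c).2 := by
    refine hat_inj_cl hloc (irr_cl' hvt.irr) (irr_cl' hwt'.irr) ?_
    funext z
    obtain ⟨y, rfl⟩ := (nIso φ ι (trQ w.1 c)).surjective z
    exact congrFun h7 y
  rw [h8]
  exact cj_tr w c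

end wcj

end Pool.Agent.Hp21.UA
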