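import Pool.Agent.Hp21.UN.All
import Pool.Agent.Hp21.AW.Val
import Pool.Agent.Y624.NV.Trn
import Pool.Agent.Y63.NV.Bawc

/-!
# Classes of weights
-/

set_option autoImplicit false
set_option linter.unusedSectionVars false
set_option linter.style.haveILetI false

open scoped BigOperators Classical

noncomputable section

namespace Pool.Agent.Hp21.UA

open Pool.Agent.Y63.NV (IsClassFun centralValue redC IsWt numWtBlock IsBlock)
open Pool.Agent.Y63.AWC (IsIrreducibleCharacter pSubgroupSetoid ConjugateSubgroups)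

section wei

variable {G : Type} [Group G]

/-- a subgroup and a function on its normalizer -/
abbrev Pre (G : Type) [Group G] : Type :=
  Σ Q : Subgroup G, (Subgroup.normalizer (Q : Set G) → ℂ)

/-- extension by zero -/
def ex (w : Pre G) (g : G) : ℂ :=
  if h : g ∈ Subgroup.normalizer (w.1 : Set G) then w.2 ⟨g, h⟩ else 0

theorem ex_coe (w : Pre G) (y : Subgroup.normalizer (w.1 : Set G)) : ex w (y : G) = w.2 y := by
  unfold ex
  rw [dif_pos y.2]

/-- conjugacy -/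
def Cj (w w' : Pre G) : Prop :=
  ∃ c : G, (∀ g, g ∈ w'.1 ↔ c * g * c⁻¹ ∈ w.1) ∧ ∀ g, ex w' g = ex w (c * g * c⁻¹)

theorem Cj.refl (w : Pre G) : Cj w w := ⟨1, by simp, by simp⟩

theorem Cj.symm {w w' : Pre G} (h : Cj w w') : Cj w' w := by
  obtain ⟨c, h1, h2⟩ := h
  refine ⟨c⁻¹, fun g => ?_, fun g => ?_⟩
  · rw [h1]
    have : c * (c⁻¹ * g * c⁻¹⁻¹) * c⁻¹ = g := by group
    rw [this]
  · rw [h2]
    have : c * (c⁻¹ * g * c⁻¹⁻¹) * c⁻¹ = g := by group
    rw [this]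

theorem Cj.trans {w w' w'' : Pre G} (h : Cj w w') (h' : Cj w' w'') : Cj w w'' := by
  obtain ⟨c, h1, h2⟩ := h
  obtain ⟨d, h3, h4⟩ := h'
  refine ⟨c * d, fun g => ?_, fun g => ?_⟩
  · rw [h3, h1]
    have : c * (d * g * d⁻¹) * c⁻¹ = c * d * g * (c * d)⁻¹ := by group
    rw [this]
  · rw [h4, h2]
    have : c * (d * g * d⁻¹) * c⁻¹ = c * d * g * (c * d)⁻¹ := by group
    rw [this]

theorem ex_inj {Q : Subgroup G} {χ ψ : Subgroup.normalizer (Q : Set G) → ℂ}
    (h : ∀ g, ex ⟨Q, χ⟩ g = ex ⟨Q, ψ⟩ g) : χ = ψ := by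
  funext y
  have := h y
  rwa [ex_coe, ex_coe] at this

/-- the conjugate subgroup -/
def trQ (Q : Subgroup G) (c : G) : Subgroup G := Q.map (MulAut.conj c⁻¹).toMonoidHom

theorem mem_trQ {Q : Subgroup G} {c g : G} : g ∈ trQ Q c ↔ c * g * c⁻¹ ∈ Q := by
  change g ∈ Q.map (MulAut.conj c⁻¹).toMonoidHom ↔ _
  rw [Subgroup.mem_map]
  constructor
  · rintro ⟨d, hd, rfl⟩
    change c * (c⁻¹ * d * c⁻¹⁻¹) * c⁻¹ ∈ Q
    have : c * (c⁻¹ * d * c⁻¹⁻¹) * c⁻¹ = d := by group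
    rwa [this]
  · intro h
    refine ⟨_, h, ?_⟩
    change c⁻¹ * (c * g * c⁻¹) * c⁻¹⁻¹ = _
    group

theorem mem_norm_trQ {Q : Subgroup G} {c g : G} :
    g ∈ Subgroup.normalizer (trQ Q c : Set G) ↔
      c * g * c⁻¹ ∈ Subgroup.normalizer (Q : Set G) := by
  rw [Subgroup.mem_normalizer_iff, Subgroup.mem_normalizer_iff]
  constructor
  · intro h x
    have h1 := h (c⁻¹ * x * c)
    rw [mem_trQ, mem_trQ] at h1
    have e1 : c * (c⁻¹ * x * c) * c⁻¹ = x := by group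
    have e2 : c * (g * (c⁻¹ * x * c) * g⁻¹) * c⁻¹ = c * g * c⁻¹ * x * (c * g * c⁻¹)⁻¹ := by group
    rwa [e1, e2] at h1
  · intro h x
    have h1 := h (c * x * c⁻¹)
    rw [mem_trQ, mem_trQ]
    have e2 : c * (g * x * g⁻¹) * c⁻¹ = c * g * c⁻¹ * (c * x * c⁻¹) * (c * g * c⁻¹)⁻¹ := by group
    rw [e2]
    exact h1

/-- conjugation by `c` -/
def cI (Q : Subgroup G) (c : G) :
    Subgroup.normalizer (trQ Q c : Set G) ≃* Subgroup.normalizer (Q : Set G) where
  toFun y := ⟨c * y * c⁻¹, mem_norm_trQ.mp y.2⟩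
  invFun y := ⟨c⁻¹ * y * c, mem_norm_trQ.mpr (by
    have : c * (c⁻¹ * y * c) * c⁻¹ = y := by group
    rw [this]
    exact y.2)⟩
  left_inv y := Subtype.ext (by simp only []; group)
  right_inv y := Subtype.ext (by simp only []; group)
  map_mul' x y := Subtype.ext (by simp only [Subgroup.coe_mul]; group)

theorem cI_coe (Q : Subgroup G) (c : G) (y : Subgroup.normalizer (trQ Q c : Set G)) :
    ((cI Q c y : Subgroup.normalizer (Q : Set G)) : G) = c * y * c⁻¹ := rfl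

/-- the conjugate data -/
def tr (w : Pre G) (c : G) : Pre G := ⟨trQ w.1 c, fun y => w.2 (cI w.1 c y)⟩

theorem ex_tr (w : Pre G) (c g : G) : ex (tr w c) g = ex w (c * g * c⁻¹) := by
  by_cases h : g ∈ Subgroup.normalizer ((tr w c).1 : Set G)
  · have h2 := mem_norm_trQ.mp h
    unfold ex
    rw [dif_pos h, dif_pos h2]
    rfl
  · have h2 : ¬ c * g * c⁻¹ ∈ Subgroup.normalizer (w.1 : Set G) := fun h' =>
      h (mem_norm_trQ.mpr h')
    unfold ex
    rw [dif_neg h, dif_neg h2]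

theorem cj_tr (w : Pre G) (c : G) : Cj w (tr w c) := ⟨c, fun _ => mem_trQ, ex_tr w c⟩

variable {F : Type} [Field F]

/-- `w` is a weight of the block `B` -/
structure IsW (p : ℕ) (red : integralClosure ℤ ℂ →+* F) (B : (G → F) → F) (w : Pre G) : Prop where
  pg : IsPGroup p w.1
  wt : IsWt p (w.1.subgroupOf (Subgroup.normalizer (w.1 : Set G))) w.2
  blk : ∀ f : G → F, IsClassFun f → centralValue red w.2 (fun x => f x) = B f

variable {p : ℕ} {red : integralClosure ℤ ℂ →+* F} {B : (G → F) → F}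

theorem isW_tr {w : Pre G} (h : IsW p red B w) (c : G) : IsW p red B (tr w c) := by
  obtain ⟨Q, χ⟩ := w
  obtain ⟨h1, h2, h3⟩ := h
  refine ⟨h1.map _, ?_, fun f hf => ?_⟩
  · exact Pool.Agent.Y624.NV.isWt_comp (cI Q c) (Q := (trQ Q c).subgroupOf _)
      (fun y => (mem_trQ (Q := Q) (c := c) (g := y)).symm) h2
  · have h4 := Pool.Agent.Y624.NV.centralValue_comp red (cI Q c) h2.irr
      (f := fun x => f x) (fun g x => hf g x)
    rw [← h3 f hf]
    refine Eq.trans ?_ h4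
    change centralValue red (fun y => χ (cI Q c y)) (fun y => f y) =
      centralValue red (fun y => χ (cI Q c y)) (fun y => f (cI Q c y))
    congr 1
    funext y
    rw [cI_coe, hf]

/-- the type of all weights of `B` -/
def WT (p : ℕ) (red : integralClosure ℤ ℂ →+* F) (B : (G → F) → F) : Type :=
  {w : Pre G // IsW p red B w}

/-- conjugacy of weights -/
def wSet (p : ℕ) (red : integralClosure ℤ ℂ →+* F) (B : (G → F) → F) : Setoid (WT p red B) where
  r w w' := Cj w.1 w'.1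
  iseqv := ⟨fun w => Cj.refl w.1, fun h => h.symm, fun h h' => h.trans h'⟩

theorem eq_of_cj {Q : Subgroup G} {χ ψ : Subgroup.normalizer (Q : Set G) → ℂ}
    (hχ : IsIrreducibleCharacter χ) (h : Cj ⟨Q, χ⟩ ⟨Q, ψ⟩) : χ = ψ := by
  obtain ⟨c, h1, h2⟩ := h
  have hc : c ∈ Subgroup.normalizer (Q : Set G) := Subgroup.mem_normalizer_iff.mpr h1
  funext y
  have h3 := h2 y
  have h4 : (c : G) * y * c⁻¹ = ((⟨c, hc⟩ * y * ⟨c, hc⟩⁻¹ : Subgroup.normalizer (Q : Set G)) : G) :=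
    rfl
  have h5 : ex ⟨Q, ψ⟩ y = ψ y := ex_coe ⟨Q, ψ⟩ y
  have h6 : ex ⟨Q, χ⟩ ((⟨c, hc⟩ * y * ⟨c, hc⟩⁻¹ : Subgroup.normalizer (Q : Set G)) : G) =
      χ (⟨c, hc⟩ * y * ⟨c, hc⟩⁻¹) := ex_coe ⟨Q, χ⟩ _
  rw [h4, h5, h6] at h3
  rw [h3]
  exact (Pool.Agent.Y624.NV.irr_class hχ ⟨c, hc⟩ y).symm

/-- **The number of classes of weights.** -/
theorem numWts_quot [Finite G] :
    (∑ᶠ c : Quotient (pSubgroupSetoid p G), numWtBlock p red c.out.1 B) =
      Nat.card (Quotient (wSet p red B)) := by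
  let T : Quotient (pSubgroupSetoid p G) → Type := fun c =>
    {χ : Subgroup.normalizer (c.out.1 : Set G) → ℂ //
      IsWt p (c.out.1.subgroupOf (Subgroup.normalizer (c.out.1 : Set G))) χ ∧
      ∀ f : G → F, IsClassFun f → centralValue red χ (fun x => f x) = B f}
  have hfin : ∀ c, Finite (T c) := fun c =>
    ((Pool.Agent.Y914.NV.irr ℂ (Subgroup.normalizer (c.out.1 : Set G))).1.subset
      (fun _ h => h.1.irr)).to_subtype
  have : Fintype (Quotient (pSubgroupSetoid p G)) := Fintype.ofFinite _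
  have h1 : (∑ᶠ c : Quotient (pSubgroupSetoid p G), numWtBlock p red c.out.1 B) =
      Nat.card (Σ c, T c) := by
    rw [finsum_eq_sum_of_fintype, Nat.card_sigma]
    rfl
  rw [h1]
  let F₀ : (Σ c, T c) → Quotient (wSet p red B) := fun x =>
    Quotient.mk _ ⟨⟨x.1.out.1, x.2.1⟩, ⟨x.1.out.2, x.2.2.1, x.2.2.2⟩⟩
  refine Nat.card_congr (Equiv.ofBijective F₀ ⟨?_, ?_⟩)
  · rintro ⟨c, χ⟩ ⟨d, ψ⟩ h
    have h2 : Cj ⟨c.out.1, χ.1⟩ ⟨d.out.1, ψ.1⟩ := Quotient.exact h
    have h3 : c = d := by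
      rw [← Quotient.out_eq c, ← Quotient.out_eq d]
      apply Quotient.sound
      obtain ⟨a, h4, -⟩ := h2
      refine ⟨a⁻¹, ?_⟩
      ext g
      rw [h4, Subgroup.mem_map]
      constructor
      · intro hg
        refine ⟨_, hg, ?_⟩
        change a⁻¹ * (a * g * a⁻¹) * a⁻¹⁻¹ = g
        group
      · rintro ⟨x, hx, rfl⟩
        change a * (a⁻¹ * x * a⁻¹⁻¹) * a⁻¹ ∈ _
        have : a * (a⁻¹ * x * a⁻¹⁻¹) * a⁻¹ = x := by group
        rwa [this]
    subst h3
    have h5 := eq_of_cj χ.2.1.irr h2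
    rw [show χ = ψ from Subtype.ext h5]
  · intro q
    obtain ⟨⟨w, hw⟩, rfl⟩ := Quotient.exists_rep q
    set c : Quotient (pSubgroupSetoid p G) := Quotient.mk _ ⟨w.1, hw.pg⟩ with hc
    have h2 : ConjugateSubgroups w.1 c.out.1 := by
      have h3 : (pSubgroupSetoid p G) c.out ⟨w.1, hw.pg⟩ := Quotient.exact (Quotient.out_eq c)
      exact Setoid.symm' _ h3
    obtain ⟨g, hg⟩ := h2
    have h4 : (tr w g⁻¹).1 = c.out.1 := by
      rw [hg]
      change w.1.map (MulAut.conj g⁻¹⁻¹).toMonoidHom = _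
      rw [inv_inv]
    have h5 := isW_tr hw g⁻¹
    have h6 := cj_tr w g⁻¹
    generalize tr w g⁻¹ = w' at h4 h5 h6
    obtain ⟨Q', χ'⟩ := w'
    change Q' = c.out.1 at h4
    subst h4
    exact ⟨⟨c, ⟨χ', h5.wt, h5.blk⟩⟩, Quotient.sound h6.symm⟩

end wei

/-- comparison of two sets of weights -/
theorem card_quot_eq {F : Type} [Field F] {p : ℕ} {red : integralClosure ℤ ℂ →+* F}
    {G H : Type} [Group G] [Group H] {B : (G → F) → F} {B' : (H → F) → F}
    (W : WT p red B → WT p red B')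
    (h1 : ∀ w v : WT p red B, Cj (W w).1 (W v).1 ↔ Cj w.1 v.1)
    (h2 : ∀ v : WT p red B', ∃ w, Cj (W w).1 v.1) :
    Nat.card (Quotient (wSet p red B)) = Nat.card (Quotient (wSet p red B')) := by
  refine Nat.card_congr (Equiv.ofBijective (Quotient.map W fun w v h => (h1 w v).mpr h) ⟨?_, ?_⟩)
  · intro q r
    induction q using Quotient.inductionOn
    induction r using Quotient.inductionOn
    intro h
    exact Quotient.sound ((h1 _ _).mp (Quotient.exact h))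
  · intro q
    induction q using Quotient.inductionOn with | _ v
    obtain ⟨w, hw⟩ := h2 v
    exact ⟨Quotient.mk _ w, Quotient.sound hw⟩

end Pool.Agent.Hp21.UA
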