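import Pool.Agent.Hp21.UA.Cen

/-!
# The map from the weights of `G` to the weights of `E ⋊ A`
-/

set_option autoImplicit false
set_option linter.unusedSectionVars false
set_option linter.style.haveILetI false

open scoped BigOperators Classical

noncomputable section

namespace Pool.Agent.Hp21.UA

open Pool.Agent.Y63.NV (IsClassFun centralValue redC IsWt numWtBlock IsBlock cut)
open Pool.Agent.Y63.AWC (IsIrreducibleCharacter pSubgroupSetoid ConjugateSubgroups)
open Pool.Agent.Y930.NV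
open Pool.Agent.Hp21.UN Pool.Agent.Hp21.AW
open Pool.Agent.H254R3.IN (IsIrr omega Om IsCl rep)
open Pool.Agent.Helper884

section wt

variable {E A G : Type} [CommGroup E] [Group A] [Group G] [Fintype E] [Fintype A] [Fintype G]
  {φ : A →* MulAut E} {ι : G →* A} {θ : E →* ℂ} {p : ℕ} [hp : Fact p.Prime]

theorem irr_cl' {χ : G → ℂ} (h : IsIrr χ) : IsCl χ := fun g y => h.conj g y

/-- class functions with the same induced function are equal -/
theorem hat_inj_cl (h : St φ ι θ) {u v : G → ℂ} (hu : IsCl u) (hv : IsCl v)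
    (he : hat φ ι θ u = hat φ ι θ v) : u = v := by
  rw [IC.expand u hu, IC.expand v hv]
  refine Finset.sum_congr rfl fun χ hχ => ?_
  rw [← B_hat h u (irr_cl' (IC.mem_Irr.mp hχ)), he, B_hat h v (irr_cl' (IC.mem_Irr.mp hχ))]

theorem degH (h : St φ ι θ) {χ : G → ℂ} (hχ : IsIrr χ) (hpE : ¬ p ∣ Nat.card E) (Q : Subgroup G) :
    (∃ n : ℕ, hat φ ι θ χ 1 = (n : ℂ) ∧ n.factorization p +
      (Nat.card (DH φ ι Q)).factorization p = (Nat.card (E ⋊[φ] A)).factorization p) ↔
    ∃ n : ℕ, χ 1 = (n : ℂ) ∧ n.factorization p +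
      (Nat.card Q).factorization p = (Nat.card G).factorization p := by
  have hA0 : Nat.card A ≠ 0 := Nat.card_pos.ne'
  have hG0 : Nat.card G ≠ 0 := Nat.card_pos.ne'
  have hE0 : Nat.card E ≠ 0 := Nat.card_pos.ne'
  rw [card_DH h, Pool.Agent.N19.RB.card_sd, Nat.factorization_mul hE0 hA0, Finsupp.add_apply,
    Nat.factorization_eq_zero_of_not_dvd hpE, zero_add]
  obtain ⟨n, n0, hn⟩ := hχ.deg
  obtain ⟨N, N0, hN⟩ := (hat_irr h hχ).deg
  have e1 : N * Nat.card G = Nat.card A * n := by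
    have := hat_one h χ
    rw [← hN, ← hn] at this
    have c1 := cG (G := G)
    field_simp at this
    have e2 : ((N * Nat.card G : ℕ) : ℂ) = ((Nat.card A * n : ℕ) : ℂ) := by
      push_cast
      linear_combination this
    exact_mod_cast e2
  have e2 : N.factorization p + (Nat.card G).factorization p =
      (Nat.card A).factorization p + n.factorization p := by
    have h1 := congrArg (fun n => n.factorization p) e1
    simp only [Nat.factorization_mul N0.ne' hG0, Nat.factorization_mul hA0 n0.ne',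
      Finsupp.add_apply] at h1
    exact h1
  rw [← hN, ← hn]
  constructor
  · rintro ⟨m, hm, hf⟩
    have : m = N := by exact_mod_cast hm.symm
    subst this
    exact ⟨n, rfl, by omega⟩
  · rintro ⟨m, hm, hf⟩
    have : m = n := by exact_mod_cast hm.symm
    subst this
    exact ⟨N, rfl, by omega⟩

/-- `Q` is central over `E` and normal in `A` -/
structure Loc (φ : A →* MulAut E) (ι : G →* A) (Q : Subgroup G) : Prop where
  triv : ∀ d ∈ Q, ∀ e : E, φ (ι d) e = e
  norm : ∀ (a : A), ∀ d ∈ Q, ∃ d' ∈ Q, ι d' = a⁻¹ * ι d * a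

theorem term_translate {Q : Subgroup G} (hL : Loc φ ι Q) (u : G → ℂ) {d d' : G} (hd : d ∈ Q)
    (x : E ⋊[φ] A) {s : A} (h1 : ι d' = s⁻¹ * ι d * s) :
    term φ ι θ u ((SemidirectProduct.inr (ι d) : E ⋊[φ] A) * x) s =
      term φ ι θ (fun g => u (d' * g)) x s := by
  unfold term
  refine (Fintype.sum_equiv (Equiv.mulLeft d') _ _ fun g => ?_).symm
  rw [Equiv.coe_mulLeft, SemidirectProduct.mul_left, SemidirectProduct.mul_right,
    SemidirectProduct.left_inr, one_mul, SemidirectProduct.right_inr, hL.triv d hd]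
  have e1 : ι (d' * g) = s⁻¹ * (ι d * x.right) * s ↔ ι g = s⁻¹ * x.right * s := by
    rw [map_mul, h1]
    constructor
    · intro h
      have : s⁻¹ * (ι d * x.right) * s = s⁻¹ * ι d * s * (s⁻¹ * x.right * s) := by group
      rw [this] at h
      exact mul_left_cancel h
    · intro h
      rw [h]
      group
  simp only [e1]

/-- translation by an element of `Q` -/
theorem hat_translate {Q : Subgroup G} (hL : Loc φ ι Q) {u : G → ℂ}
    (hu : ∀ d ∈ Q, ∀ g, u (d * g) = u g)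
    {q : E ⋊[φ] A} (hq : q ∈ DH φ ι Q) (x : E ⋊[φ] A) :
    hat φ ι θ u (q * x) = hat φ ι θ u x := by
  obtain ⟨q1, d, hd, q2⟩ := mem_DH.mp hq
  have hq' : q = SemidirectProduct.inr (ι d) := by
    ext
    · exact q1
    · exact q2.symm
  rw [hq']
  unfold hat
  congr 1
  refine Finset.sum_congr rfl fun s _ => ?_
  obtain ⟨d', hd', h1⟩ := hL.norm s d hd
  rw [term_translate hL u hd x h1]
  congr 1
  funext g
  exact hu d' hd' g

/-- the average over `Q` -/
def avg (Q : Subgroup G) (u : G → ℂ) (g : G) : ℂ := (Nat.card Q : ℂ)⁻¹ * ∑ d : Q, u (d * g)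

theorem avg_inv (Q : Subgroup G) (u : G → ℂ) {d : G} (hd : d ∈ Q) (g : G) :
    avg Q u (d * g) = avg Q u g := by
  unfold avg
  congr 1
  refine Fintype.sum_equiv (Equiv.mulRight ⟨d, hd⟩) _ _ fun x => ?_
  rw [Equiv.coe_mulRight, Subgroup.coe_mul, mul_assoc]

theorem avg_cl {Q : Subgroup G} (hn : ∀ g : G, ∀ d ∈ Q, g * d * g⁻¹ ∈ Q) {u : G → ℂ}
    (hu : IsCl u) : IsCl (avg Q u) := by
  intro g y
  unfold avg
  congr 1
  refine (Fintype.sum_equiv (Equiv.ofBijective (fun d : Q => (⟨y * d * y⁻¹, hn y d d.2⟩ : Q))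
    ?_) _ _ fun d => ?_).symm
  · rw [← Finite.injective_iff_bijective]
    intro a b hab
    have := congrArg Subtype.val hab
    exact Subtype.ext (mul_left_cancel (mul_right_cancel this))
  · change u (d * g) = u (y * d * y⁻¹ * (y * g * y⁻¹))
    have : y * (d : G) * y⁻¹ * (y * g * y⁻¹) = y * (d * g) * y⁻¹ := by group
    rw [this, hu]

theorem hat_avg (h : St φ ι θ) {Q : Subgroup G} (hL : Loc φ ι Q) {u : G → ℂ}
    (hu : ∀ q ∈ DH φ ι Q, ∀ x, hat φ ι θ u (q * x) = hat φ ι θ u x) :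
    hat φ ι θ (avg Q u) = hat φ ι θ u := by
  funext x
  have h1 : ∀ s : A, term φ ι θ (avg Q u) x s = (Nat.card Q : ℂ)⁻¹ * ∑ d : Q,
      term φ ι θ (fun g => u (d * g)) x s := by
    intro s
    unfold term avg
    rw [Finset.sum_comm, Finset.mul_sum]
    refine Finset.sum_congr rfl fun g _ => ?_
    split_ifs
    · simp only [Finset.mul_sum]
      exact Finset.sum_congr rfl fun d _ => by ring
    · simp
  have h2 : ∀ s : A, ∑ d : Q, term φ ι θ (fun g => u (d * g)) x s =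
      ∑ d : Q, term φ ι θ u ((SemidirectProduct.inr (ι d) : E ⋊[φ] A) * x) s := by
    intro s
    have hs : ∀ d : Q, ∃ d' ∈ Q, ι d' = s⁻¹ * ι d * s := fun d => hL.norm s d d.2
    choose c hc hc' using hs
    refine (Fintype.sum_equiv (Equiv.ofBijective (fun d : Q => (⟨c d, hc d⟩ : Q)) ?_) _ _
      fun d => ?_).symm
    · rw [← Finite.injective_iff_bijective]
      intro a b hab
      have h3 := congrArg (fun t : Q => ι t) hab
      change ι (c a) = ι (c b) at h3
      rw [hc', hc'] at h3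
      exact Subtype.ext (h.inj (mul_left_cancel (mul_right_cancel h3)))
    · exact term_translate hL u d.2 x (hc' d)
  have h3 : ∀ d : Q, ∑ s, term φ ι θ u ((SemidirectProduct.inr (ι d) : E ⋊[φ] A) * x) s =
      ∑ s, term φ ι θ u x s := by
    intro d
    have h4 := hu (SemidirectProduct.inr (ι d)) (mem_DH.mpr ⟨rfl, d, d.2, rfl⟩) x
    unfold hat at h4
    exact mul_left_cancel₀ (inv_ne_zero cG) h4
  unfold hat
  congr 1
  rw [Finset.sum_congr rfl fun s _ => (h1 s).trans (by rw [h2 s]), ← Finset.mul_sum,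
    Finset.sum_comm, Finset.sum_congr rfl fun d _ => h3 d, Finset.sum_const, nsmul_eq_mul,
    Finset.card_univ, ← Nat.card_eq_fintype_card, ← mul_assoc, inv_mul_cancel₀ cG, one_mul]

/-- **Weights for a normal subgroup `Q`.** -/
theorem wt_iff (h : St φ ι θ) (hpE : ¬ p ∣ Nat.card E) {Q : Subgroup G} (hL : Loc φ ι Q)
    (hn : ∀ g : G, ∀ d ∈ Q, g * d * g⁻¹ ∈ Q) {χ : G → ℂ} (hχ : IsIrr χ) :
    IsWt p (DH φ ι Q) (hat φ ι θ χ) ↔ IsWt p Q χ := by
  have hcl := irr_cl' hχ
  constructor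
  · rintro ⟨_, h2, h3⟩
    refine ⟨hχ, ?_, (degH h hχ hpE Q).mp h3⟩
    have h4 := hat_inj_cl h (avg_cl hn hcl) hcl (hat_avg h hL h2)
    intro d hd g
    rw [← h4]
    exact avg_inv Q χ hd g
  · rintro ⟨_, h2, h3⟩
    exact ⟨hat_irr h hχ, fun q hq x => hat_translate hL h2 hq x, (degH h hχ hpE Q).mpr h3⟩

end wt

section loc

variable {p : ℕ} [hp : Fact p.Prime] {F : Type} [Field F] [CharP F p]
  (red : integralClosure ℤ ℂ →+* F)
  {E A G : Type} [CommGroup E] [Group A] [Group G] [Fintype E] [Fintype A] [Fintype G]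
  {φ : A →* MulAut E} {ι : G →* A} {θ : E →* ℂ}

theorem loc_Loc (Q : Subgroup G) : Loc (phN φ ι Q) (iN ι Q) (Q.subgroupOf (GN Q)) := by
  constructor
  · intro d hd e
    exact Subtype.ext (e.2 d (Subgroup.mem_subgroupOf.mp hd))
  · intro a d hd
    obtain ⟨d', hd', h1⟩ := AN_conj (inv_mem a.2) (Subgroup.mem_subgroupOf.mp hd)
    refine ⟨⟨d', Subgroup.le_normalizer hd'⟩, Subgroup.mem_subgroupOf.mpr hd', ?_⟩
    apply Subtype.ext
    change ι d' = (a : A)⁻¹ * ι d * a
    rw [h1, inv_inv]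

theorem loc_norm (Q : Subgroup G) : ∀ g : GN Q, ∀ d ∈ Q.subgroupOf (GN Q),
    g * d * g⁻¹ ∈ Q.subgroupOf (GN Q) := by
  intro g d hd
  rw [Subgroup.mem_subgroupOf] at hd ⊢
  exact (Subgroup.mem_normalizer_iff.mp g.2 d).mp hd

/-- the character of `N(Q)` in `E ⋊ A` -/
def hatQ (φ : A →* MulAut E) (ι : G →* A) (θ : E →* ℂ) (Q : Subgroup G) (ζ : GN Q → ℂ)
    (y : Subgroup.normalizer (DH φ ι Q : Set (E ⋊[φ] A))) : ℂ :=
  hat (phN φ ι Q) (iN ι Q) (thN φ ι θ Q) ζ (nIso φ ι Q y)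

theorem mem_comap_nIso (Q : Subgroup G)
    (y : Subgroup.normalizer (DH φ ι Q : Set (E ⋊[φ] A))) :
    nIso φ ι Q y ∈ DH (phN φ ι Q) (iN ι Q) (Q.subgroupOf (GN Q)) ↔
      y ∈ (DH φ ι Q).subgroupOf (Subgroup.normalizer (DH φ ι Q : Set (E ⋊[φ] A))) := by
  rw [← comap_nIso]
  rfl

theorem wtQ_iff (h : St φ ι θ) (hpE : ¬ p ∣ Nat.card E) {Q : Subgroup G} (hQ : IsPGroup p Q)
    {ζ : GN Q → ℂ} (hζ : IsIrr ζ) :
    IsWt p ((DH φ ι Q).subgroupOf (Subgroup.normalizer (DH φ ι Q : Set (E ⋊[φ] A))))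
      (hatQ φ ι θ Q ζ) ↔ IsWt p (Q.subgroupOf (GN Q)) ζ := by
  have h1 := wt_iff (h.loc hpE hQ) (card_EC hpE Q) (loc_Loc Q) (loc_norm Q) hζ
  rw [← h1]
  exact Pool.Agent.Y624.NV.isWt_iff (nIso φ ι Q) (fun y => mem_comap_nIso Q y)

/-- reduction of a sum over `E` to a sum over the fixed points of `Q` -/
theorem Phi_fix (h : St φ ι θ) {Q : Subgroup G} (hQ : IsPGroup p Q) {g : G}
    (hg : ∀ d ∈ Q, d * g = g * d) {f : E ⋊[φ] A → F} (hf : IsClassFun f) :
    Phi red φ ι θ f g = ∑ m : EC φ ι Q, f ⟨m, ι g⟩ * thF red θ m := by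
  letI : MulAction Q E := MulAction.compHom E ((φ.comp ι).comp Q.subtype)
  have h1 := Pool.Agent.H254R3.IN.sum_fixed hQ (X := E) (F := F)
    (fun a => by rw [← Nat.cast_smul_eq_nsmul F, CharP.cast_eq_zero, zero_smul])
    (fun m => f ⟨m, ι g⟩ * thF red θ m) (by
      intro d m
      change f ⟨φ (ι d) m, ι g⟩ * thF red θ (φ (ι d) m) = _
      have e1 : ι g = ι d * ι g * (ι d)⁻¹ := by
        rw [← map_mul, hg d d.2, map_mul, mul_inv_cancel_right]
      have e2 : f ⟨φ (ι d) m, ι g⟩ = f ⟨m, ι g⟩ := by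
        rw [← hf (SemidirectProduct.inr (ι d)) ⟨m, ι g⟩]
        congr 1
        ext
        · simp
        · simp only [SemidirectProduct.mul_right, SemidirectProduct.right_inr,
            SemidirectProduct.inv_right]
          exact e1
      have e3 : thF red θ (φ (ι d) m) = thF red θ m := by
        rw [thF_apply, thF_apply, h.fix]
      rw [e2, e3])
  unfold Phi
  rw [h1]
  refine Finset.sum_subtype (p := fun m => m ∈ EC φ ι Q) _ (fun m => ?_)
    fun m => f ⟨m, ι g⟩ * thF red θ m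
  simp only [Finset.mem_filter, Finset.mem_univ, true_and]
  constructor
  · intro h2 d hd
    exact h2 ⟨d, hd⟩
  · intro h2 d
    exact h2 d d.2

/-- the block of the character of `N(Q)` -/
theorem cvQ (h : St φ ι θ) (hpE : ¬ p ∣ Nat.card E) {Q : Subgroup G} (hQ : IsPGroup p Q)
    {ζ : GN Q → ℂ} (hζ : IsWt p (Q.subgroupOf (GN Q)) ζ) {f : E ⋊[φ] A → F}
    (hf : IsClassFun f) :
    centralValue red (hatQ φ ι θ Q ζ) (fun y => f y) =
      centralValue red ζ (fun g => Phi red φ ι θ f g) := by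
  have hζi : IsIrr ζ := hζ.irr
  have hloc := h.loc hpE hQ
  -- the function on the semidirect product
  set f' : EC φ ι Q ⋊[phN φ ι Q] AN ι Q → F := fun z => f (nj φ ι Q z) with hf'
  have hcl : IsClassFun f' := by
    intro z y
    rw [hf']
    simp only [map_mul, map_inv]
    exact hf _ _
  have h1 := Pool.Agent.Y624.NV.centralValue_comp red (nIso φ ι Q)
    (χ := hat (phN φ ι Q) (iN ι Q) (thN φ ι θ Q) ζ) (hat_irr hloc hζi) hcl
  have h2 : (fun y : Subgroup.normalizer (DH φ ι Q : Set (E ⋊[φ] A)) => f' (nIso φ ι Q y)) =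
      fun y : Subgroup.normalizer (DH φ ι Q : Set (E ⋊[φ] A)) => f (y : E ⋊[φ] A) := by
    funext y
    rfl
  rw [h2] at h1
  have h3 : centralValue red (hatQ φ ι θ Q ζ) (fun y => f (y : E ⋊[φ] A)) =
      centralValue red (hat (phN φ ι Q) (iN ι Q) (thN φ ι θ Q) ζ) f' := h1
  rw [h3, cv_hat red hloc hζi hcl]
  -- cutting
  have hn : (Q.subgroupOf (GN Q)).Normal := ⟨fun n hn g => loc_norm Q g n hn⟩
  have hP1 := Phi_class red hloc hcl
  have hP2 : IsClassFun (fun g : GN Q => Phi red φ ι θ f g) := fun g x =>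
    Phi_class red h hf g x
  have hQ' : IsPGroup p (Q.subgroupOf (GN Q)) := hQ.comap_subtype
  have c1 := Pool.Agent.Y63.NV.cutw' p F red (GN Q) (Q.subgroupOf (GN Q)) _ ζ hn hQ' hP1 hζ
  have c2 := Pool.Agent.Y63.NV.cutw' p F red (GN Q) (Q.subgroupOf (GN Q)) _ ζ hn hQ' hP2 hζ
  rw [← c1, ← c2]
  congr 1
  funext g
  unfold cut
  by_cases hg : g ∈ Subgroup.centralizer ((Q.subgroupOf (GN Q) : Subgroup (GN Q)) : Set (GN Q))
  · rw [if_pos hg, if_pos hg]
    have h6 : ∀ d ∈ Q, d * (g : G) = g * d := by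
      intro d hd
      have h7 := Subgroup.mem_centralizer_iff.mp hg ⟨d, Subgroup.le_normalizer hd⟩
        (Subgroup.mem_subgroupOf.mpr hd)
      exact congrArg Subtype.val h7
    exact (Phi_fix red h hQ h6 hf).symm
  · rw [if_neg hg, if_neg hg]

end loc

end Pool.Agent.Hp21.UA
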