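import Pool.Agent.Hp21.UA.Lprod
import Pool.Agent.N85.WM.Wpi

/-!
# `w(b₁ ⊠ b₂) = w(b₁) w(b₂)`
-/

set_option autoImplicit false
set_option linter.unusedSectionVars false
set_option linter.unusedVariables false
set_option linter.style.haveILetI false

open scoped BigOperators Classical

noncomputable section

namespace Pool.Agent.Hp21.UA

open Pool.Agent.Y63.NV (IsClassFun centralValue redC IsWt numWtBlock IsBlock numIrrBlock conv pp)
open Pool.Agent.Y63.AWC (IsIrreducibleCharacter pSubgroupSetoid)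
open Pool.Agent.Y930.NV
open Pool.Agent.Hp21.UN Pool.Agent.Hp21.AW
open Pool.Agent.Q90.WR (box box_irr box_cover box_inj)
open Pool.Agent.Helper884

section norm

variable {G H : Type} [Group G] [Group H]

theorem mem_norm_prod {Q : Subgroup G} {R : Subgroup H} {y : G × H} :
    y ∈ Subgroup.normalizer ((Q.prod R : Subgroup (G × H)) : Set (G × H)) ↔
      y.1 ∈ Subgroup.normalizer (Q : Set G) ∧ y.2 ∈ Subgroup.normalizer (R : Set H) := by
  simp only [Subgroup.mem_normalizer_iff, Subgroup.mem_prod]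
  constructor
  · intro h
    constructor
    · intro x
      have h1 := h (x, 1)
      simp only [Prod.fst_mul, Prod.snd_mul, Prod.fst_inv, Prod.snd_inv, mul_one, mul_inv_cancel,
        one_mem, and_true] at h1
      exact h1
    · intro x
      have h1 := h (1, x)
      simp only [Prod.fst_mul, Prod.snd_mul, Prod.fst_inv, Prod.snd_inv, mul_one, mul_inv_cancel,
        one_mem, true_and] at h1
      exact h1
  · rintro ⟨h1, h2⟩ x
    exact and_congr (h1 x.1) (h2 x.2)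

/-- the normalizer of a product -/
def nPr (Q : Subgroup G) (R : Subgroup H) :
    Subgroup.normalizer ((Q.prod R : Subgroup (G × H)) : Set (G × H)) ≃*
      Subgroup.normalizer (Q : Set G) × Subgroup.normalizer (R : Set H) where
  toFun y := (⟨y.1.1, (mem_norm_prod.mp y.2).1⟩, ⟨y.1.2, (mem_norm_prod.mp y.2).2⟩)
  invFun z := ⟨(z.1.1, z.2.1), mem_norm_prod.mpr ⟨z.1.2, z.2.2⟩⟩
  left_inv _ := rfl
  right_inv _ := rfl
  map_mul' _ _ := rfl

/-- the product of two weights -/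
def pw (w : Pre G) (v : Pre H) : Pre (G × H) :=
  ⟨w.1.prod v.1, fun y => box w.2 v.2 (nPr w.1 v.1 y)⟩

theorem ex_pw (w : Pre G) (v : Pre H) (g : G) (h : H) :
    ex (pw w v) (g, h) = ex w g * ex v h := by
  by_cases c1 : g ∈ Subgroup.normalizer (w.1 : Set G)
  · by_cases c2 : h ∈ Subgroup.normalizer (v.1 : Set H)
    · have c3 : ((g, h) : G × H) ∈ Subgroup.normalizer ((pw w v).1 : Set (G × H)) :=
        mem_norm_prod.mpr ⟨c1, c2⟩
      unfold ex
      rw [dif_pos c1, dif_pos c2, dif_pos c3]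
      rfl
    · have c3 : ¬ ((g, h) : G × H) ∈ Subgroup.normalizer ((pw w v).1 : Set (G × H)) :=
        fun h' => c2 (mem_norm_prod.mp h').2
      unfold ex
      rw [dif_neg c2, dif_neg c3, mul_zero]
  · have c3 : ¬ ((g, h) : G × H) ∈ Subgroup.normalizer ((pw w v).1 : Set (G × H)) :=
      fun h' => c1 (mem_norm_prod.mp h').1
    unfold ex
    rw [dif_neg c1, dif_neg c3, zero_mul]

end norm

section wt

variable {p : ℕ} [hp : Fact p.Prime] {K L : Type} [Group K] [Group L] [Fintype K] [Fintype L]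

theorem one_ne {χ : K → ℂ} (h : IsIrreducibleCharacter χ) : χ 1 ≠ 0 :=
  Pool.Agent.H254R3.IN.IsIrr.one_ne h

theorem isWt_box {Q : Subgroup K} {R : Subgroup L} [Q.Normal] [R.Normal] {χ : K → ℂ}
    {ψ : L → ℂ} (h1 : IsIrreducibleCharacter χ) (h2 : IsIrreducibleCharacter ψ) :
    IsWt p (Q.prod R) (box χ ψ) ↔ IsWt p Q χ ∧ IsWt p R ψ := by
  have cQR : Nat.card (Q.prod R : Subgroup (K × L)) = Nat.card Q * Nat.card R := by
    rw [Nat.card_congr (Subgroup.prodEquiv Q R).toEquiv, Nat.card_prod]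
  have cQ : Nat.card Q ≠ 0 := Nat.card_pos.ne'
  have cR : Nat.card R ≠ 0 := Nat.card_pos.ne'
  have cK : Nat.card K ≠ 0 := Nat.card_pos.ne'
  have cL : Nat.card L ≠ 0 := Nat.card_pos.ne'
  obtain ⟨m, m0, hm⟩ := Pool.Agent.H254R3.IN.IsIrr.deg h1
  obtain ⟨n, n0, hn⟩ := Pool.Agent.H254R3.IN.IsIrr.deg h2
  have e1 : box χ ψ 1 = ((m * n : ℕ) : ℂ) := by
    change χ 1 * ψ 1 = _
    rw [← hm, ← hn]
    push_cast
    rfl
  constructor
  · rintro ⟨_, hi, d, hd, hf⟩
    have i1 : ∀ q ∈ Q, ∀ x, χ (q * x) = χ x := by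
      intro q hq x
      have h3 := hi (q, 1) (Subgroup.mem_prod.mpr ⟨hq, one_mem _⟩) (x, 1)
      change χ (q * x) * ψ (1 * 1) = χ x * ψ 1 at h3
      rw [mul_one] at h3
      exact mul_right_cancel₀ (one_ne h2) h3
    have i2 : ∀ q ∈ R, ∀ x, ψ (q * x) = ψ x := by
      intro q hq x
      have h3 := hi (1, q) (Subgroup.mem_prod.mpr ⟨one_mem _, hq⟩) (1, x)
      change χ (1 * 1) * ψ (q * x) = χ 1 * ψ x at h3
      rw [mul_one] at h3
      exact mul_left_cancel₀ (one_ne h1) h3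
    have hdm : d = m * n := by
      rw [e1] at hd
      exact_mod_cast hd.symm
    subst hdm
    rw [Nat.factorization_mul m0.ne' n0.ne', cQR, Nat.factorization_mul cQ cR, Nat.card_prod,
      Nat.factorization_mul cK cL] at hf
    simp only [Finsupp.add_apply] at hf
    have l1 := Pool.Agent.N85.WM.Wpi.deg_le p Q h1 i1 hm.symm
    have l2 := Pool.Agent.N85.WM.Wpi.deg_le p R h2 i2 hn.symm
    exact ⟨⟨h1, i1, m, hm.symm, by omega⟩, ⟨h2, i2, n, hn.symm, by omega⟩⟩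
  · rintro ⟨⟨_, i1, m', hm', f1⟩, ⟨_, i2, n', hn', f2⟩⟩
    have e2 : m' = m := by
      rw [← hm] at hm'
      exact_mod_cast hm'.symm
    have e3 : n' = n := by
      rw [← hn] at hn'
      exact_mod_cast hn'.symm
    subst e2 e3
    refine ⟨box_irr' h1 h2, ?_, m' * n', e1, ?_⟩
    · rintro ⟨q, r⟩ hq ⟨x, y⟩
      obtain ⟨hq1, hq2⟩ := Subgroup.mem_prod.mp hq
      change χ (q * x) * ψ (r * y) = χ x * ψ y
      rw [i1 q hq1 x, i2 r hq2 y]
    · rw [Nat.factorization_mul m0.ne' n0.ne', cQR, Nat.factorization_mul cQ cR, Nat.card_prod,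
        Nat.factorization_mul cK cL]
      simp only [Finsupp.add_apply]
      omega

end wt

section main

variable {p : ℕ} [hp : Fact p.Prime] {F : Type} [Field F] (red : integralClosure ℤ ℂ →+* F)
  {G H : Type} [Group G] [Group H] [Fintype G] [Fintype H]

theorem wt_pw_iff {w : Pre G} {v : Pre H} (h1 : IsIrreducibleCharacter w.2)
    (h2 : IsIrreducibleCharacter v.2) :
    IsWt p ((pw w v).1.subgroupOf (Subgroup.normalizer ((pw w v).1 : Set (G × H)))) (pw w v).2 ↔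
      IsWt p (w.1.subgroupOf (Subgroup.normalizer (w.1 : Set G))) w.2 ∧
      IsWt p (v.1.subgroupOf (Subgroup.normalizer (v.1 : Set H))) v.2 := by
  have n1 : (w.1.subgroupOf (Subgroup.normalizer (w.1 : Set G))).Normal :=
    Subgroup.normal_in_normalizer
  have n2 : (v.1.subgroupOf (Subgroup.normalizer (v.1 : Set H))).Normal :=
    Subgroup.normal_in_normalizer
  rw [← isWt_box h1 h2]
  have h3 := Pool.Agent.Y624.NV.isWt_iff (p := p) (nPr w.1 v.1)
    (Q := (w.1.prod v.1).subgroupOf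
      (Subgroup.normalizer ((w.1.prod v.1 : Subgroup (G × H)) : Set (G × H))))
    (Q' := (w.1.subgroupOf (Subgroup.normalizer (w.1 : Set G))).prod
      (v.1.subgroupOf (Subgroup.normalizer (v.1 : Set H)))) (fun y => by
        rw [Subgroup.mem_prod, Subgroup.mem_subgroupOf, Subgroup.mem_subgroupOf,
          Subgroup.mem_subgroupOf]
        exact Subgroup.mem_prod.symm) (χ := box w.2 v.2)
  exact h3

theorem cv_pw {w : Pre G} {v : Pre H} (h1 : IsIrreducibleCharacter w.2)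
    (h2 : IsIrreducibleCharacter v.2) {f : G × H → F} (hf : IsClassFun f) :
    centralValue red (pw w v).2 (fun y => f y) =
      centralValue red w.2 (fun g => centralValue red v.2 (fun h => f (g, h))) := by
  have hcl : IsClassFun fun z : Subgroup.normalizer (w.1 : Set G) ×
      Subgroup.normalizer (v.1 : Set H) => f (z.1, z.2) := fun c x => hf (c.1, c.2) (x.1, x.2)
  have h3 := Pool.Agent.Y624.NV.centralValue_comp red (nPr w.1 v.1) (box_irr' h1 h2) hcl
  rw [cv_box red h1 h2 hcl] at h3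
  exact h3

theorem isPGroup_prod {Q : Subgroup G} {R : Subgroup H} (h1 : IsPGroup p Q)
    (h2 : IsPGroup p R) : IsPGroup p (Q.prod R : Subgroup (G × H)) := by
  obtain ⟨m, hm⟩ := IsPGroup.iff_card.mp h1
  obtain ⟨n, hn⟩ := IsPGroup.iff_card.mp h2
  refine IsPGroup.iff_card.mpr ⟨m + n, ?_⟩
  rw [Nat.card_congr (Subgroup.prodEquiv Q R).toEquiv, Nat.card_prod, hm, hn, pow_add]

theorem isW_pw {b₁ : (G → F) → F} {b₂ : (H → F) → F} {w : Pre G} {v : Pre H}
    (h1 : IsW p red b₁ w) (h2 : IsW p red b₂ v) : IsW p red (bx b₁ b₂) (pw w v) := by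
  refine ⟨isPGroup_prod h1.pg h2.pg, (wt_pw_iff h1.wt.irr h2.wt.irr).mpr ⟨h1.wt, h2.wt⟩,
    fun f hf => ?_⟩
  rw [cv_pw red h1.wt.irr h2.wt.irr hf]
  unfold bx
  rw [← h1.blk _ (part_cl hf b₂)]
  congr 1
  funext g
  exact h2.blk _ (sect2 hf g)

theorem pw_cj {w w' : Pre G} {v v' : Pre H} (h1 : Cj w w') (h2 : Cj v v') :
    Cj (pw w v) (pw w' v') := by
  obtain ⟨c, c1, c2⟩ := h1
  obtain ⟨d, d1, d2⟩ := h2
  refine ⟨(c, d), ?_, ?_⟩
  · rintro ⟨g, h⟩
    exact and_congr (c1 g) (d1 h)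
  · rintro ⟨g, h⟩
    change ex (pw w' v') (g, h) = ex (pw w v) (c * g * c⁻¹, d * h * d⁻¹)
    rw [ex_pw, ex_pw, c2, d2]

/-- proportional irreducible characters are equal -/
theorem prop_eq {K : Type} [Group K] [Fintype K] {χ ψ : K → ℂ} (h1 : IsIrreducibleCharacter χ)
    (h2 : IsIrreducibleCharacter ψ) {a b : ℂ} (ha : a ≠ 0) (hb : b ≠ 0)
    (h : ∀ x, χ x * a = ψ x * b) : χ = ψ := by
  by_contra hne
  have e1 := IC.B_irr (chi := χ) (psi := ψ) h1 h2
  rw [if_neg hne] at e1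
  have e2 := IC.B_irr (chi := ψ) (psi := ψ) h2 h2
  rw [if_pos rfl] at e2
  have e3 : IC.B χ ψ * a = IC.B ψ ψ * b := by
    unfold IC.B
    rw [mul_assoc, mul_assoc, Finset.sum_mul, Finset.sum_mul]
    congr 1
    refine Finset.sum_congr rfl fun g _ => ?_
    linear_combination ψ g⁻¹ * h g
  rw [e1, e2, zero_mul, one_mul] at e3
  exact hb e3.symm

theorem cj_fst {w w' : Pre G} {v v' : Pre H} (i1 : IsIrreducibleCharacter w.2)
    (i2 : IsIrreducibleCharacter w'.2) (i3 : v.2 1 ≠ 0) (i4 : v'.2 1 ≠ 0)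
    (h : Cj (pw w v) (pw w' v')) : Cj w w' := by
  obtain ⟨⟨c, d⟩, h1, h2⟩ := h
  have e1 : w'.1 = trQ w.1 c := by
    ext g
    rw [mem_trQ]
    have h3 := h1 (g, 1)
    change (g ∈ w'.1 ∧ (1 : H) ∈ v'.1) ↔ (c * g * c⁻¹ ∈ w.1 ∧ d * 1 * d⁻¹ ∈ v.1) at h3
    rw [mul_one, mul_inv_cancel] at h3
    simpa using h3
  have h3 : ∀ g, ex w' g * v'.2 1 = ex (tr w c) g * v.2 1 := by
    intro g
    have h4 := h2 (g, 1)
    change ex (pw w' v') (g, 1) = ex (pw w v) (c * g * c⁻¹, d * 1 * d⁻¹) at h4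
    rw [ex_pw, ex_pw, mul_one, mul_inv_cancel] at h4
    rw [ex_tr]
    have e2 : ex v' ((1 : Subgroup.normalizer (v'.1 : Set H)) : H) = v'.2 1 := ex_coe v' 1
    have e3 : ex v ((1 : Subgroup.normalizer (v.1 : Set H)) : H) = v.2 1 := ex_coe v 1
    rw [← e2, ← e3]
    exact h4
  obtain ⟨R, η⟩ := w'
  change R = trQ w.1 c at e1
  subst e1
  have i5 : IsIrreducibleCharacter (tr w c).2 := Pool.Agent.Y624.NV.irr_comp (cI w.1 c) i1
  have h4 : η = (tr w c).2 := by
    refine prop_eq i2 i5 i4 i3 fun x => ?_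
    have h5 := h3 x
    have e2 : ex ⟨trQ w.1 c, η⟩ (x : G) = η x := ex_coe ⟨trQ w.1 c, η⟩ x
    have e3 : ex (tr w c) (x : G) = (tr w c).2 x := ex_coe (tr w c) x
    rw [e2, e3] at h5
    exact h5
  rw [h4]
  exact cj_tr w c

theorem cj_snd {w w' : Pre G} {v v' : Pre H} (i1 : IsIrreducibleCharacter v.2)
    (i2 : IsIrreducibleCharacter v'.2) (i3 : w.2 1 ≠ 0) (i4 : w'.2 1 ≠ 0)
    (h : Cj (pw w v) (pw w' v')) : Cj v v' := by
  obtain ⟨⟨d, c⟩, h1, h2⟩ := h
  have e1 : v'.1 = trQ v.1 c := by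
    ext g
    rw [mem_trQ]
    have h3 := h1 (1, g)
    change ((1 : G) ∈ w'.1 ∧ g ∈ v'.1) ↔ (d * 1 * d⁻¹ ∈ w.1 ∧ c * g * c⁻¹ ∈ v.1) at h3
    rw [mul_one, mul_inv_cancel] at h3
    simpa using h3
  have h3 : ∀ g, ex v' g * w'.2 1 = ex (tr v c) g * w.2 1 := by
    intro g
    have h4 := h2 (1, g)
    change ex (pw w' v') (1, g) = ex (pw w v) (d * 1 * d⁻¹, c * g * c⁻¹) at h4
    rw [ex_pw, ex_pw, mul_one, mul_inv_cancel] at h4
    rw [ex_tr]
    have e2 : ex w' ((1 : Subgroup.normalizer (w'.1 : Set G)) : G) = w'.2 1 := ex_coe w' 1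
    have e3 : ex w ((1 : Subgroup.normalizer (w.1 : Set G)) : G) = w.2 1 := ex_coe w 1
    rw [← e2, ← e3, mul_comm, mul_comm (ex v _)]
    exact h4
  obtain ⟨R, η⟩ := v'
  change R = trQ v.1 c at e1
  subst e1
  have i5 : IsIrreducibleCharacter (tr v c).2 := Pool.Agent.Y624.NV.irr_comp (cI v.1 c) i1
  have h4 : η = (tr v c).2 := by
    refine prop_eq i2 i5 i4 i3 fun x => ?_
    have h5 := h3 x
    have e2 : ex ⟨trQ v.1 c, η⟩ (x : H) = η x := ex_coe ⟨trQ v.1 c, η⟩ x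
    have e3 : ex (tr v c) (x : H) = (tr v c).2 x := ex_coe (tr v c) x
    rw [e2, e3] at h5
    exact h5
  rw [h4]
  exact cj_tr v c

end main

end Pool.Agent.Hp21.UA
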