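import Pool.Agent.Hp21.UA.Wprod

/-!
# `w(b₁ ⊠ b₂) = w(b₁) w(b₂)`: the count
-/

set_option autoImplicit false
set_option linter.unusedSectionVars false
set_option linter.unusedVariables false
set_option linter.style.haveILetI false

open scoped BigOperators Classical

noncomputable section

namespace Pool.Agent.Hp21.UA

open Pool.Agent.Y63.NV (IsClassFun centralValue redC IsWt numWtBlock IsBlock numIrrBlock conv pp
  wtn)
open Pool.Agent.Y63.AWC (IsIrreducibleCharacter pSubgroupSetoid)
open Pool.Agent.Y930.NV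
open Pool.Agent.Hp21.UN Pool.Agent.Hp21.AW
open Pool.Agent.Q90.WR (box box_irr box_cover box_inj)
open Pool.Agent.Helper884

section main

variable {p : ℕ} [hp : Fact p.Prime] {F : Type} [Field F] (red : integralClosure ℤ ℂ →+* F)
  {G H : Type} [Group G] [Group H] [Fintype G] [Fintype H]

/-- a `p`-subgroup which has a weight is the product of its projections -/
theorem eq_prod {S : Subgroup (G × H)} (hS : IsPGroup p S)
    {ξ : Subgroup.normalizer (S : Set (G × H)) → ℂ}
    (hwt : IsWt p (S.subgroupOf (Subgroup.normalizer (S : Set (G × H)))) ξ) :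
    S = (S.map (MonoidHom.fst G H)).prod (S.map (MonoidHom.snd G H)) := by
  set T : Subgroup (G × H) := (S.map (MonoidHom.fst G H)).prod (S.map (MonoidHom.snd G H))
    with hT
  have hle : S ≤ T := fun x hx =>
    Subgroup.mem_prod.mpr ⟨Subgroup.mem_map_of_mem (MonoidHom.fst G H) hx,
      Subgroup.mem_map_of_mem (MonoidHom.snd G H) hx⟩
  have hPg : IsPGroup p T := isPGroup_prod (hS.map _) (hS.map _)
  have hNN : Subgroup.normalizer (S : Set (G × H)) ≤ Subgroup.normalizer (T : Set (G × H)) := by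
    intro x hx
    rw [Subgroup.mem_normalizer_iff] at hx
    have key : ∀ q ∈ S, x⁻¹ * q * x ∈ S := by
      intro q hq
      refine (hx _).mpr ?_
      have : x * (x⁻¹ * q * x) * x⁻¹ = q := by group
      rwa [this]
    refine mem_norm_prod.mpr ⟨?_, ?_⟩
    · rw [Subgroup.mem_normalizer_iff]
      intro y
      constructor
      · rintro ⟨q, hq, rfl⟩
        exact ⟨x * q * x⁻¹, (hx q).mp hq, rfl⟩
      · rintro ⟨q, hq, hqy⟩
        refine ⟨x⁻¹ * q * x, key q hq, ?_⟩
        have h1 : q.1 = x.1 * y * (x.1)⁻¹ := hqy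
        change (x.1)⁻¹ * q.1 * x.1 = y
        rw [h1]
        group
    · rw [Subgroup.mem_normalizer_iff]
      intro y
      constructor
      · rintro ⟨q, hq, rfl⟩
        exact ⟨x * q * x⁻¹, (hx q).mp hq, rfl⟩
      · rintro ⟨q, hq, hqy⟩
        refine ⟨x⁻¹ * q * x, key q hq, ?_⟩
        have h1 : q.2 = x.2 * y * (x.2)⁻¹ := hqy
        change (x.2)⁻¹ * q.2 * x.2 = y
        rw [h1]
        group
  by_contra hne
  have hlt : S < T := lt_of_le_of_ne hle hne
  have hnil : Group.IsNilpotent ↥T := hPg.isNilpotent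
  have hlt2 : S.subgroupOf T < ⊤ := by
    rw [lt_top_iff_ne_top, Ne, Subgroup.subgroupOf_eq_top]
    exact not_le_of_gt hlt
  obtain ⟨x, hx1, hx2⟩ := SetLike.exists_of_lt
    (Group.normalizerCondition_of_isNilpotent (S.subgroupOf T) hlt2)
  rw [Subgroup.mem_normalizer_iff] at hx1
  have hxN : (x : G × H) ∈ Subgroup.normalizer (S : Set (G × H)) := by
    rw [Subgroup.mem_normalizer_iff]
    intro y
    constructor
    · intro hy
      exact (hx1 ⟨y, hle hy⟩).1 hy
    · intro hy
      have h3 : y ∈ T := by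
        have h4 : y = (x : G × H)⁻¹ * ((x : G × H) * y * (x : G × H)⁻¹) * (x : G × H) := by group
        rw [h4]
        exact mul_mem (mul_mem (inv_mem x.2) (hle hy)) x.2
      exact (hx1 ⟨y, h3⟩).2 hy
  refine wtn p (Subgroup.normalizer (S : Set (G × H)))
    (S.subgroupOf (Subgroup.normalizer (S : Set (G × H))))
    (T.subgroupOf (Subgroup.normalizer (S : Set (G × H)))) _
    Subgroup.normal_in_normalizer ⟨?_⟩ ?_ ?_ hwt
  · intro n hn g
    exact (Subgroup.mem_normalizer_iff.mp (hNN g.2) n).mp hn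
  · exact hPg.comap_of_injective (Subgroup.normalizer (S : Set (G × H))).subtype
      Subtype.val_injective
  · rw [SetLike.lt_iff_le_and_exists]
    exact ⟨fun y hy => hle hy, ⟨x, hxN⟩, x.2, hx2⟩

/-- the value of a central character at the identity -/
theorem cv_dlt {K : Type} [Group K] [Fintype K] {χ : K → ℂ} (h : IsIrreducibleCharacter χ) :
    centralValue red χ (dlt F K) = 1 := by
  have h2 : dlt F K = Pi.single 1 1 := by
    funext g
    unfold dlt
    rw [Pi.single_apply]
  rw [h2]
  exact (cvh F red K χ h).one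

theorem B_dlt {K : Type} [Group K] {B : (K → F) → F} (hB : IsBlock B) : B (dlt F K) = 1 := by
  have h2 : dlt F K = Pi.single 1 1 := by
    funext g
    unfold dlt
    rw [Pi.single_apply]
  rw [h2]
  exact hB.one

theorem dlt_coe {K : Type} [Group K] (Q : Subgroup K) (x : Q) :
    dlt F K (x : K) = dlt F Q x := by
  unfold dlt
  by_cases h : x = 1
  · rw [if_pos h, if_pos (by rw [h]; rfl)]
  · rw [if_neg h, if_neg fun h' : (x : K) = 1 => h (Subtype.ext h')]

/-- every weight of a product of blocks is a product of weights -/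
theorem exists_pw {b₁ : (G → F) → F} {b₂ : (H → F) → F} (h1 : IsBlock b₁) (h2 : IsBlock b₂)
    {u : Pre (G × H)} (hu : IsW p red (bx b₁ b₂) u) :
    ∃ (w : Pre G) (v : Pre H), IsW p red b₁ w ∧ IsW p red b₂ v ∧ u = pw w v := by
  obtain ⟨S, ξ⟩ := u
  have hSp : IsPGroup p S := hu.pg
  have hS := eq_prod hSp hu.wt
  have p1 : IsPGroup p (S.map (MonoidHom.fst G H)) := hSp.map _
  have p2 : IsPGroup p (S.map (MonoidHom.snd G H)) := hSp.map _
  generalize S.map (MonoidHom.fst G H) = Q at hS p1
  generalize S.map (MonoidHom.snd G H) = R at hS p2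
  subst hS
  have h3 : IsIrreducibleCharacter (fun z => ξ ((nPr Q R).symm z)) :=
    Pool.Agent.Y624.NV.irr_comp (nPr Q R).symm hu.wt.irr
  obtain ⟨θ, ψ, i1, i2, h4⟩ := box_cover (χ := fun z => ξ ((nPr Q R).symm z)) h3
  have i1' : IsIrreducibleCharacter θ := i1
  have i2' : IsIrreducibleCharacter ψ := i2
  have hξ : ξ = (pw ⟨Q, θ⟩ ⟨R, ψ⟩).2 := by
    funext y
    have h5 := congrFun h4 (nPr Q R y)
    simp only [MulEquiv.symm_apply_apply] at h5
    exact h5
  subst hξ
  have hwt := (wt_pw_iff (w := ⟨Q, θ⟩) (v := ⟨R, ψ⟩) i1' i2').mp hu.wt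
  have hblk : ∀ f : G × H → F, IsClassFun f → centralValue red θ (fun g : GN Q =>
      centralValue red ψ (fun h : GN R => f (g, h))) = bx b₁ b₂ f := fun f hf =>
    (cv_pw red (w := ⟨Q, θ⟩) (v := ⟨R, ψ⟩) i1' i2' hf).symm.trans (hu.blk f hf)
  refine ⟨⟨Q, θ⟩, ⟨R, ψ⟩, ⟨p1, hwt.1, fun f hf => ?_⟩, ⟨p2, hwt.2, fun f hf => ?_⟩, rfl⟩
  · have hcl : IsClassFun fun w : G × H => f w.1 * dlt F H w.2 := by
      rintro ⟨c, d⟩ ⟨a, b⟩
      change f (c * a * c⁻¹) * dlt F H (d * b * d⁻¹) = f a * dlt F H b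
      rw [hf, dlt_class]
    have h5 := hblk _ hcl
    have h6 : (fun g : GN Q => centralValue red ψ (fun h : GN R =>
        (fun w : G × H => f w.1 * dlt F H w.2) (g, h))) = fun g : GN Q => f g := by
      funext g
      have h7 : (fun h : GN R => (fun w : G × H => f w.1 * dlt F H w.2) ((g : G), (h : H))) =
          fun h : GN R => f g * dlt F (GN R) h := by
        funext h
        change f g * dlt F H (h : H) = _
        rw [dlt_coe]
      rw [h7, cv_const red i2', cv_dlt red i2', mul_one]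
    rw [h6] at h5
    refine h5.trans ?_
    unfold bx
    congr 1
    funext g
    have h8 := h2.smul (f g) (dlt F H) dlt_class
    rw [B_dlt h2, mul_one] at h8
    exact h8
  · have hcl : IsClassFun fun w : G × H => dlt F G w.1 * f w.2 := by
      rintro ⟨c, d⟩ ⟨a, b⟩
      change dlt F G (c * a * c⁻¹) * f (d * b * d⁻¹) = dlt F G a * f b
      rw [hf, dlt_class]
    have h5 := hblk _ hcl
    have h6 : (fun g : GN Q => centralValue red ψ (fun h : GN R =>
        (fun w : G × H => dlt F G w.1 * f w.2) (g, h))) =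
        fun g : GN Q => centralValue red ψ (fun h : GN R => f h) * dlt F (GN Q) g := by
      funext g
      have h7 : (fun h : GN R => (fun w : G × H => dlt F G w.1 * f w.2) ((g : G), (h : H))) =
          fun h : GN R => dlt F G g * f h := rfl
      rw [h7, cv_const red i2', mul_comm, dlt_coe]
    rw [h6, cv_const red i1', cv_dlt red i1', mul_one] at h5
    refine h5.trans ?_
    unfold bx
    have h8 : (fun g : G => b₂ fun h => dlt F G g * f h) = b₂ f • dlt F G := by
      funext g
      have := h2.smul (dlt F G g) f hf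
      rw [Pi.smul_apply, smul_eq_mul, mul_comm]
      exact this
    rw [h8, h1.smul _ _ dlt_class, B_dlt h1, mul_one]

/-- **`w` is multiplicative.** -/
theorem w_bx {b₁ : (G → F) → F} {b₂ : (H → F) → F} (h1 : IsBlock b₁) (h2 : IsBlock b₂) :
    nW p red (bx b₁ b₂) = nW p red b₁ * nW p red b₂ := by
  unfold nW
  rw [numWts_quot, numWts_quot, numWts_quot, ← Nat.card_prod]
  let f : WT p red b₁ → WT p red b₂ → WT p red (bx b₁ b₂) := fun w v =>
    ⟨pw w.1 v.1, isW_pw red w.2 v.2⟩
  let F₀ : Quotient (wSet p red b₁) × Quotient (wSet p red b₂) →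
      Quotient (wSet p red (bx b₁ b₂)) := fun x =>
    Quotient.map₂ f (fun w w' h v v' h' => pw_cj h h') x.1 x.2
  refine (Nat.card_congr (Equiv.ofBijective F₀ ⟨?_, ?_⟩)).symm
  · rintro ⟨q, r⟩ ⟨q', r'⟩
    induction q using Quotient.inductionOn
    induction r using Quotient.inductionOn
    induction q' using Quotient.inductionOn
    induction r' using Quotient.inductionOn
    rename_i w v w' v'
    intro h
    have h3 : Cj (pw w.1 v.1) (pw w'.1 v'.1) := Quotient.exact h
    refine Prod.ext (Quotient.sound ?_) (Quotient.sound ?_)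
    · exact cj_fst w.2.wt.irr w'.2.wt.irr (one_ne v.2.wt.irr) (one_ne v'.2.wt.irr) h3
    · exact cj_snd v.2.wt.irr v'.2.wt.irr (one_ne w.2.wt.irr) (one_ne w'.2.wt.irr) h3
  · intro q
    induction q using Quotient.inductionOn with | _ u
    obtain ⟨w, v, hw, hv, h3⟩ := exists_pw red h1 h2 u.2
    refine ⟨(Quotient.mk _ ⟨w, hw⟩, Quotient.mk _ ⟨v, hv⟩), ?_⟩
    have h4 : u = f ⟨w, hw⟩ ⟨v, hv⟩ := Subtype.ext h3
    rw [h4]
    rfl

end main

end Pool.Agent.Hp21.UA
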